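import Mathlib

/-!
Linear forms in `m` variables over a finite field, and the polynomials whose roots are the elements
of a finite set of linear forms.
-/

set_option autoImplicit false

namespace Pool.Agent.H437Z.LRS

open Polynomial Finset

variable (F : Type) [Field F] [Fintype F] (m : ℕ)

/-- The polynomial ring in `m` variables. -/
abbrev RR := MvPolynomial (Fin m) F

/-- The coordinate space of linear forms. -/
abbrev WW := Fin m → F

/-- The linear form with given coordinates. -/
noncomputable def iota : WW F m →ₗ[F] RR F m := Fintype.linearCombination F fun i => MvPolynomial.X i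

variable {F m}

omit [Fintype F] in
theorem iota_apply (w : WW F m) : iota F m w = ∑ i, w i • MvPolynomial.X i := by
  simp [iota, Fintype.linearCombination_apply]

omit [Fintype F] in
theorem iota_single (i : Fin m) : iota F m (Pi.single i 1) = MvPolynomial.X i := by
  simp [iota, Fintype.linearCombination_apply_single]

omit [Fintype F] in
theorem coeff_iota (w : WW F m) (i : Fin m) :
    MvPolynomial.coeff (Finsupp.single i 1) (iota F m w) = w i := by
  classical
  rw [iota_apply, MvPolynomial.coeff_sum, Finset.sum_eq_single i]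
  · simp [MvPolynomial.coeff_X]
  · intro j _ hj
    rw [MvPolynomial.coeff_smul, MvPolynomial.coeff_X, if_neg, smul_zero]
    intro h
    exact hj (Finsupp.single_left_injective one_ne_zero h)
  · simp

omit [Fintype F] in
theorem iota_injective : Function.Injective (iota F m) := by
  intro v w h
  funext i
  rw [← coeff_iota v i, ← coeff_iota w i, h]

omit [Fintype F] in
theorem iota_homog (w : WW F m) : (iota F m w).IsHomogeneous 1 := by
  rw [iota_apply]
  refine MvPolynomial.IsHomogeneous.sum _ _ _ fun i _ => ?_
  rw [MvPolynomial.smul_eq_C_mul]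
  exact MvPolynomial.isHomogeneous_C_mul_X _ _

open Classical in
/-- The span of the first `k` variables. -/
noncomputable def UU (F : Type) [Field F] [Fintype F] (m k : ℕ) : Finset (WW F m) :=
  univ.filter fun w => ∀ i : Fin m, k ≤ i.val → w i = 0

theorem mem_UU {k : ℕ} {w : WW F m} : w ∈ UU F m k ↔ ∀ i : Fin m, k ≤ i.val → w i = 0 := by
  simp [UU]

theorem zero_mem_UU (k : ℕ) : (0 : WW F m) ∈ UU F m k := mem_UU.2 fun _ _ => rfl

theorem add_mem_UU {k : ℕ} {v w : WW F m} (hv : v ∈ UU F m k) (hw : w ∈ UU F m k) :
    v + w ∈ UU F m k :=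
  mem_UU.2 fun i hi => by simp [mem_UU.1 hv i hi, mem_UU.1 hw i hi]

theorem smul_mem_UU {k : ℕ} (c : F) {w : WW F m} (hw : w ∈ UU F m k) : c • w ∈ UU F m k :=
  mem_UU.2 fun i hi => by simp [mem_UU.1 hw i hi]

theorem neg_mem_UU {k : ℕ} {w : WW F m} (hw : w ∈ UU F m k) : -w ∈ UU F m k :=
  mem_UU.2 fun i hi => by simp [mem_UU.1 hw i hi]

theorem sub_mem_UU {k : ℕ} {v w : WW F m} (hv : v ∈ UU F m k) (hw : w ∈ UU F m k) :
    v - w ∈ UU F m k :=
  mem_UU.2 fun i hi => by simp [mem_UU.1 hv i hi, mem_UU.1 hw i hi]

theorem sum_mem_UU {k : ℕ} {ι : Type} {s : Finset ι} {g : ι → WW F m}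
    (h : ∀ i ∈ s, g i ∈ UU F m k) : ∑ i ∈ s, g i ∈ UU F m k :=
  mem_UU.2 fun i hi => by
    rw [Finset.sum_apply]
    exact Finset.sum_eq_zero fun j hj => mem_UU.1 (h j hj) i hi

theorem UU_mono {k l : ℕ} (h : k ≤ l) : UU F m k ⊆ UU F m l :=
  fun _ hw => mem_UU.2 fun i hi => mem_UU.1 hw i (h.trans hi)

theorem UU_top {k : ℕ} (h : m ≤ k) : UU F m k = univ :=
  Finset.eq_univ_of_forall fun _ => mem_UU.2 fun i hi => absurd i.2 (by omega)

theorem single_mem_UU {k : ℕ} (i : Fin m) (c : F) (h : i.val < k) :
    (Pi.single i c : WW F m) ∈ UU F m k :=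
  mem_UU.2 fun j hj => Pi.single_eq_of_ne (fun hji => by rw [hji] at hj; omega) _

theorem card_UU {k : ℕ} (h : k ≤ m) : #(UU F m k) = Fintype.card F ^ k := by
  classical
  have h1 : UU F m k = Fintype.piFinset fun i : Fin m => if i.val < k then univ else {0} := by
    ext w
    rw [mem_UU, Fintype.mem_piFinset]
    refine forall_congr' fun i => ?_
    by_cases hi : i.val < k
    · simp [hi]
    · simp [hi, not_lt.1 hi]
  rw [h1, Fintype.card_piFinset]
  have h2 : ∀ i : Fin m, #(if i.val < k then (univ : Finset F) else {0}) =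
      if i.val < k then Fintype.card F else 1 := by
    intro i; split_ifs <;> simp
  simp only [h2]
  rw [Finset.prod_ite, Finset.prod_const_one, mul_one, Finset.prod_const]
  congr 1
  rw [Fin.card_filter_val_lt]
  omega

omit [Field F] in
theorem card_WW [DecidableEq F] : Fintype.card (WW F m) = Fintype.card F ^ m := by
  simp

/-- The monic polynomial whose roots are the elements of `Z`. -/
noncomputable def fZ (Z : Finset (WW F m)) : (RR F m)[X] := ∏ v ∈ Z, (X - C (iota F m v))

omit [Fintype F] in
theorem fZ_monic (Z : Finset (WW F m)) : (fZ Z).Monic :=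
  monic_prod_of_monic _ _ fun _ _ => monic_X_sub_C _

omit [Fintype F] in
theorem fZ_natDegree (Z : Finset (WW F m)) : (fZ Z).natDegree = #Z := by
  unfold fZ
  rw [natDegree_prod_of_monic _ _ fun _ _ => monic_X_sub_C _]
  simp

omit [Fintype F] in
theorem eval_fZ (Z : Finset (WW F m)) (r : RR F m) :
    (fZ Z).eval r = ∏ v ∈ Z, (r - iota F m v) := by
  simp [fZ, eval_prod]

omit [Fintype F] in
theorem eval_fZ_of_mem {Z : Finset (WW F m)} {v : WW F m} (hv : v ∈ Z) :
    (fZ Z).eval (iota F m v) = 0 := by
  rw [eval_fZ]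
  exact Finset.prod_eq_zero hv (sub_self _)

omit [Fintype F] in
theorem fZ_coeff_homog (Z : Finset (WW F m)) :
    ∀ j k, j + k = #Z → ((fZ Z).coeff j).IsHomogeneous k := by
  classical
  induction Z using Finset.induction_on with
  | empty =>
    intro j k h
    have hj : j = 0 := by simp at h; omega
    have hk : k = 0 := by simp at h; omega
    subst hj hk
    simpa [fZ] using MvPolynomial.isHomogeneous_one _ _
  | insert v Z hv ih =>
    intro j k h
    rw [Finset.card_insert_of_notMem hv] at h
    have h1 : fZ (insert v Z) = fZ Z * X - C (iota F m v) * fZ Z := by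
      unfold fZ
      rw [Finset.prod_insert hv]; ring
    rw [h1, coeff_sub, coeff_C_mul]
    refine MvPolynomial.IsHomogeneous.sub ?_ ?_
    · rcases j with _ | j
      · rw [mul_coeff_zero, coeff_X_zero, mul_zero]
        exact MvPolynomial.isHomogeneous_zero _ _ _
      · rw [coeff_mul_X]
        exact ih j k (by omega)
    · rcases k with _ | k
      · rw [coeff_eq_zero_of_natDegree_lt (by rw [fZ_natDegree]; omega), mul_zero]
        exact MvPolynomial.isHomogeneous_zero _ _ _
      · have := (iota_homog v).mul (ih j k (by omega))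
        rwa [add_comm] at this

omit [Fintype F] in
theorem fZ_coeff_homog' (Z : Finset (WW F m)) (j : ℕ) :
    ((fZ Z).coeff j).IsHomogeneous (#Z - j) := by
  by_cases h : j ≤ #Z
  · exact fZ_coeff_homog Z j _ (by omega)
  · rw [coeff_eq_zero_of_natDegree_lt (by rw [fZ_natDegree]; omega)]
    exact MvPolynomial.isHomogeneous_zero _ _ _

open Classical in
/-- The polynomial whose roots are the linear forms outside the span of the first `k` variables. -/
noncomputable def GG (F : Type) [Field F] [Fintype F] (m k : ℕ) : (RR F m)[X] :=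
  fZ (univ \ UU F m k)

open Classical in
/-- The value of `GG` on the span of the first `k` variables. -/
noncomputable def LL (F : Type) [Field F] [Fintype F] (m k : ℕ) : RR F m :=
  ∏ v ∈ univ \ UU F m k, (- iota F m v)

open Classical in
theorem eval_GG (k : ℕ) (u : WW F m) :
    (GG F m k).eval (iota F m u) = if u ∈ UU F m k then LL F m k else 0 := by
  unfold GG LL
  split_ifs with hu
  · rw [eval_fZ]
    refine Finset.prod_nbij' (fun v => v - u) (fun v => v + u) ?_ ?_ ?_ ?_ ?_
    · intro v hv
      simp only [Finset.mem_sdiff, Finset.mem_univ, true_and] at hv ⊢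
      intro h
      exact hv (by simpa using add_mem_UU h hu)
    · intro v hv
      simp only [Finset.mem_sdiff, Finset.mem_univ, true_and] at hv ⊢
      intro h
      exact hv (by simpa using sub_mem_UU h hu)
    · intro v _; simp
    · intro v _; simp
    · intro v _; simp
  · exact eval_fZ_of_mem (by simp [hu])

theorem GG_monic (k : ℕ) : (GG F m k).Monic := fZ_monic _

theorem GG_natDegree {k : ℕ} (h : k ≤ m) :
    (GG F m k).natDegree = Fintype.card F ^ m - Fintype.card F ^ k := by
  classical
  unfold GG
  rw [fZ_natDegree, Finset.card_univ_sdiff, card_UU h]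
  congr 1
  convert card_WW (F := F) (m := m)

theorem exists_LL_mul {k l : ℕ} (h : k ≤ l) : ∃ r : RR F m, LL F m k = r * LL F m l := by
  classical
  refine ⟨∏ v ∈ UU F m l \ UU F m k, (- iota F m v), ?_⟩
  unfold LL
  rw [← Finset.prod_union]
  · congr 1
    ext v
    have := @UU_mono F _ _ m k l h v
    simp only [Finset.mem_sdiff, Finset.mem_univ, true_and, Finset.mem_union]
    tauto
  · rw [Finset.disjoint_left]
    intro v hv hv'
    simp only [Finset.mem_sdiff, Finset.mem_univ, true_and] at hv hv'
    exact hv' hv.1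

open Classical in
/-- The product of all nonzero linear forms, up to sign. -/
noncomputable def aa (F : Type) [Field F] [Fintype F] (m : ℕ) : RR F m :=
  ∏ v ∈ (univ : Finset (WW F m)).erase 0, (- iota F m v)

theorem aa_ne_zero : aa F m ≠ 0 := by
  classical
  unfold aa
  rw [Finset.prod_ne_zero_iff]
  intro v hv h
  rw [neg_eq_zero, ← map_zero (iota F m)] at h
  exact (Finset.mem_erase.1 hv).1 (iota_injective h)

open Classical in
theorem eval_fZ_erase (u : WW F m) : (fZ (univ.erase u)).eval (iota F m u) = aa F m := by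
  unfold aa
  rw [eval_fZ]
  refine Finset.prod_nbij' (fun v => v - u) (fun v => v + u) ?_ ?_ ?_ ?_ ?_
  · intro v hv
    simp only [Finset.mem_erase, Finset.mem_univ, and_true] at hv ⊢
    exact sub_ne_zero.2 hv
  · intro v hv
    simp only [Finset.mem_erase, Finset.mem_univ, and_true] at hv ⊢
    simpa using hv
  · intro v _; simp
  · intro v _; simp
  · intro v _; simp

open Classical in
/-- Lagrange interpolation: the sum of the values gives the top coefficient. -/
theorem sum_eval (p : (RR F m)[X]) (hp : p.natDegree < Fintype.card F ^ m) :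
    ∑ w : WW F m, p.eval (iota F m w) = aa F m * p.coeff (Fintype.card F ^ m - 1) := by
  have hc : Fintype.card (WW F m) = Fintype.card F ^ m := by convert card_WW (F := F) (m := m)
  have hd : ∀ w : WW F m, (fZ (univ.erase w)).natDegree = Fintype.card F ^ m - 1 := by
    intro w
    rw [fZ_natDegree, Finset.card_erase_of_mem (Finset.mem_univ _), Finset.card_univ, hc]
  have h1 : ∑ w : WW F m, C (p.eval (iota F m w)) * fZ (univ.erase w) = C (aa F m) * p := by
    refine eq_of_natDegree_lt_card_of_eval_eq _ _ iota_injective (fun u => ?_) ?_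
    · rw [eval_finsetSum, Finset.sum_eq_single u]
      · rw [eval_mul, eval_C, eval_fZ_erase, eval_mul, eval_C, mul_comm]
      · intro w _ hw
        rw [eval_mul, eval_fZ_of_mem (by simp [hw.symm]), mul_zero]
      · simp
    · rw [hc, max_lt_iff]
      constructor
      · refine lt_of_le_of_lt (natDegree_sum_le_of_forall_le (n := Fintype.card F ^ m - 1) _ _
          fun w _ => (natDegree_C_mul_le _ _).trans (hd w).le) (by omega)
      · exact (natDegree_C_mul_le _ _).trans_lt hp
  have h2 := congrArg (fun r => r.coeff (Fintype.card F ^ m - 1)) h1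
  simp only [finsetSum_coeff, coeff_C_mul] at h2
  rw [← h2]
  refine Finset.sum_congr rfl fun w _ => ?_
  rw [← hd w, (fZ_monic _).coeff_natDegree, mul_one]

open Classical in
theorem sum_eval_monic (p : (RR F m)[X]) (hp : p.Monic)
    (hd : p.natDegree = Fintype.card F ^ m - 1) :
    ∑ w : WW F m, p.eval (iota F m w) = aa F m := by
  have : 0 < Fintype.card F ^ m := pow_pos Fintype.card_pos _
  rw [sum_eval p (by omega), ← hd, hp.coeff_natDegree, mul_one]

/-- The substitution induced by a linear map of the space of linear forms. -/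
noncomputable def star (φ : WW F m →ₗ[F] WW F m) : RR F m →ₐ[F] RR F m :=
  MvPolynomial.aeval fun r => iota F m (φ (Pi.single r 1))

omit [Fintype F] in
theorem star_X (φ : WW F m →ₗ[F] WW F m) (r : Fin m) :
    star φ (MvPolynomial.X r) = iota F m (φ (Pi.single r 1)) := by
  simp [star]

omit [Fintype F] in
theorem star_iota (φ : WW F m →ₗ[F] WW F m) (v : WW F m) :
    star φ (iota F m v) = iota F m (φ v) := by
  classical
  conv_rhs => rw [← Finset.univ_sum_single v]
  rw [iota_apply, map_sum, map_sum, map_sum]
  refine Finset.sum_congr rfl fun i _ => ?_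
  rw [map_smul, star_X, ← map_smul, ← map_smul, ← Pi.single_smul, smul_eq_mul, mul_one]

omit [Fintype F] in
theorem map_fZ (φ : WW F m →ₗ[F] WW F m) (Z : Finset (WW F m)) :
    (fZ Z).map (star φ : RR F m →+* RR F m) = ∏ v ∈ Z, (X - C (iota F m (φ v))) := by
  unfold fZ
  rw [Polynomial.map_prod]
  refine Finset.prod_congr rfl fun v _ => ?_
  rw [Polynomial.map_sub, map_X, map_C]
  congr 2
  exact star_iota φ v

omit [Fintype F] in
theorem star_coeff_fZ (φ : WW F m →ₗ[F] WW F m) (Z : Finset (WW F m))
    (h1 : Set.InjOn φ Z) (h2 : ∀ v ∈ Z, φ v ∈ Z) (j : ℕ) :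
    star φ ((fZ Z).coeff j) = (fZ Z).coeff j := by
  have h3 : (fZ Z).map (star φ : RR F m →+* RR F m) = fZ Z := by
    rw [map_fZ]
    unfold fZ
    refine Finset.prod_nbij φ h2 h1 ?_ fun _ _ => rfl
    exact Finset.surjOn_of_injOn_of_card_le φ h2 h1 le_rfl
  conv_rhs => rw [← h3, coeff_map]
  rfl

end Pool.Agent.H437Z.LRS
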