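import Pool.Agent.H437Z.LRS.Gamma

/-!
An upper bound for the dimension of the invariants of the group of triangular matrices.
-/

set_option autoImplicit false
set_option linter.unusedSectionVars false

namespace Pool.Agent.H437Z.LRS

open Finset MvPolynomial

variable {F : Type} [Field F] [Fintype F] {n N : ℕ}

/-- The substitution adding `c` times the `i`-th variable to the `j`-th variable. -/
noncomputable def tv (i j : Fin n) (c : F) : MvPolynomial (Fin n) F →ₐ[F] MvPolynomial (Fin n) F :=
  aeval fun k => if k = j then X k + C c * X i else X k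

theorem tv_X (i j : Fin n) (c : F) (k : Fin n) :
    tv i j c (X k) = if k = j then X k + C c * X i else X k := aeval_X _ _

/-- The reduced polynomials which are invariant under the triangular substitutions. -/
def BR (F : Type) [Field F] (n N : ℕ) : Submodule F (MvPolynomial (Fin n) F) where
  carrier := {h | (∀ a : Fin n →₀ ℕ, (¬ ∀ i, a i < N) → coeff a h = 0) ∧
    ∀ (i j : Fin n) (c : F), i ≤ j → (i = j → 1 + c ≠ 0) → tv i j c h - h ∈ II F n N}
  zero_mem' := ⟨fun _ _ => coeff_zero _, fun _ _ _ _ _ => by simp⟩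
  add_mem' := by
    rintro a b ⟨h1, h2⟩ ⟨h3, h4⟩
    refine ⟨fun e he => by rw [coeff_add, h1 e he, h3 e he, add_zero], fun i j c h5 h6 => ?_⟩
    rw [map_add, add_sub_add_comm]
    exact Ideal.add_mem _ (h2 i j c h5 h6) (h4 i j c h5 h6)
  smul_mem' := by
    rintro s a ⟨h1, h2⟩
    refine ⟨fun e he => by rw [coeff_smul, h1 e he, smul_zero], fun i j c h5 h6 => ?_⟩
    rw [map_smul, ← smul_sub, smul_eq_C_mul]
    exact Ideal.mul_mem_left _ _ (h2 i j c h5 h6)

theorem mem_BR {h : MvPolynomial (Fin n) F} : h ∈ BR F n N ↔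
    (∀ a : Fin n →₀ ℕ, (¬ ∀ i, a i < N) → coeff a h = 0) ∧
    ∀ (i j : Fin n) (c : F), i ≤ j → (i = j → 1 + c ≠ 0) → tv i j c h - h ∈ II F n N := Iff.rfl

instance : FiniteDimensional F (BR F n N) := by
  refine Submodule.finiteDimensional_of_le (S₂ := restrictDegree (Fin n) F N) fun h hh => ?_
  rw [mem_restrictDegree]
  intro s hs i
  by_contra h1
  exact mem_support_iff.1 hs (hh.1 s fun h2 => h1 (h2 i).le)

/-- The coefficient of a power of the first variable. -/
noncomputable def cf (b : ℕ) : MvPolynomial (Fin (n + 1)) F →ₗ[F] MvPolynomial (Fin n) F :=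
  (Polynomial.lcoeff (MvPolynomial (Fin n) F) b).restrictScalars F ∘ₗ
    (finSuccEquiv F n).toLinearMap

theorem cf_apply (b : ℕ) (h : MvPolynomial (Fin (n + 1)) F) :
    cf b h = (finSuccEquiv F n h).coeff b := rfl

theorem coeff_cf (a : Fin n →₀ ℕ) (b : ℕ) (h : MvPolynomial (Fin (n + 1)) F) :
    coeff a (cf b h) = coeff (a.cons b) h := finSuccEquiv_coeff_coeff _ _ _

theorem cf_mem_II {h : MvPolynomial (Fin (n + 1)) F} (hh : h ∈ II F (n + 1) N) {b : ℕ}
    (hb : b < N) : cf b h ∈ II F n N := by
  refine mem_II.2 fun a ha => ?_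
  rw [coeff_cf]
  refine mem_II.1 hh _ fun i => ?_
  refine Fin.cases ?_ (fun i => ?_) i
  · simpa using hb
  · simpa using ha i

theorem cf_eq_zero {h : MvPolynomial (Fin (n + 1)) F} (hh : h ∈ BR F (n + 1) N) {b : ℕ}
    (hb : N ≤ b) : cf b h = 0 := by
  ext a
  rw [coeff_cf, coeff_zero]
  refine hh.1 _ fun h1 => ?_
  have h2 := h1 0
  simp only [Finsupp.cons_zero] at h2
  omega

theorem fse_C (c : F) : finSuccEquiv F n (C c) = Polynomial.C (C c) :=
  (finSuccEquiv F n).commutes c

theorem cf_tv_succ (i j : Fin n) (c : F) (b : ℕ) (h : MvPolynomial (Fin (n + 1)) F) :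
    cf b (tv i.succ j.succ c h) = tv i j c (cf b h) := by
  have h1 : (finSuccEquiv F n).toAlgHom.comp (tv i.succ j.succ c) =
      (Polynomial.mapAlgHom (tv i j c)).comp (finSuccEquiv F n).toAlgHom := by
    refine MvPolynomial.algHom_ext fun k => ?_
    refine Fin.cases ?_ (fun k => ?_) k
    · simp [tv_X, (Fin.succ_ne_zero j).symm, finSuccEquiv_X_zero]
    · by_cases hk : k = j
      · simp [tv_X, hk, finSuccEquiv_X_succ, fse_C]
      · simp [tv_X, hk, finSuccEquiv_X_succ]
  have h2 : finSuccEquiv F n (tv i.succ j.succ c h) =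
      (finSuccEquiv F n h).map (tv i j c : MvPolynomial (Fin n) F →+* _) :=
    congrArg (fun f => f h) h1
  rw [cf_apply, h2, Polynomial.coeff_map]
  rfl

theorem cf_mem_BR {h : MvPolynomial (Fin (n + 1)) F} (hh : h ∈ BR F (n + 1) N) (b : ℕ) :
    cf b h ∈ BR F n N := by
  by_cases hb : b < N
  · refine ⟨fun a ha => ?_, fun i j c h1 h2 => ?_⟩
    · rw [coeff_cf]
      exact hh.1 _ fun h1 => ha fun i => by simpa using h1 i.succ
    · rw [← cf_tv_succ, ← map_sub]
      exact cf_mem_II (hh.2 _ _ c (Fin.succ_le_succ_iff.2 h1)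
        fun h3 => h2 (Fin.succ_injective _ h3)) hb
  · rw [cf_eq_zero hh (not_lt.1 hb)]
    exact Submodule.zero_mem _

theorem cf_tv_zero (c : F) (b : ℕ) (h : MvPolynomial (Fin (n + 1)) F) :
    cf b (tv 0 0 c h) = (1 + c) ^ b • cf b h := by
  have h1 : (finSuccEquiv F n).toAlgHom.comp (tv 0 0 c) =
      ((Polynomial.aeval (Polynomial.C (C (1 + c) : MvPolynomial (Fin n) F) *
        Polynomial.X)).restrictScalars F).comp (finSuccEquiv F n).toAlgHom := by
    refine MvPolynomial.algHom_ext fun k => ?_
    refine Fin.cases ?_ (fun k => ?_) k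
    · simp [tv_X, finSuccEquiv_X_zero, fse_C, add_mul]
    · simp [tv_X, finSuccEquiv_X_succ]
  have h2 : finSuccEquiv F n (tv 0 0 c h) =
      (finSuccEquiv F n h).comp (Polynomial.C (C (1 + c)) * Polynomial.X) :=
    congrArg (fun f => f h) h1
  rw [cf_apply, h2, Polynomial.comp_C_mul_X_coeff, smul_eq_C_mul, map_pow, mul_comm]
  rfl

theorem cf_eq_zero_of_not_dvd {h : MvPolynomial (Fin (n + 1)) F} (hh : h ∈ BR F (n + 1) N)
    {b : ℕ} (hb : ¬ (Fintype.card F - 1) ∣ b) : cf b h = 0 := by
  classical
  by_cases hbN : b < N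
  · obtain ⟨g, hg⟩ := IsCyclic.exists_generator (α := Fˣ)
    have h1 : orderOf g = Fintype.card F - 1 := by
      rw [orderOf_eq_card_of_forall_mem_zpowers hg, Nat.card_eq_fintype_card, Fintype.card_units]
    have h2 : (g : F) ^ b - 1 ≠ 0 := by
      intro h3
      refine hb ?_
      rw [← h1, orderOf_dvd_iff_pow_eq_one]
      exact Units.ext (by simpa using sub_eq_zero.1 h3)
    have h3 := cf_mem_II (hh.2 0 0 ((g : F) - 1) le_rfl fun _ => by simp) hbN
    rw [map_sub, cf_tv_zero, add_sub_cancel] at h3
    ext a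
    rw [coeff_zero]
    by_cases ha : ∀ i, a i < N
    · have h4 := mem_II.1 h3 a ha
      rw [coeff_sub, coeff_smul, smul_eq_mul, ← sub_one_mul] at h4
      exact (mul_eq_zero.1 h4).resolve_left h2
    · exact (cf_mem_BR hh b).1 a ha
  · exact cf_eq_zero hh (not_lt.1 hbN)

/-- The expansion of a polynomial under a translation of the `j`-th variable. -/
noncomputable def theta (j : Fin n) :
    MvPolynomial (Fin n) F →ₐ[F] Polynomial (MvPolynomial (Fin n) F) :=
  aeval fun k => if k = j then Polynomial.X + Polynomial.C (X k) else Polynomial.C (X k)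

theorem coeff_theta (j : Fin n) (g : MvPolynomial (Fin n) F) (e : ℕ) (a : Fin n →₀ ℕ) :
    coeff a ((theta j g).coeff e) =
      ((a j + e).choose e : F) * coeff (a + Finsupp.single j e) g := by
  classical
  induction g using MvPolynomial.induction_on' with
  | add p q hp hq => rw [map_add, Polynomial.coeff_add, coeff_add, hp, hq, coeff_add, mul_add]
  | monomial u s =>
    have h1 : theta j (monomial (u.erase j) s) = Polynomial.C (monomial (u.erase j) s) := by
      rw [theta, aeval_monomial, monomial_eq, map_mul, Finsupp.prod, Finsupp.prod, map_prod]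
      congr 1
      refine Finset.prod_congr rfl fun k hk => ?_
      rw [if_neg, map_pow]
      rintro rfl
      simp at hk
    have h2 : theta j (monomial u s) = Polynomial.C (monomial (u.erase j) s) *
        (Polynomial.X + Polynomial.C (X j)) ^ u j := by
      conv_lhs => rw [← Finsupp.erase_add_single j u, monomial_add_single]
      rw [map_mul, h1, map_pow, theta, aeval_X, if_pos rfl]
    rw [h2, Polynomial.coeff_C_mul, Polynomial.coeff_X_add_C_pow, ← mul_assoc,
      ← monomial_add_single, ← map_natCast (C : F →+* MvPolynomial (Fin n) F), mul_comm,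
      coeff_C_mul, coeff_monomial, coeff_monomial]
    by_cases h3 : u = a + Finsupp.single j e
    · have h4 : u j = a j + e := by rw [h3]; simp
      rw [if_pos h3, if_pos, h4]
      ext k
      by_cases hk : k = j
      · subst hk; simp [h4]
      · simp [h3, hk]
    · rw [if_neg h3, mul_zero]
      split_ifs with h4
      · rw [Nat.choose_eq_zero_of_lt, Nat.cast_zero, zero_mul]
        by_contra h5
        refine h3 ?_
        rw [← h4, add_assoc, ← Finsupp.single_add, Nat.sub_add_cancel (not_lt.1 h5),
          Finsupp.erase_add_single]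
      · rw [mul_zero]

theorem coeff_eval₂_X {A : Type} [CommRing A] (θ : A →+* Polynomial A) (p : Polynomial A) (t : ℕ) :
    (p.eval₂ θ Polynomial.X).coeff t = ∑ b ∈ range (t + 1), (θ (p.coeff b)).coeff (t - b) := by
  induction p using Polynomial.induction_on' with
  | add p q hp hq =>
    simp only [Polynomial.eval₂_add, Polynomial.coeff_add, hp, hq, map_add, Finset.sum_add_distrib]
  | monomial b s =>
    rw [Polynomial.eval₂_monomial, Polynomial.coeff_mul_X_pow']
    split_ifs with h
    · rw [Finset.sum_eq_single b]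
      · rw [Polynomial.coeff_monomial, if_pos rfl]
      · intro b' _ hb'
        rw [Polynomial.coeff_monomial, if_neg hb'.symm, map_zero, Polynomial.coeff_zero]
      · intro hb
        exact absurd (Finset.mem_range.2 (by omega)) hb
    · refine (Finset.sum_eq_zero fun b' hb' => ?_).symm
      have := Finset.mem_range.1 hb'
      rw [Polynomial.coeff_monomial, if_neg (by omega), map_zero, Polynomial.coeff_zero]

theorem cf_tv_one (j : Fin n) (t : ℕ) (h : MvPolynomial (Fin (n + 1)) F) :
    cf t (tv 0 j.succ 1 h) = ∑ b ∈ range (t + 1), (theta j (cf b h)).coeff (t - b) := by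
  have h1 : (finSuccEquiv F n : MvPolynomial (Fin (n + 1)) F →+* _).comp
      (tv 0 j.succ (1 : F) : MvPolynomial (Fin (n + 1)) F →+* _) =
      (Polynomial.eval₂RingHom (theta (F := F) j).toRingHom Polynomial.X).comp
        (finSuccEquiv F n : MvPolynomial (Fin (n + 1)) F →+* _) := by
    refine MvPolynomial.ringHom_ext (fun r => ?_) fun k => ?_
    · simp [tv, theta, fse_C]
    · refine Fin.cases ?_ (fun k => ?_) k
      · simp [tv_X, (Fin.succ_ne_zero j).symm, finSuccEquiv_X_zero]
      · by_cases hk : k = j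
        · simp [tv_X, hk, finSuccEquiv_X_succ, finSuccEquiv_X_zero, theta, add_comm]
        · simp [tv_X, hk, finSuccEquiv_X_succ, theta]
  have h2 : finSuccEquiv F n (tv 0 j.succ 1 h) =
      (finSuccEquiv F n h).eval₂ (theta (F := F) j).toRingHom Polynomial.X :=
    congrArg (fun f => f h) h1
  rw [cf_apply, h2, coeff_eval₂_X]
  rfl

theorem theta_mem_II {h : MvPolynomial (Fin (n + 1)) F} (hh : h ∈ BR F (n + 1) N) {b e : ℕ}
    (h0 : ∀ b' < b, cf b' h = 0) (hb : (Fintype.card F - 1) ∣ b) (he1 : 0 < e)
    (he2 : e < Fintype.card F) (hN : b + e < N) (j : Fin n) :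
    (theta j (cf b h)).coeff e ∈ II F n N := by
  have h1 := cf_mem_II (hh.2 0 j.succ 1 (Fin.zero_le _)
    fun h => absurd h.symm (Fin.succ_ne_zero j)) hN
  have h2 : (theta j (cf (b + e) h)).coeff 0 = cf (b + e) h := by
    ext a
    rw [coeff_theta]
    simp
  rw [map_sub, cf_tv_one, Finset.sum_range_succ, Nat.sub_self, h2, add_sub_cancel_right,
    Finset.sum_eq_single b, Nat.add_sub_cancel_left] at h1
  · exact h1
  · intro b' hb1 hb2
    have hb3 := Finset.mem_range.1 hb1
    have h3 : cf b' h = 0 := by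
      rcases lt_or_gt_of_ne hb2 with h4 | h4
      · exact h0 b' h4
      · refine cf_eq_zero_of_not_dvd hh fun h5 => ?_
        have h6 := Nat.le_of_dvd (by omega) (Nat.dvd_sub h5 hb)
        omega
    rw [h3, map_zero, Polynomial.coeff_zero]
  · intro h3
    exact absurd (Finset.mem_range.2 (by omega)) h3

theorem choose_mod_card (a : ℕ) : ((a.choose (a % Fintype.card F) : ℕ) : F) = 1 := by
  have hq : 0 < Fintype.card F := Fintype.card_pos
  have h1 : (Polynomial.X + 1 : Polynomial F) ^ Fintype.card F =
      Polynomial.X ^ Fintype.card F + 1 := by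
    have := map_add (FiniteField.frobeniusAlgHom F (Polynomial F)) Polynomial.X 1
    simpa [FiniteField.coe_frobeniusAlgHom] using this
  obtain ⟨w, hw⟩ := sub_dvd_pow_sub_pow (Polynomial.X ^ Fintype.card F + 1 : Polynomial F) 1
    (a / Fintype.card F)
  rw [add_sub_cancel_right, one_pow, sub_eq_iff_eq_add] at hw
  have h2 : (Polynomial.X + 1 : Polynomial F) ^ a =
      ((Polynomial.X + 1) ^ (a % Fintype.card F) * w) * Polynomial.X ^ Fintype.card F +
        (Polynomial.X + 1) ^ (a % Fintype.card F) := by
    conv_lhs => rw [← Nat.mod_add_div a (Fintype.card F), pow_add, pow_mul, h1, hw]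
    ring
  have h3 := congrArg (fun p => p.coeff (a % Fintype.card F)) h2
  simp only [Polynomial.coeff_add, Polynomial.coeff_X_add_one_pow, Polynomial.coeff_mul_X_pow',
    Nat.choose_self, Nat.cast_one] at h3
  rw [h3, if_neg (not_le.2 (Nat.mod_lt _ hq)), zero_add]

theorem dvd_of_theta {g : MvPolynomial (Fin n) F} (hg : g ∈ BR F n N)
    (h : ∀ j e, 0 < e → e < Fintype.card F → (theta j g).coeff e ∈ II F n N)
    {a : Fin n →₀ ℕ} (ha : a ∈ g.support) (j : Fin n) : Fintype.card F ∣ a j := by
  by_contra h1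
  have h2 : 0 < a j % Fintype.card F := Nat.pos_of_ne_zero fun h => h1 (Nat.dvd_of_mod_eq_zero h)
  have h3 : ∀ i, a i < N := by
    by_contra h3
    exact mem_support_iff.1 ha (hg.1 a h3)
  have h4 := mem_II.1 (h j _ h2 (Nat.mod_lt _ Fintype.card_pos))
    (a - Finsupp.single j (a j % Fintype.card F)) fun i => lt_of_le_of_lt (by simp) (h3 i)
  have h5 : Finsupp.single j (a j % Fintype.card F) ≤ a :=
    Finsupp.single_le_iff.2 (Nat.mod_le _ _)
  rw [coeff_theta, tsub_add_cancel_of_le h5, Finsupp.tsub_apply, Finsupp.single_eq_same,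
    Nat.sub_add_cancel (Nat.mod_le _ _), choose_mod_card, one_mul] at h4
  exact mem_support_iff.1 ha h4

theorem exists_expand {q : ℕ} {g : MvPolynomial (Fin n) F} (h : ∀ a ∈ g.support, ∀ j, q ∣ a j) :
    ∃ g', expand q g' = g := by
  refine ⟨∑ a ∈ g.support, monomial (a.mapRange (· / q) (Nat.zero_div q)) (coeff a g), ?_⟩
  rw [map_sum]
  conv_rhs => rw [g.as_sum]
  refine Finset.sum_congr rfl fun a ha => ?_
  rw [expand_monomial]
  congr 2
  ext j
  simp [Nat.mul_div_cancel' (h a ha j)]

theorem tv_expand (i j : Fin n) (c : F) (g : MvPolynomial (Fin n) F) :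
    tv i j c (expand (Fintype.card F) g) = expand (Fintype.card F) (tv i j c g) := by
  have h1 : (tv i j c).comp (expand (Fintype.card F)) = (expand (Fintype.card F)).comp (tv i j c) := by
    refine MvPolynomial.algHom_ext fun k => ?_
    rw [AlgHom.comp_apply, AlgHom.comp_apply, expand_X, map_pow, tv_X]
    split_ifs
    · have := map_add (FiniteField.frobeniusAlgHom F (MvPolynomial (Fin n) F)) (X k) (C c * X i)
      simp only [FiniteField.coe_frobeniusAlgHom] at this
      rw [this, mul_pow, ← map_pow, FiniteField.pow_card, map_add, map_mul, expand_X, expand_X,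
        expand_C]
    · rw [expand_X]
  exact congrArg (fun f => f g) h1

theorem mem_BR_of_expand {g : MvPolynomial (Fin n) F}
    (hg : expand (Fintype.card F) g ∈ BR F n (Fintype.card F * N)) : g ∈ BR F n N := by
  have hq : 0 < Fintype.card F := Fintype.card_pos
  refine ⟨fun a ha => ?_, fun i j c h1 h2 => mem_II.2 fun a ha => ?_⟩
  · rw [← coeff_expand_smul _ hq.ne']
    refine hg.1 _ fun h => ha fun i => ?_
    have := h i
    rw [Finsupp.smul_apply, smul_eq_mul] at this
    exact Nat.lt_of_mul_lt_mul_left this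
  · rw [← coeff_expand_smul _ hq.ne', map_sub, ← tv_expand]
    refine mem_II.1 (hg.2 i j c h1 h2) _ fun i => ?_
    rw [Finsupp.smul_apply, smul_eq_mul]
    exact Nat.mul_lt_mul_of_pos_left (ha i) hq

theorem finrank_le_of_map {V W : Type} [AddCommGroup V] [Module F V] [AddCommGroup W] [Module F W]
    (P P' : Submodule F V) [FiniteDimensional F P] [FiniteDimensional F P'] (f : V →ₗ[F] W)
    (T : Submodule F W) [FiniteDimensional F T] (h1 : ∀ x ∈ P, f x ∈ T)
    (h2 : ∀ x ∈ P, f x = 0 → x ∈ P') :
    Module.finrank F P ≤ Module.finrank F P' + Module.finrank F T := by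
  have h3 := LinearMap.finrank_range_add_finrank_ker (f.domRestrict P)
  have h4 : Module.finrank F (LinearMap.range (f.domRestrict P)) ≤ Module.finrank F T :=
    Submodule.finrank_mono (by rintro _ ⟨x, rfl⟩; exact h1 x x.2)
  have h5 : Module.finrank F (LinearMap.ker (f.domRestrict P)) ≤ Module.finrank F P' := by
    rw [← Submodule.finrank_map_subtype_eq]
    exact Submodule.finrank_mono (by rintro _ ⟨x, hx, rfl⟩; exact h2 x x.2 hx)
  omega

/-- The geometric sum. -/
def gs (q m : ℕ) : ℕ := ∑ j ∈ range m, q ^ j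

theorem gs_mul {q : ℕ} (hq : 0 < q) (m : ℕ) : (q - 1) * gs q m + 1 = q ^ m := by
  obtain ⟨p, rfl⟩ : ∃ p, q = p + 1 := ⟨q - 1, by omega⟩
  rw [Nat.add_sub_cancel, mul_comm]
  exact geom_sum_mul_add p m

/-- The filtration by the order of vanishing in the first variable. -/
noncomputable def KK (F : Type) [Field F] [Fintype F] (n N b : ℕ) :
    Submodule F (MvPolynomial (Fin (n + 1)) F) :=
  BR F (n + 1) N ⊓ ⨅ b' : Fin b, LinearMap.ker (cf b'.val)

theorem mem_KK {b : ℕ} {h : MvPolynomial (Fin (n + 1)) F} :
    h ∈ KK F n N b ↔ h ∈ BR F (n + 1) N ∧ ∀ b' < b, cf b' h = 0 := by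
  unfold KK
  rw [Submodule.mem_inf, Submodule.mem_iInf]
  exact and_congr Iff.rfl ⟨fun h b' hb' => h ⟨b', hb'⟩, fun h b' => h b'.val b'.2⟩

instance (b : ℕ) : FiniteDimensional F (KK F n N b) :=
  Submodule.finiteDimensional_of_le inf_le_left

theorem finrank_BR_succ (n m : ℕ) :
    Module.finrank F (BR F (n + 1) (Fintype.card F ^ m)) ≤
      Module.finrank F (BR F n (Fintype.card F ^ m)) +
        gs (Fintype.card F) m * Module.finrank F (BR F n (Fintype.card F ^ (m - 1))) := by
  have hq : 1 < Fintype.card F := Fintype.one_lt_card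
  have hg := gs_mul (q := Fintype.card F) (by omega) m
  have key : ∀ t a, a + t = gs (Fintype.card F) m →
      Module.finrank F (KK F n (Fintype.card F ^ m) ((Fintype.card F - 1) * a)) ≤
      Module.finrank F (BR F n (Fintype.card F ^ m)) +
        t * Module.finrank F (BR F n (Fintype.card F ^ (m - 1))) := by
    intro t
    induction t with
    | zero =>
      intro a ha
      rw [add_zero] at ha
      have h1 := finrank_le_of_map (KK F n (Fintype.card F ^ m) ((Fintype.card F - 1) * a)) ⊥
        (cf ((Fintype.card F - 1) * a)) (BR F n (Fintype.card F ^ m))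
        (fun x hx => cf_mem_BR (mem_KK.1 hx).1 _) fun x hx h0 => by
          rw [Submodule.mem_bot, ← (finSuccEquiv F n).map_eq_zero_iff]
          refine Polynomial.ext fun b => ?_
          show cf b x = 0
          rcases lt_trichotomy b ((Fintype.card F - 1) * a) with h | h | h
          · exact (mem_KK.1 hx).2 b h
          · rw [h]; exact h0
          · exact cf_eq_zero (mem_KK.1 hx).1 (by rw [← hg, ← ha]; omega)
      simpa using h1
    | succ t ih =>
      intro a ha
      have hm : m ≠ 0 := by
        rintro rfl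
        simp [gs] at ha
      have hN : Fintype.card F ^ m = Fintype.card F * Fintype.card F ^ (m - 1) := by
        rw [← pow_succ', Nat.sub_add_cancel (Nat.pos_of_ne_zero hm)]
      have h1 := finrank_le_of_map (KK F n (Fintype.card F ^ m) ((Fintype.card F - 1) * a))
        (KK F n (Fintype.card F ^ m) ((Fintype.card F - 1) * (a + 1)))
        (cf ((Fintype.card F - 1) * a))
        ((BR F n (Fintype.card F ^ (m - 1))).map (expand (Fintype.card F)).toLinearMap)
        (fun x hx => by
          have h2 := cf_mem_BR (mem_KK.1 hx).1 ((Fintype.card F - 1) * a)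
          obtain ⟨g, hg'⟩ := exists_expand fun e he j => dvd_of_theta h2 (fun j e he1 he2 =>
            theta_mem_II (mem_KK.1 hx).1 (mem_KK.1 hx).2 (Dvd.intro _ rfl) he1 he2 (by
              rw [← hg, ← ha, mul_add, mul_add]; omega) j) he j
          refine ⟨g, mem_BR_of_expand ?_, hg'⟩
          rw [hg', ← hN]
          exact h2)
        fun x hx h0 => mem_KK.2 ⟨(mem_KK.1 hx).1, fun b hb => by
          rcases lt_trichotomy b ((Fintype.card F - 1) * a) with h | h | h
          · exact (mem_KK.1 hx).2 b h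
          · rw [h]; exact h0
          · refine cf_eq_zero_of_not_dvd (mem_KK.1 hx).1 fun h5 => ?_
            have h6 := Nat.le_of_dvd (by omega) (Nat.dvd_sub h5 (Dvd.intro a rfl))
            rw [mul_add] at hb
            omega⟩
      have h2 := ih (a + 1) (by omega)
      have h3 := Submodule.finrank_map_le (expand (Fintype.card F)).toLinearMap
        (BR F n (Fintype.card F ^ (m - 1)))
      rw [add_mul, one_mul]
      omega
  have h1 := key _ 0 (zero_add _)
  have h2 : KK F n (Fintype.card F ^ m) ((Fintype.card F - 1) * 0) =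
      BR F (n + 1) (Fintype.card F ^ m) := by
    ext h
    rw [mem_KK]
    simp
  rwa [h2] at h1

/-- A descending product of geometric sums. -/
def PP (q m k : ℕ) : ℕ := ∏ r ∈ range k, gs q (m - r)

theorem PP_succ (q m k : ℕ) : PP q m (k + 1) = gs q m * PP q (m - 1) k := by
  unfold PP
  rw [Finset.prod_range_succ', Nat.sub_zero, mul_comm]
  congr 1
  exact Finset.prod_congr rfl fun r _ => by rw [Nat.sub_sub, add_comm]

theorem sum_piFinset_succ (s : Finset ℕ) (g : (Fin (n + 1) → ℕ) → ℕ) :
    ∑ β ∈ Fintype.piFinset fun _ => s, g β =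
      ∑ a ∈ s, ∑ β ∈ Fintype.piFinset fun _ : Fin n => s, g (Fin.cons a β) := by
  rw [← Finset.sum_product']
  refine Finset.sum_nbij' (fun β => (β 0, Fin.tail β)) (fun p => Fin.cons p.1 p.2) ?_ ?_ ?_ ?_ ?_
  · intro β hβ
    rw [Fintype.mem_piFinset] at hβ
    exact Finset.mem_product.2 ⟨hβ 0, Fintype.mem_piFinset.2 fun i => hβ i.succ⟩
  · intro p hp
    rw [Finset.mem_product, Fintype.mem_piFinset] at hp
    exact Fintype.mem_piFinset.2 fun i => Fin.cases hp.1 (fun i => hp.2 i) i
  · intro β _; simp
  · intro p _; simp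
  · intro β _; simp

/-- The upper bound. -/
theorem finrank_BR_le (n m : ℕ) : Module.finrank F (BR F n (Fintype.card F ^ m)) ≤
    ∑ β ∈ Fintype.piFinset fun _ : Fin n => range 2, PP (Fintype.card F) m (∑ i, β i) := by
  induction n generalizing m with
  | zero =>
    have h1 : BR F 0 (Fintype.card F ^ m) ≤ Submodule.span F {1} := fun h _ => by
      rw [Submodule.mem_span_singleton]
      exact ⟨coeff 0 h, by rw [smul_eq_C_mul, mul_one, ← eq_C_of_isEmpty]⟩
    have h2 := Submodule.finrank_mono h1
    rw [finrank_span_singleton one_ne_zero] at h2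
    simpa [PP] using h2
  | succ n ih =>
    refine (finrank_BR_succ n m).trans ?_
    rw [sum_piFinset_succ, Finset.sum_range_succ, Finset.sum_range_one]
    simp only [Fin.sum_univ_succ, Fin.cons_zero, Fin.cons_succ, zero_add, add_comm 1, PP_succ]
    rw [← Finset.mul_sum]
    exact add_le_add (ih m) (Nat.mul_le_mul_left _ (ih (m - 1)))

end Pool.Agent.H437Z.LRS
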