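import Pool.Agent.H437Z.LRS.Indep
import Pool.Agent.H437Z.LRS.Borel

/-!
Compositions, the families of data attached to them, and the dimension of the invariants.
-/

set_option autoImplicit false
set_option linter.unusedSectionVars false

namespace Pool.Agent.H437Z.LRS

open Finset MvPolynomial

variable {F : Type} [Field F] [Fintype F] {m n l : ℕ}

/-- The sums of initial segments. -/
def ps (β : Fin l → ℕ) (s : ℕ) : ℕ := ∑ r ∈ univ.filter (fun r : Fin l => r.val < s), β r

theorem ps_zero (β : Fin l → ℕ) : ps β 0 = 0 := by simp [ps]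

theorem ps_mono (β : Fin l → ℕ) {s t : ℕ} (h : s ≤ t) : ps β s ≤ ps β t :=
  Finset.sum_le_sum_of_subset fun r hr => by
    simp only [Finset.mem_filter, Finset.mem_univ, true_and] at hr ⊢
    omega

theorem filter_lt_succ (s : Fin l) : univ.filter (fun r : Fin l => r.val < s.val + 1) =
    insert s (univ.filter (fun r : Fin l => r.val < s.val)) := by
  ext r
  simp only [Finset.mem_filter, Finset.mem_univ, true_and, Finset.mem_insert, Fin.ext_iff]
  omega

theorem ps_succ (β : Fin l → ℕ) {s : ℕ} (hs : s < l) : ps β (s + 1) = ps β s + β ⟨s, hs⟩ := by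
  unfold ps
  rw [filter_lt_succ ⟨s, hs⟩, Finset.sum_insert (by simp), add_comm]

theorem ps_of_le (β : Fin l → ℕ) {s : ℕ} (hs : l ≤ s) : ps β s = ∑ r, β r := by
  unfold ps
  rw [Finset.filter_true_of_mem fun r _ => r.2.trans_le hs]

theorem ps_le (β : Fin l → ℕ) (s : ℕ) : ps β s ≤ ∑ r, β r :=
  Finset.sum_le_sum_of_subset (Finset.filter_subset _ _)

theorem ps_le_eq (β : Fin l → ℕ) (s : ℕ) :
    ∑ r ∈ univ.filter (fun r : Fin l => r.val ≤ s), β r = ps β (s + 1) := by
  unfold ps
  simp only [Nat.lt_succ_iff]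

/-- The block containing a given index. -/
def blk (β : Fin l → ℕ) (r : ℕ) : ℕ := Nat.findGreatest (fun s => ps β s ≤ r) l

theorem ps_blk_le (β : Fin l → ℕ) (r : ℕ) : ps β (blk β r) ≤ r :=
  Nat.findGreatest_spec (P := fun s => ps β s ≤ r) (Nat.zero_le l) (by simp [ps_zero])

theorem le_blk (β : Fin l → ℕ) {s r : ℕ} (hs : s ≤ l) : s ≤ blk β r ↔ ps β s ≤ r :=
  ⟨fun h => (ps_mono β h).trans (ps_blk_le β r), fun h => Nat.le_findGreatest hs h⟩

theorem blk_le (β : Fin l → ℕ) (r : ℕ) : blk β r ≤ l := Nat.findGreatest_le l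

theorem blk_lt (β : Fin l → ℕ) {r : ℕ} (h : r < ∑ i, β i) : blk β r < l := by
  by_contra h1
  have h2 := (le_blk β le_rfl).1 (not_lt.1 h1)
  rw [ps_of_le β le_rfl] at h2
  omega

theorem lt_ps_blk (β : Fin l → ℕ) {r : ℕ} (h : r < ∑ i, β i) : r < ps β (blk β r + 1) := by
  by_contra h1
  have h2 := (le_blk β (blk_lt β h)).2 (not_lt.1 h1)
  omega

theorem blk_eq (β : Fin l → ℕ) {s r : ℕ} (hs : s < l) (h1 : ps β s ≤ r) (h2 : r < ps β (s + 1)) :
    blk β r = s := by
  have h3 := (le_blk β hs.le).2 h1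
  have h4 := (le_blk β (r := r) (s := s + 1) hs).not.2 (not_le.2 h2)
  omega

theorem blk_mono (β : Fin l → ℕ) {r r' : ℕ} (h : r ≤ r') : blk β r ≤ blk β r' :=
  (le_blk β (blk_le β r)).2 ((ps_blk_le β r).trans h)

/-- The marked variables. -/
def eta (α β : Fin l → ℕ) (r : ℕ) : ℕ := ps α (blk β r) + (r - ps β (blk β r))

theorem eta_lt {α β : Fin l → ℕ} (hβ : ∀ s, β s ≤ α s) {r : ℕ} (hr : r < ∑ i, β i) :
    eta α β r < ps α (blk β r + 1) := by
  have h1 := lt_ps_blk β hr
  have h2 := ps_blk_le β r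
  have h3 := hβ ⟨_, blk_lt β hr⟩
  rw [ps_succ _ (blk_lt β hr)] at h1 ⊢
  unfold eta
  omega

theorem blk_eta {α β : Fin l → ℕ} (hβ : ∀ s, β s ≤ α s) {r : ℕ} (hr : r < ∑ i, β i) :
    blk α (eta α β r) = blk β r :=
  blk_eq α (blk_lt β hr) (Nat.le_add_right _ _) (eta_lt hβ hr)

theorem blk_le_of_lt {α β : Fin l → ℕ} {i r : ℕ} (hi : i < ∑ s, α s)
    (hr : r < ps β (blk α i + 1)) : blk β r ≤ blk α i := by
  have h1 := (le_blk β (r := r) (s := blk α i + 1) (blk_lt α hi)).not.2 (not_le.2 hr)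
  omega

/-- The index set of the family attached to a composition. -/
def Fam (α : Fin l → ℕ) (m : ℕ) : Finset (Fin l → ℕ) :=
  (Fintype.piFinset fun i : Fin l => Finset.range (α i + 1)).filter fun β => ∑ i, β i ≤ m

theorem mem_Fam {α β : Fin l → ℕ} : β ∈ Fam α m ↔ (∀ s, β s ≤ α s) ∧ ∑ i, β i ≤ m := by
  simp [Fam]

/-- The family of data attached to a composition. -/
def dat (α : Fin l → ℕ) (hα : ∑ i, α i = n) (m : ℕ) (β : Fam α m) : Datum m n where
  c := fun i => ps β.1 (blk α i.val + 1)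
  k := ∑ i, β.1 i
  η := fun r => ⟨eta α β.1 r.val,
    (eta_lt (mem_Fam.1 β.2).1 r.2).trans_le ((ps_le _ _).trans hα.le)⟩
  hk := (mem_Fam.1 β.2).2
  hc := fun _ => ps_le _ _
  mono := fun r r' h => by
    have h0 : r.val < r'.val := h
    show eta α β.1 r.val < eta α β.1 r'.val
    rcases (blk_mono β.1 h0.le).eq_or_lt with h1 | h1
    · have h2 := ps_blk_le β.1 r.val
      unfold eta
      rw [← h1]
      omega
    · by_contra h2
      have h3 := blk_mono α (not_lt.1 h2)
      rw [blk_eta (mem_Fam.1 β.2).1 r.2, blk_eta (mem_Fam.1 β.2).1 r'.2] at h3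
      omega
  lt := fun r => by
    show r.val < ps β.1 (blk α (eta α β.1 r.val) + 1)
    rw [blk_eta (mem_Fam.1 β.2).1 r.2]
    exact lt_ps_blk _ r.2
  min := fun i r h => by
    show ps β.1 (blk α (eta α β.1 r.val) + 1) ≤ _
    rw [blk_eta (mem_Fam.1 β.2).1 r.2]
    exact ps_mono _ (Nat.succ_le_succ (blk_le_of_lt (hα ▸ i.2) h))

theorem dat_c (α : Fin l → ℕ) (hα : ∑ i, α i = n) (β : Fam α m) (i : Fin n) :
    (dat α hα m β).c i = ps β.1 (blk α i.val + 1) := rfl

theorem dat_κ (α : Fin l → ℕ) (hα : ∑ i, α i = n) (β : Fam α m) (r : Fin m) :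
    (dat α hα m β).L.κ r = if r.val < ∑ i, β.1 i then ps β.1 (blk β.1 r.val + 1) else m := by
  show (if h : r.val < ∑ i, β.1 i then ps β.1 (blk α (eta α β.1 r.val) + 1) else m) = _
  split_ifs with h
  · rw [blk_eta (mem_Fam.1 β.2).1 h]
  · rfl

theorem good_dat (α : Fin l → ℕ) (hα : ∑ i, α i = n) (m : ℕ) : Good (dat α hα m) where
  inj := fun β β' h => by
    have key : ∀ s ≤ l, ps β.1 s = ps β'.1 s := by
      intro s
      induction s with
      | zero => intro _; rw [ps_zero, ps_zero]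
      | succ s ih =>
        intro hs
        by_cases h1 : α ⟨s, hs⟩ = 0
        · have h2 := (mem_Fam.1 β.2).1 ⟨s, hs⟩
          have h3 := (mem_Fam.1 β'.2).1 ⟨s, hs⟩
          rw [ps_succ _ hs, ps_succ _ hs, ih (by omega)]
          omega
        · have h2 : ps α s < ps α (s + 1) := by rw [ps_succ _ hs]; omega
          have h3 := congrFun h ⟨ps α s, h2.trans_le ((ps_le _ _).trans hα.le)⟩
          rwa [dat_c, dat_c, blk_eq α hs le_rfl h2] at h3
    refine Subtype.ext (funext fun s => ?_)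
    have h1 := key (s.val + 1) s.2
    rw [ps_succ _ s.2, ps_succ _ s.2, key s.val s.2.le] at h1
    exact Nat.add_left_cancel h1
  comp := fun β β' i r h => by
    show ps β'.1 (blk α (eta α β.1 r.val) + 1) ≤ _
    rw [blk_eta (mem_Fam.1 β.2).1 r.2]
    exact ps_mono _ (Nat.succ_le_succ (blk_le_of_lt (hα ▸ i.2) h))

section Borel

theorem sum_one (n : ℕ) : ∑ _i : Fin n, 1 = n := by simp

theorem blk_one {i : ℕ} (hi : i < n) : blk (fun _ : Fin n => 1) i = i := by
  have h1 : ∀ s ≤ n, ps (fun _ : Fin n => 1) s = s := by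
    intro s
    induction s with
    | zero => intro _; exact ps_zero _
    | succ s ih => intro hs; rw [ps_succ _ hs, ih (by omega)]
  exact blk_eq _ hi (h1 i hi.le).le (by rw [h1 _ hi]; omega)

theorem finrank_MT_borel (β : Fam (fun _ : Fin n => 1) m) :
    Module.finrank F (MT F m (dat _ (sum_one n) m β).L.S) =
      PP (Fintype.card F) m (∑ i, β.1 i) := by
  have hq : 0 < Fintype.card F := Fintype.card_pos
  have h1 := finrank_MT_mul (F := F) (dat _ (sum_one n) m β).L
  have h2 : PP (Fintype.card F) m (∑ i, β.1 i) =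
      ∏ r : Fin m, if r.val < ∑ i, β.1 i then gs (Fintype.card F) (m - r.val) else 1 := by
    rw [Fin.prod_univ_eq_prod_range
      (fun r => if r < ∑ i, β.1 i then gs (Fintype.card F) (m - r) else 1) m, ← Finset.prod_filter]
    unfold PP
    congr 1
    ext r
    have := (mem_Fam.1 β.2).2
    simp only [Finset.mem_range, Finset.mem_filter]
    omega
  refine Nat.eq_of_mul_eq_mul_left (Finset.prod_pos fun r _ => nn_pos (F := F) _ r) (h1.trans ?_)
  rw [h2, ← Finset.prod_mul_distrib]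
  refine Finset.prod_congr rfl fun r _ => ?_
  unfold nn
  rw [dat_κ]
  split_ifs with h
  · have h3 := lt_ps_blk β.1 h
    have h4 := ps_blk_le β.1 r.val
    have h5 := (mem_Fam.1 β.2).1 ⟨_, blk_lt β.1 h⟩
    have h6 := ps_succ β.1 (blk_lt β.1 h)
    have h7 : ps β.1 (blk β.1 r.val + 1) = r.val + 1 := by omega
    have h8 : Fintype.card F ^ m = Fintype.card F ^ r.val * Fintype.card F ^ (m - r.val) := by
      rw [← pow_add, Nat.add_sub_cancel' r.2.le]
    rw [h7, h8, ← gs_mul hq (m - r.val), pow_succ, ← Nat.mul_sub_one, ← Nat.mul_sub_one,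
      Nat.add_sub_cancel, mul_assoc]
  · rw [mul_one]

theorem sum_PP (q : ℕ) : ∑ β : Fam (fun _ : Fin n => 1) m, PP q m (∑ i, β.1 i) =
    ∑ β ∈ Fintype.piFinset fun _ : Fin n => range 2, PP q m (∑ i, β i) := by
  rw [Finset.sum_coe_sort (Fam (fun _ : Fin n => 1) m) fun β => PP q m (∑ i, β i)]
  refine Finset.sum_filter_of_ne fun β _ h => ?_
  by_contra h1
  exact h (Finset.prod_eq_zero (Finset.mem_range.2 (not_le.1 h1)) (by simp [gs]))

theorem act_Mtv (i j : Fin n) (c : F) : act (1 + Matrix.single i j c) = tv i j c := by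
  refine MvPolynomial.algHom_ext fun k => ?_
  rw [tv_X, act, aeval_X]
  simp only [Matrix.add_apply, map_add, add_mul, Finset.sum_add_distrib, Matrix.one_apply,
    Matrix.single_apply]
  rw [Finset.sum_eq_single k (fun a _ ha => by simp [ha]) (by simp),
    Finset.sum_eq_single i (fun a _ ha => by simp [ha.symm]) (by simp)]
  by_cases h : k = j
  · simp [h]
  · simp [h, Ne.symm h]

theorem Mtv_le {i j : Fin n} (c : F) (h : i ≤ j) (a b : Fin n)
    (hab : (1 + Matrix.single i j c : Matrix (Fin n) (Fin n) F) a b ≠ 0) : a ≤ b := by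
  by_contra h1
  refine hab ?_
  rw [Matrix.add_apply, Matrix.one_apply_ne (fun h => h1 h.le), Matrix.single_apply, if_neg,
    add_zero]
  rintro ⟨rfl, rfl⟩
  exact h1 h

theorem Mtv_det {i j : Fin n} {c : F} (h : i ≤ j) (hc : i = j → 1 + c ≠ 0) :
    IsUnit (1 + Matrix.single i j c : Matrix (Fin n) (Fin n) F).det := by
  rw [Matrix.det_of_isUpperTriangular, isUnit_iff_ne_zero, Finset.prod_ne_zero_iff]
  · intro a _
    rw [Matrix.add_apply, Matrix.one_apply_eq, Matrix.single_apply]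
    split_ifs with h1
    · exact hc (h1.1.trans h1.2.symm)
    · simp
  · intro a b hab
    by_contra h1
    exact absurd (Mtv_le c h a b h1) (not_le.2 hab)

theorem BR_eq (n m : ℕ) : LinearMap.range (Psi (vv F (dat _ (sum_one n) m))
    (box n (Fintype.card F ^ m))) = BR F n (Fintype.card F ^ m) := by
  refine Submodule.eq_of_le_of_finrank_le ?_ ?_
  · rintro _ ⟨μ, rfl⟩
    refine ⟨fun a ha => ?_, fun i j c h1 h2 => ?_⟩
    · rw [coeff_Psi, if_neg]
      rwa [mem_box (card_pow_pos F m)]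
    · rw [← act_Mtv]
      refine act_Psi_box _ μ _ (Mtv_det h1 h2) fun β a b hab => ?_
      exact ps_mono _ (Nat.succ_le_succ (blk_mono _ (Mtv_le c h1 a b hab)))
  · rw [finrank_range_box (good_dat _ _ m)]
    simp only [finrank_MT_borel]
    rw [sum_PP]
    exact finrank_BR_le n m

theorem mem_VV_borel {h : MvPolynomial (Fin n) F}
    (hh : ∀ M : Matrix (Fin n) (Fin n) F, IsUnit M.det → (∀ a b, M a b ≠ 0 → a ≤ b) →
      act M h - h ∈ II F n (Fintype.card F ^ m)) :
    h ∈ VV F m (Set.range fun β => (dat _ (sum_one n) m β).c) := by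
  classical
  let g : MvPolynomial (Fin n) F :=
    ∑ a ∈ h.support.filter (fun a => ¬ ∀ i, a i < Fintype.card F ^ m), monomial a (coeff a h)
  have hg : ∀ a : Fin n →₀ ℕ,
      coeff a g = if ∀ i, a i < Fintype.card F ^ m then 0 else coeff a h := by
    intro a
    simp only [g, coeff_sum, coeff_monomial, Finset.sum_ite_eq', Finset.mem_filter,
      mem_support_iff]
    by_cases h1 : ∀ i, a i < Fintype.card F ^ m
    · simp [h1]
    · by_cases h2 : coeff a h = 0 <;> simp [h1, h2]
  have h1 : g ∈ II F n (Fintype.card F ^ m) := mem_II.2 fun a ha => by rw [hg, if_pos ha]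
  have h2 : h - g ∈ BR F n (Fintype.card F ^ m) := by
    refine ⟨fun a ha => by rw [coeff_sub, hg, if_neg ha, sub_self], fun i j c h3 h4 => ?_⟩
    rw [← act_Mtv, map_sub, sub_sub_sub_comm]
    exact Ideal.sub_mem _ (hh _ (Mtv_det h3 h4) (Mtv_le c h3))
      (Ideal.sub_mem _ (act_mem_II _ h1) h1)
  rw [← BR_eq] at h2
  obtain ⟨μ, hμ⟩ := h2
  rw [← sub_add_cancel h g, ← hμ, Psi_box_eq]
  refine Submodule.add_mem _ (Submodule.mem_sup_left (Submodule.sum_mem _ fun β _ =>
    Submodule.subset_span ⟨_, ⟨β, rfl⟩, _, fun r hr => ?_, rfl⟩)) (Submodule.mem_sup_right h1)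
  show μ (Pi.single β (mk F m r)) = 0
  rw [mk_eq_zero.2 hr, Pi.single_zero, map_zero]

end Borel

section Transfer

theorem transfer_set (j : Fin n) (I : Finset (Fin n)) (hI : j ∉ I) {𝒞 : Set (Fin n → ℕ)}
    (h𝒞 : ∀ c ∈ 𝒞, ∀ i ∈ I, c i ≤ c j ∧ c j ≤ c i + 1) {h : MvPolynomial (Fin n) F}
    (hh : h ∈ VV F m 𝒞)
    (hinv : ∀ i ∈ I, ∀ t : F, act (Mt i j t) h - h ∈ II F n (Fintype.card F ^ m)) :
    h ∈ VV F m ((fun c k => if k ∈ I then c j else c k) '' 𝒞) := by
  induction I using Finset.induction_on with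
  | empty => simpa using hh
  | insert i I hi ih =>
    have hij : i ≠ j := fun h => hI (by rw [h]; exact Finset.mem_insert_self _ _)
    have hj : j ∉ I := fun h => hI (Finset.mem_insert_of_mem h)
    have h1 := ih hj (fun c hc k hk => h𝒞 c hc k (Finset.mem_insert_of_mem hk))
      fun k hk => hinv k (Finset.mem_insert_of_mem hk)
    refine VV_mono ?_ (transfer hij ?_ h1 (hinv i (Finset.mem_insert_self _ _)))
    · rintro _ ⟨_, ⟨c, hc, rfl⟩, rfl⟩
      refine ⟨c, hc, funext fun k => ?_⟩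
      by_cases hk : k = i
      · subst hk
        simp [hj]
      · simp [hk]
    · rintro _ ⟨c, hc, rfl⟩
      simp only [if_neg hi, if_neg hj]
      exact h𝒞 c hc i (Finset.mem_insert_self _ _)

/-- The families of level functions met in the iterated transfer. -/
def CS (α : Fin l → ℕ) (n m t : ℕ) : Set (Fin n → ℕ) :=
  {c | ∃ g : ℕ → ℕ, g 0 = 0 ∧ (∀ s, g s ≤ g (s + 1) ∧ g (s + 1) ≤ g s + 1) ∧ (∀ s, g s ≤ m) ∧
    ∀ i, c i = g (max (i.val + 1) (min t (ps α (blk α i.val + 1))))}

theorem Mt_ne {i j : Fin n} {t : F} {a b : Fin n} (h : Mt i j t a b ≠ 0) :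
    a = b ∨ ((a = i ∨ a = j) ∧ (b = i ∨ b = j)) := by
  unfold Mt at h
  by_cases h1 : a = i <;> by_cases h2 : a = j <;> by_cases h3 : b = i <;> by_cases h4 : b = j <;>
    by_cases h5 : a = b <;> simp_all

theorem mem_VV_parabolic (α : Fin l → ℕ) (hα : ∑ i, α i = n) {h : MvPolynomial (Fin n) F}
    (hh : ∀ M : Matrix (Fin n) (Fin n) F, IsUnit M.det →
      (∀ a b, M a b ≠ 0 → blk α a.val ≤ blk α b.val) →
      act M h - h ∈ II F n (Fintype.card F ^ m)) :
    h ∈ VV F m (Set.range fun β => (dat α hα m β).c) := by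
  classical
  have key : ∀ t ≤ n, h ∈ VV F m (CS α n m t) := by
    intro t
    induction t with
    | zero =>
      intro _
      refine VV_mono ?_ (mem_VV_borel fun M hM h1 => hh M hM fun a b hab => blk_mono _ (h1 a b hab))
      rintro _ ⟨β, rfl⟩
      refine ⟨ps β.1, ps_zero _, fun s => ⟨ps_mono _ (Nat.le_succ s), ?_⟩,
        fun s => (ps_le _ _).trans (mem_Fam.1 β.2).2, fun i => ?_⟩
      · by_cases hs : s < n
        · rw [ps_succ _ hs]
          exact Nat.add_le_add_left ((mem_Fam.1 β.2).1 _) _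
        · rw [ps_of_le _ (not_lt.1 hs), ps_of_le _ (by omega)]
          omega
      · simp [dat_c, blk_one i.2]
    | succ t ih =>
      intro ht
      let I : Finset (Fin n) := univ.filter fun i => i.val < t ∧ t < ps α (blk α i.val + 1)
      have hI : ∀ i, i ∈ I ↔ i.val < t ∧ t < ps α (blk α i.val + 1) := fun i => by simp [I]
      refine VV_mono ?_ (transfer_set ⟨t, ht⟩ I (by simp [hI]) ?_ (ih (by omega)) ?_)
      · rintro _ ⟨c, ⟨g, h1, h2, h3, h4⟩, rfl⟩
        refine ⟨g, h1, h2, h3, fun k => ?_⟩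
        simp only [hI, h4]
        split_ifs with hk
        · congr 1
          omega
        · congr 1
          omega
      · rintro c ⟨g, -, h2, -, h4⟩ i hi
        rw [hI] at hi
        have h5 : max (i.val + 1) (min t (ps α (blk α i.val + 1))) = t := by omega
        have h6 : max (t + 1) (min t (ps α (blk α t + 1))) = t + 1 := by omega
        rw [h4, h4, h5, h6]
        exact h2 t
      · intro i hi s
        rw [hI] at hi
        have h5 : blk α t = blk α i.val :=
          blk_eq α (blk_lt α (hα ▸ i.2)) ((ps_blk_le _ _).trans hi.1.le) hi.2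
        refine hh _ (Mt_det (fun h => by rw [h] at hi; exact lt_irrefl _ hi.1) s) fun a b hab => ?_
        rcases Mt_ne hab with rfl | ⟨rfl | rfl, rfl | rfl⟩
        · exact le_rfl
        · exact le_rfl
        · exact h5.ge
        · exact h5.le
        · exact le_rfl
  refine VV_mono ?_ (key n le_rfl)
  rintro c ⟨g, h1, h2, h3, h4⟩
  have h5 : ∀ x y, g x ≤ g (x + y) ∧ g (x + y) ≤ g x + y := by
    intro x y
    induction y with
    | zero => simp
    | succ y ih => have := h2 (x + y); rw [← add_assoc]; omega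
  let β : Fin l → ℕ := fun s => g (ps α (s.val + 1)) - g (ps α s.val)
  have h6 : ∀ s ≤ l, ps β s = g (ps α s) := by
    intro s
    induction s with
    | zero => intro _; rw [ps_zero, ps_zero, h1]
    | succ s ih =>
      intro hs
      have h7 := h5 (ps α s) (α ⟨s, hs⟩)
      rw [← ps_succ α hs] at h7
      rw [ps_succ β hs, ih (by omega)]
      simp only [β]
      omega
  refine ⟨⟨β, mem_Fam.2 ⟨fun s => ?_, ?_⟩⟩, funext fun i => ?_⟩
  · have h7 := h5 (ps α s.val) (α s)
    rw [← ps_succ α s.2] at h7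
    simp only [β]
    omega
  · rw [← ps_of_le β le_rfl, h6 l le_rfl]
    exact h3 _
  · have h7 := lt_ps_blk α (i.2.trans_eq hα.symm)
    have h8 := ps_le α (blk α i.val + 1)
    show ps β (blk α i.val + 1) = _
    rw [h4, h6 (blk α i.val + 1) (blk_lt α (i.2.trans_eq hα.symm))]
    congr 1
    omega

end Transfer

/-- The graded dimension of the invariants of a parabolic subgroup. -/
theorem finrank_parabolic (α : Fin l → ℕ) (hα : ∑ i, α i = n) (d : ℕ)
    (N : Submodule F (MvPolynomial (Fin n) F))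
    (hN : ∀ h, h ∈ N ↔ h.IsHomogeneous d ∧ ∀ M : Matrix (Fin n) (Fin n) F, IsUnit M.det →
      (∀ a b, M a b ≠ 0 → blk α a.val ≤ blk α b.val) →
      act M h - h ∈ II F n (Fintype.card F ^ m)) :
    Module.finrank F (N.map (Ideal.Quotient.mkₐ F (II F n (Fintype.card F ^ m))).toLinearMap) =
      ∑ β, if d ≤ gam F m (dat α hα m β).c then
        Module.finrank F (MM F m (dat α hα m β).L.S (gam F m (dat α hα m β).c - d)) else 0 := by
  classical
  refine finrank_invariants (good_dat α hα m)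
    {M | IsUnit M.det ∧ ∀ a b, M a b ≠ 0 → blk α a.val ≤ blk α b.val} (fun M hM => hM.1)
    (fun M hM β a b hab => ps_mono _ (Nat.succ_le_succ (hM.2 a b hab)))
    (fun h hh => mem_VV_parabolic α hα fun M h1 h2 => hh M ⟨h1, h2⟩) d N fun h => ?_
  rw [hN]
  exact and_congr Iff.rfl ⟨fun h M hM => h M hM.1 hM.2, fun h M h1 h2 => h M ⟨h1, h2⟩⟩

end Pool.Agent.H437Z.LRS
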