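import Pool.Agent.H437Z.LRS.Basic

/-!
The polynomial ring is free, with a basis of monomials, over the subalgebra generated by the
coefficients of the polynomials `fZ (UU k)`, `k ∈ S`.
-/

set_option autoImplicit false
set_option linter.unusedSectionVars false

namespace Pool.Agent.H437Z.LRS

open Polynomial Finset

variable {F : Type} [Field F] [Fintype F] {m : ℕ}

/-- A set of levels `S`, and for each `i` the least level `κ i` above `i`. -/
structure Levels (m : ℕ) where
  S : Set ℕ
  κ : Fin m → ℕ
  top : m ∈ S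
  mem : ∀ i, κ i ∈ S
  lt : ∀ i, i.val < κ i
  le : ∀ i, κ i ≤ m
  min : ∀ i, ∀ k ∈ S, i.val < k → κ i ≤ k

/-- The subalgebra generated by the coefficients of the polynomials `fZ (UU k)`, `k ∈ S`. -/
noncomputable def TT (F : Type) [Field F] [Fintype F] (m : ℕ) (S : Set ℕ) : Subalgebra F (RR F m) :=
  Algebra.adjoin F {r | ∃ k ∈ S, ∃ j, r = (fZ (UU F m k)).coeff j}

theorem coeff_mem_TT {S : Set ℕ} {k : ℕ} (hk : k ∈ S) (j : ℕ) :
    (fZ (UU F m k)).coeff j ∈ TT F m S :=
  Algebra.subset_adjoin ⟨k, hk, j, rfl⟩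

theorem lifts_iff {A : Subalgebra F (RR F m)} {p : (RR F m)[X]} :
    p ∈ lifts (algebraMap A (RR F m)) ↔ ∀ j, p.coeff j ∈ A := by
  rw [lifts_iff_coeff_lifts]
  refine forall_congr' fun j => ⟨?_, fun h => ⟨⟨_, h⟩, rfl⟩⟩
  rintro ⟨a, ha⟩
  rw [← ha]; exact a.2

theorem coeff_fZ_mem_of_iota {A : Subalgebra F (RR F m)} {Z : Finset (WW F m)}
    (h : ∀ v ∈ Z, iota F m v ∈ A) (j : ℕ) : (fZ Z).coeff j ∈ A := by
  revert j
  rw [← lifts_iff, lifts_iff_liftsRing]
  refine Subring.prod_mem _ fun v hv => Subring.sub_mem _ ?_ ?_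
  · rw [← lifts_iff_liftsRing]; exact X_mem_lifts _
  · rw [← lifts_iff_liftsRing]; exact C_mem_lifts _ (⟨_, h v hv⟩ : A)

open Classical in
theorem coeff_fZ_sdiff_mem {A : Subalgebra F (RR F m)} {Z Z' : Finset (WW F m)} (hZ : Z' ⊆ Z)
    (h : ∀ j, (fZ Z).coeff j ∈ A) (h' : ∀ j, (fZ Z').coeff j ∈ A) (j : ℕ) :
    (fZ (Z \ Z')).coeff j ∈ A := by
  obtain ⟨p, hp⟩ := (mem_lifts _).1 (lifts_iff.2 h)
  obtain ⟨p', hp', -, hm⟩ := lifts_and_natDegree_eq_and_monic (lifts_iff.2 h') (fZ_monic Z')
  have h1 : fZ Z = fZ Z' * fZ (Z \ Z') := by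
    unfold fZ
    rw [mul_comm, Finset.prod_sdiff hZ]
  have h2 : (p /ₘ p').map (algebraMap A (RR F m)) = fZ (Z \ Z') := by
    rw [map_divByMonic _ hm, hp, hp', h1, mul_divByMonic_cancel_left _ (fZ_monic Z')]
  revert j
  rw [← lifts_iff, ← h2]
  exact (mem_lifts _).2 ⟨_, rfl⟩

theorem coeff_GG_mem {S : Set ℕ} (hm : m ∈ S) {k : ℕ} (hk : k ∈ S) (j : ℕ) :
    (GG F m k).coeff j ∈ TT F m S := by
  unfold GG
  refine coeff_fZ_sdiff_mem (Finset.subset_univ _) (fun j => ?_) (coeff_mem_TT hk) j
  rw [← UU_top (F := F) (le_refl m)]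
  exact coeff_mem_TT hm j

/-- The bound on the exponent of the `i`-th variable. -/
def nn (F : Type) [Fintype F] (L : Levels m) (i : Fin m) : ℕ :=
  Fintype.card F ^ L.κ i - Fintype.card F ^ i.val

/-- The exponent vectors in the first `i` variables. -/
def EE (b : Fin m → ℕ) (i : ℕ) : Finset (Fin m → ℕ) :=
  Fintype.piFinset fun r => if r.val < i then range (b r) else {0}

/-- The monomial with a given exponent vector. -/
noncomputable def mono (F : Type) [Field F] (e : Fin m → ℕ) : RR F m :=
  ∏ r, MvPolynomial.X r ^ e r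

theorem mem_EE {b : Fin m → ℕ} {i : ℕ} {e : Fin m → ℕ} :
    e ∈ EE b i ↔ ∀ r : Fin m, (r.val < i → e r < b r) ∧ (i ≤ r.val → e r = 0) := by
  unfold EE
  rw [Fintype.mem_piFinset]
  refine forall_congr' fun r => ?_
  by_cases h : r.val < i
  · simp [h]
  · simp [h, not_lt.1 h]

theorem EE_zero (b : Fin m → ℕ) : EE b 0 = {0} := by
  ext e
  rw [mem_EE, Finset.mem_singleton]
  constructor
  · intro h; funext r; exact (h r).2 (Nat.zero_le _)
  · rintro rfl r; simp

theorem EE_top (b : Fin m → ℕ) : EE b m = Fintype.piFinset fun r => range (b r) := by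
  unfold EE
  congr 1
  funext r
  rw [if_pos r.2]

theorem sum_EE_succ {M : Type} [AddCommMonoid M] (b : Fin m → ℕ) (i : Fin m)
    (g : (Fin m → ℕ) → M) :
    ∑ e ∈ EE b (i.val + 1), g e =
      ∑ k ∈ range (b i), ∑ e ∈ EE b i.val, g (Function.update e i k) := by
  rw [← Finset.sum_product']
  refine Finset.sum_nbij' (fun e => (e i, Function.update e i 0))
    (fun p => Function.update p.2 i p.1) ?_ ?_ ?_ ?_ ?_
  · intro e he
    rw [mem_EE] at he
    rw [Finset.mem_product, mem_EE]
    refine ⟨Finset.mem_range.2 ((he i).1 (by omega)), fun r => ?_⟩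
    by_cases hr : r = i
    · subst hr; simp
    · have : r.val ≠ i.val := fun h => hr (Fin.ext h)
      simp only [Function.update_of_ne hr]
      exact ⟨fun h => (he r).1 (by omega), fun h => (he r).2 (by omega)⟩
  · intro p hp
    rw [Finset.mem_product, mem_EE] at hp
    rw [mem_EE]
    intro r
    by_cases hr : r = i
    · subst hr
      simp only [Function.update_self]
      exact ⟨fun _ => Finset.mem_range.1 hp.1, fun h => by omega⟩
    · have : r.val ≠ i.val := fun h => hr (Fin.ext h)
      simp only [Function.update_of_ne hr]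
      exact ⟨fun h => (hp.2 r).1 (by omega), fun h => (hp.2 r).2 (by omega)⟩
  · intro e _; simp
  · intro p hp
    rw [Finset.mem_product, mem_EE] at hp
    have := (hp.2 i).2 le_rfl
    ext
    · simp
    · simp [← this]
  · intro e _; simp

theorem mono_update {e : Fin m → ℕ} {i : Fin m} (he : e i = 0) (k : ℕ) :
    mono F (Function.update e i k) = mono F e * MvPolynomial.X i ^ k := by
  unfold mono
  rw [← Finset.mul_prod_erase univ _ (Finset.mem_univ i),
    ← Finset.mul_prod_erase univ (fun r => MvPolynomial.X r ^ e r) (Finset.mem_univ i), he]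
  simp only [Function.update_self, pow_zero, one_mul]
  rw [mul_comm]
  congr 1
  refine Finset.prod_congr rfl fun r hr => ?_
  rw [Function.update_of_ne (Finset.mem_erase.1 hr).1]

theorem mono_homog (e : Fin m → ℕ) : (mono F e).IsHomogeneous (∑ r, e r) :=
  MvPolynomial.IsHomogeneous.prod _ _ _ fun r _ => MvPolynomial.isHomogeneous_X_pow r _

open Classical in
theorem card_sdiff_UU (L : Levels m) (i : Fin m) :
    #(UU F m (L.κ i) \ UU F m i.val) = nn F L i := by
  rw [Finset.card_sdiff_of_subset (UU_mono (L.lt i).le), card_UU (L.le i), card_UU i.2.le]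
  rfl

theorem nn_pos (L : Levels m) (i : Fin m) : 0 < nn F L i :=
  Nat.sub_pos_of_lt (Nat.pow_lt_pow_right Fintype.one_lt_card (L.lt i))

/-- Spanning. -/
theorem exists_rep (L : Levels m) (r : RR F m) :
    ∃ t : (Fin m → ℕ) → RR F m, (∀ e, t e ∈ TT F m L.S) ∧
      r = ∑ e ∈ EE (nn F L) m, t e * mono F e := by
  classical
  let A : ℕ → Subalgebra F (RR F m) := fun i =>
    TT F m L.S ⊔ Algebra.adjoin F {r | ∃ j : Fin m, j.val < i ∧ r = MvPolynomial.X j}
  have hX : ∀ i, ∀ j : Fin m, j.val < i → MvPolynomial.X j ∈ A i := fun i j hj =>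
    (le_sup_right : _ ≤ A i) (Algebra.subset_adjoin ⟨j, hj, rfl⟩)
  have key : ∀ i ≤ m, ∀ r ∈ A i, ∃ t : (Fin m → ℕ) → RR F m, (∀ e, t e ∈ TT F m L.S) ∧
      r = ∑ e ∈ EE (nn F L) i, t e * mono F e := by
    intro i
    induction i with
    | zero =>
      intro _ r hr
      have h1 : A 0 ≤ TT F m L.S := sup_le le_rfl (Algebra.adjoin_le (by
        rintro _ ⟨j, hj, -⟩; omega))
      exact ⟨fun _ => r, fun _ => h1 hr, by simp [EE_zero, mono]⟩
    | succ i ih =>
      intro hi r hr
      let i' : Fin m := ⟨i, hi⟩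
      have h1 : A (i + 1) ≤ (Algebra.adjoin (A i) {(MvPolynomial.X i' : RR F m)}).restrictScalars F := by
        refine sup_le (fun t ht => ?_) (Algebra.adjoin_le ?_)
        · exact Subalgebra.algebraMap_mem (Algebra.adjoin (A i) {(MvPolynomial.X i' : RR F m)})
            (⟨t, (le_sup_left : _ ≤ A i) ht⟩ : A i)
        · rintro _ ⟨j, hj, rfl⟩
          by_cases hji : j.val < i
          · exact Subalgebra.algebraMap_mem (Algebra.adjoin (A i) {(MvPolynomial.X i' : RR F m)})
              (⟨_, hX i j hji⟩ : A i)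
          · have : j = i' := Fin.ext (by simp only [i']; omega)
            rw [this]
            exact Algebra.subset_adjoin (R := A i) rfl
      have h2 := h1 hr
      rw [Subalgebra.mem_restrictScalars, Algebra.adjoin_singleton_eq_range_aeval] at h2
      obtain ⟨p, hp⟩ := h2
      have h3 : ∀ j, (fZ (UU F m (L.κ i') \ UU F m i)).coeff j ∈ A i := by
        refine coeff_fZ_sdiff_mem (UU_mono (L.lt i').le)
          (fun j => (le_sup_left : _ ≤ A i) (coeff_mem_TT (L.mem i') j))
          (coeff_fZ_mem_of_iota fun v hv => ?_)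
        rw [iota_apply]
        refine Subalgebra.sum_mem _ fun j _ => ?_
        by_cases hj : j.val < i
        · exact Subalgebra.smul_mem _ (hX i j hj) _
        · rw [mem_UU.1 hv j (not_lt.1 hj), zero_smul]; exact Subalgebra.zero_mem _
      obtain ⟨ρ, hρ1, hρ2, hρ3⟩ :=
        lifts_and_natDegree_eq_and_monic (lifts_iff.2 h3) (fZ_monic _)
      rw [fZ_natDegree, card_sdiff_UU L i'] at hρ2
      have h4 : aeval (MvPolynomial.X i' : RR F m) ρ = 0 := by
        rw [aeval_def, ← eval_map, hρ1, ← iota_single]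
        refine eval_fZ_of_mem (Finset.mem_sdiff.2 ⟨single_mem_UU _ _ (L.lt i'), fun h => ?_⟩)
        simpa using mem_UU.1 h i' le_rfl
      have h5 : (p %ₘ ρ).natDegree < nn F L i' := by
        rw [← hρ2]
        refine natDegree_modByMonic_lt p hρ3 fun h => ?_
        rw [h, natDegree_one] at hρ2
        exact (nn_pos (F := F) L i').ne hρ2
      have h6 : r = ∑ k ∈ range (nn F L i'),
          (((p %ₘ ρ).coeff k : A i) : RR F m) * MvPolynomial.X i' ^ k := by
        have h7 : aeval (MvPolynomial.X i' : RR F m) (p %ₘ ρ) = r := by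
          rw [aeval_modByMonic_eq_self_of_root h4]; exact hp
        rw [← h7, aeval_eq_sum_range' h5]
        rfl
      choose t ht1 ht2 using fun k => ih (by omega) _ ((p %ₘ ρ).coeff k).2
      refine ⟨fun e => t (e i') (Function.update e i' 0), fun e => ht1 _ _, ?_⟩
      rw [h6, sum_EE_succ (nn F L) i']
      refine Finset.sum_congr rfl fun k _ => ?_
      rw [ht2 k, Finset.sum_mul]
      refine Finset.sum_congr rfl fun e he => ?_
      have h8 : e i' = 0 := (mem_EE.1 he i').2 le_rfl
      have h9 : Function.update e i' 0 = e := by rw [← h8, Function.update_eq_self]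
      simp only [mono_update h8, Function.update_self, Function.update_idem, h9, mul_assoc]
  refine key m le_rfl r ?_
  have : (⊤ : Subalgebra F (RR F m)) ≤ A m := by
    rw [← MvPolynomial.adjoin_range_X]
    refine Algebra.adjoin_le ?_
    rintro _ ⟨j, rfl⟩
    exact hX m j j.2
  exact this Algebra.mem_top

theorem star_TT {S : Set ℕ} (φ : WW F m →ₗ[F] WW F m)
    (h1 : ∀ k ∈ S, Set.InjOn φ (UU F m k)) (h2 : ∀ k ∈ S, ∀ v ∈ UU F m k, φ v ∈ UU F m k)
    {t : RR F m} (ht : t ∈ TT F m S) : star φ t = t := by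
  have : TT F m S ≤ AlgHom.equalizer (star φ) (AlgHom.id F _) := by
    refine Algebra.adjoin_le ?_
    rintro _ ⟨k, hk, j, rfl⟩
    exact star_coeff_fZ φ _ (h1 k hk) (h2 k hk) j
  exact this ht

theorem exists_move (L : Levels m) (i : Fin m) {w : WW F m} (hw : w ∈ UU F m (L.κ i))
    (hw' : w ∉ UU F m i.val) :
    ∃ φ : WW F m →ₗ[F] WW F m, Function.Injective φ ∧
      (∀ k ∈ L.S, ∀ v ∈ UU F m k, φ v ∈ UU F m k) ∧ φ (Pi.single i 1) = w ∧
      ∀ r : Fin m, r.val < i.val → φ (Pi.single r 1) = Pi.single r 1 := by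
  classical
  rw [mem_UU] at hw'
  push Not at hw'
  obtain ⟨j, hij, hj⟩ := hw'
  have hjκ : j.val < L.κ i := by
    by_contra h
    exact hj (mem_UU.1 hw j (not_lt.1 h))
  let σ : WW F m →ₗ[F] WW F m := LinearMap.funLeft F F (Equiv.swap i j)
  let ψ : WW F m →ₗ[F] WW F m :=
    LinearMap.id + (LinearMap.proj j : WW F m →ₗ[F] F).smulRight (w - Pi.single j 1)
  have hσ : ∀ v r, σ v r = v (Equiv.swap i j r) := fun _ _ => rfl
  have hψ : ∀ v, ψ v = v + v j • (w - Pi.single j 1) := fun _ => rfl
  refine ⟨ψ ∘ₗ σ, ?_, ?_, ?_, ?_⟩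
  · refine Function.Injective.comp (g := ψ) (f := σ) ?_ ?_
    · rw [← LinearMap.ker_eq_bot, LinearMap.ker_eq_bot']
      intro v hv
      have h1 := congrFun hv j
      rw [hψ] at h1 hv
      simp only [Pi.add_apply, Pi.smul_apply, Pi.sub_apply, Pi.single_eq_same, smul_eq_mul,
        Pi.zero_apply] at h1
      have h2 : v j * w j = 0 := by linear_combination h1
      have h3 : v j = 0 := (mul_eq_zero.1 h2).resolve_right hj
      rwa [h3, zero_smul, add_zero] at hv
    · exact LinearMap.funLeft_injective_of_surjective F F _ (Equiv.swap i j).surjective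
  · intro k hk v hv
    rw [LinearMap.comp_apply, hψ]
    by_cases hik : i.val < k
    · have h1 := L.min i k hk hik
      have h2 : σ v ∈ UU F m k := by
        refine mem_UU.2 fun r hr => ?_
        rw [hσ, Equiv.swap_apply_of_ne_of_ne (fun h => by rw [h] at hr; omega)
          (fun h => by rw [h] at hr; omega)]
        exact mem_UU.1 hv r hr
      exact add_mem_UU h2 (smul_mem_UU _ (sub_mem_UU (UU_mono h1 hw)
        (single_mem_UU _ _ (by omega))))
    · have h1 : v i = 0 := mem_UU.1 hv i (not_lt.1 hik)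
      have h2 : v j = 0 := mem_UU.1 hv j (by omega)
      have h3 : σ v = v := by
        funext r
        rw [hσ]
        by_cases hri : r = i
        · rw [hri, Equiv.swap_apply_left, h1, h2]
        · by_cases hrj : r = j
          · rw [hrj, Equiv.swap_apply_right, h1, h2]
          · rw [Equiv.swap_apply_of_ne_of_ne hri hrj]
      rw [h3, h2, zero_smul, add_zero]
      exact hv
  · have h1 : σ (Pi.single i 1) = Pi.single j 1 := by
      funext r
      rw [hσ]
      by_cases hrj : r = j
      · rw [hrj, Equiv.swap_apply_right]; simp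
      · rw [Pi.single_eq_of_ne hrj, Pi.single_eq_of_ne]
        intro h
        apply hrj
        have h2 := congrArg (Equiv.swap i j) h
        rwa [Equiv.swap_apply_self, Equiv.swap_apply_left] at h2
    rw [LinearMap.comp_apply, h1, hψ]
    simp
  · intro r hr
    have hri : r ≠ i := fun h => by rw [h] at hr; omega
    have hrj : r ≠ j := fun h => by rw [h] at hr; omega
    have h1 : σ (Pi.single r 1) = Pi.single r 1 := by
      funext s
      rw [hσ]
      by_cases hsi : s = i
      · rw [hsi, Equiv.swap_apply_left, Pi.single_eq_of_ne hri.symm, Pi.single_eq_of_ne hrj.symm]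
      · by_cases hsj : s = j
        · rw [hsj, Equiv.swap_apply_right, Pi.single_eq_of_ne hri.symm,
            Pi.single_eq_of_ne hrj.symm]
        · rw [Equiv.swap_apply_of_ne_of_ne hsi hsj]
    rw [LinearMap.comp_apply, h1, hψ, Pi.single_eq_of_ne hrj.symm, zero_smul, add_zero]

/-- Independence. -/
theorem rep_unique (L : Levels m) (t : (Fin m → ℕ) → RR F m) (ht : ∀ e, t e ∈ TT F m L.S)
    (h : ∑ e ∈ EE (nn F L) m, t e * mono F e = 0) : ∀ e ∈ EE (nn F L) m, t e = 0 := by
  classical
  have key : ∀ i ≤ m, ∀ t : (Fin m → ℕ) → RR F m, (∀ e, t e ∈ TT F m L.S) →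
      ∑ e ∈ EE (nn F L) i, t e * mono F e = 0 → ∀ e ∈ EE (nn F L) i, t e = 0 := by
    intro i
    induction i with
    | zero =>
      intro _ t _ h e he
      rw [EE_zero] at h he
      rw [Finset.mem_singleton.1 he]
      simpa [mono] using h
    | succ i ih =>
      intro hi t ht h
      let i' : Fin m := ⟨i, hi⟩
      let P : ℕ → RR F m := fun k => ∑ e ∈ EE (nn F L) i, t (Function.update e i' k) * mono F e
      have h1 : ∑ k ∈ range (nn F L i'), P k * MvPolynomial.X i' ^ k = 0 := by
        rw [← h, sum_EE_succ (nn F L) i']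
        refine Finset.sum_congr rfl fun k _ => ?_
        rw [Finset.sum_mul]
        refine Finset.sum_congr rfl fun e he => ?_
        rw [mono_update ((mem_EE.1 he i').2 le_rfl), mul_assoc]
      let p : (RR F m)[X] := ∑ k ∈ range (nn F L i'), monomial k (P k)
      have hp : p = 0 := by
        refine eq_zero_of_natDegree_lt_card_of_eval_eq_zero' p
          ((UU F m (L.κ i') \ UU F m i).image (iota F m)) ?_ ?_
        · intro u hu
          obtain ⟨w, hw, rfl⟩ := Finset.mem_image.1 hu
          obtain ⟨φ, hφ1, hφ2, hφ3, hφ4⟩ :=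
            exists_move L i' (Finset.mem_sdiff.1 hw).1 (Finset.mem_sdiff.1 hw).2
          have h2 := congrArg (star φ) h1
          rw [map_sum, map_zero] at h2
          rw [eval_finsetSum, ← h2]
          refine Finset.sum_congr rfl fun k _ => ?_
          rw [eval_monomial, map_mul, map_pow, star_X, hφ3]
          congr 1
          rw [map_sum]
          refine Finset.sum_congr rfl fun e he => ?_
          rw [map_mul, star_TT φ (fun _ _ => hφ1.injOn) hφ2 (ht _)]
          congr 1
          unfold mono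
          rw [map_prod]
          refine Finset.prod_congr rfl fun r _ => ?_
          by_cases hr : r.val < i
          · rw [map_pow, star_X, hφ4 r hr, iota_single]
          · rw [(mem_EE.1 he r).2 (not_lt.1 hr), pow_zero, map_one]
        · rw [Finset.card_image_of_injective _ iota_injective, card_sdiff_UU L i']
          have h3 := nn_pos (F := F) L i'
          refine lt_of_le_of_lt (natDegree_sum_le_of_forall_le (n := nn F L i' - 1) _ _
            fun k hk => (natDegree_monomial_le _).trans ?_) (by omega)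
          have := Finset.mem_range.1 hk
          omega
      intro e he
      have h4 : e i' < nn F L i' := (mem_EE.1 he i').1 (by simp [i'])
      have h5 : P (e i') = 0 := by
        have := congrArg (fun r => r.coeff (e i')) hp
        simp only [p, finsetSum_coeff, coeff_monomial, coeff_zero, Finset.sum_ite_eq',
          Finset.mem_range, h4, if_true] at this
        exact this
      have h6 : Function.update e i' 0 ∈ EE (nn F L) i := by
        rw [mem_EE] at he ⊢
        intro r
        by_cases hr : r = i'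
        · subst hr; simp [i']
        · have : r.val ≠ i := fun h => hr (Fin.ext h)
          simp only [Function.update_of_ne hr]
          exact ⟨fun h => (he r).1 (by omega), fun h => (he r).2 (by omega)⟩
      have h7 := ih (by omega) (fun e' => t (Function.update e' i' (e i'))) (fun _ => ht _) h5 _ h6
      simpa using h7
  exact key m le_rfl t ht h

end Pool.Agent.H437Z.LRS
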