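import Pool.Agent.H437Z.LRS.Hilb

/-!
The generating elements `Gam c`, their invariance, and the transfer.
-/

set_option autoImplicit false
set_option linter.unusedSectionVars false

namespace Pool.Agent.H437Z.LRS

open Finset MvPolynomial

variable {F : Type} [Field F] [Fintype F] {m n : ℕ}

/-- The ideal generated by the `N`-th powers of the variables. -/
noncomputable def II (A : Type) [CommRing A] (n N : ℕ) : Ideal (MvPolynomial (Fin n) A) :=
  Ideal.span (Set.range fun i : Fin n => (X i : MvPolynomial (Fin n) A) ^ N)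

theorem mem_II {A : Type} [CommRing A] {N : ℕ} {h : MvPolynomial (Fin n) A} :
    h ∈ II A n N ↔ ∀ a : Fin n →₀ ℕ, (∀ i, a i < N) → coeff a h = 0 := by
  have h1 : (Set.range fun i : Fin n => (X i : MvPolynomial (Fin n) A) ^ N) =
      (fun s => monomial s (1 : A)) '' (Set.range fun i : Fin n => Finsupp.single i N) := by
    rw [← Set.range_comp]
    congr 1
    funext i
    simp [X_pow_eq_monomial]
  unfold II
  rw [h1, mem_ideal_span_monomial_image]
  constructor
  · intro h2 a ha
    by_contra h3
    obtain ⟨_, ⟨i, rfl⟩, h4⟩ := h2 a (mem_support_iff.2 h3)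
    have := Finsupp.single_le_iff.1 h4
    exact absurd (ha i) (not_lt.2 this)
  · intro h2 a ha
    by_contra h3
    refine mem_support_iff.1 ha (h2 a fun i => ?_)
    by_contra h4
    exact h3 ⟨_, ⟨i, rfl⟩, Finsupp.single_le_iff.2 (not_lt.1 h4)⟩

theorem GG_natDegree_lt (k : ℕ) : (GG F m k).natDegree < Fintype.card F ^ m := by
  classical
  unfold GG
  rw [fZ_natDegree, ← card_UU (F := F) (le_refl m), UU_top le_rfl]
  refine Finset.card_lt_card ⟨Finset.subset_univ _, fun h => ?_⟩
  exact (Finset.mem_sdiff.1 (h (Finset.mem_univ 0))).2 (zero_mem_UU k)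

/-- The product of the polynomials `GG (c i)` in the variables `x i`. -/
noncomputable def Gam (F : Type) [Field F] [Fintype F] (m : ℕ) (c : Fin n → ℕ) :
    MvPolynomial (Fin n) (RR F m) :=
  ∑ g ∈ Fintype.piFinset fun _ : Fin n => range (Fintype.card F ^ m),
    monomial (Finsupp.equivFunOnFinite.symm g) (∏ i, (GG F m (c i)).coeff (g i))

theorem coeff_Gam_of_not (c : Fin n → ℕ) (a : Fin n →₀ ℕ) (h : ¬ ∀ i, a i < Fintype.card F ^ m) :
    ∏ i, (GG F m (c i)).coeff (a i) = 0 := by
  push Not at h
  obtain ⟨i, hi⟩ := h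
  exact Finset.prod_eq_zero (Finset.mem_univ i)
    (Polynomial.coeff_eq_zero_of_natDegree_lt ((GG_natDegree_lt _).trans_le hi))

theorem coeff_Gam (c : Fin n → ℕ) (a : Fin n →₀ ℕ) :
    coeff a (Gam F m c) = ∏ i, (GG F m (c i)).coeff (a i) := by
  classical
  unfold Gam
  rw [coeff_sum, Finset.sum_eq_single (⇑a)]
  · simp
  · intro g _ hg
    rw [coeff_monomial, if_neg]
    intro h
    exact hg (by rw [← h]; rfl)
  · intro h
    rw [coeff_Gam_of_not c a (by simpa using h)]
    simp

/-- Evaluation at a tuple of linear forms. -/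
noncomputable def ev (x : Fin n → WW F m) : MvPolynomial (Fin n) (RR F m) →+* RR F m :=
  eval fun i => iota F m (x i)

theorem ev_Gam' (c : Fin n → ℕ) (x : Fin n → WW F m) :
    ev x (Gam F m c) = ∏ i, (GG F m (c i)).eval (iota F m (x i)) := by
  unfold Gam ev
  simp only [Polynomial.eval_eq_sum_range' (GG_natDegree_lt (F := F) (m := m) _)]
  rw [Finset.prod_univ_sum, map_sum]
  refine Finset.sum_congr rfl fun g _ => ?_
  rw [eval_monomial, Finsupp.prod_fintype _ _ (by simp), ← Finset.prod_mul_distrib]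
  rfl

open Classical in
theorem ev_Gam (c : Fin n → ℕ) (x : Fin n → WW F m) :
    ev x (Gam F m c) = if ∀ i, x i ∈ UU F m (c i) then ∏ i, LL F m (c i) else 0 := by
  rw [ev_Gam']
  split_ifs with h
  · exact Finset.prod_congr rfl fun i _ => by rw [eval_GG, if_pos (h i)]
  · push Not at h
    obtain ⟨i, hi⟩ := h
    exact Finset.prod_eq_zero (Finset.mem_univ i) (by rw [eval_GG, if_neg hi])

/-- Applying a linear functional to all coefficients. -/
noncomputable def lam (μ : RR F m →ₗ[F] F) (h : MvPolynomial (Fin n) (RR F m)) :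
    MvPolynomial (Fin n) F :=
  ∑ a ∈ h.support, monomial a (μ (coeff a h))

theorem coeff_lam (μ : RR F m →ₗ[F] F) (h : MvPolynomial (Fin n) (RR F m)) (a : Fin n →₀ ℕ) :
    coeff a (lam μ h) = μ (coeff a h) := by
  classical
  unfold lam
  rw [coeff_sum, Finset.sum_eq_single a]
  · simp
  · intro b _ hb
    rw [coeff_monomial, if_neg hb]
  · intro ha
    rw [notMem_support_iff.1 ha]; simp

theorem lam_add (μ : RR F m →ₗ[F] F) (h h' : MvPolynomial (Fin n) (RR F m)) :
    lam μ (h + h') = lam μ h + lam μ h' := by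
  ext a; simp [coeff_lam]

theorem lam_sub (μ : RR F m →ₗ[F] F) (h h' : MvPolynomial (Fin n) (RR F m)) :
    lam μ (h - h') = lam μ h - lam μ h' := by
  ext a; simp [coeff_lam]

theorem lam_sum {ι : Type} (μ : RR F m →ₗ[F] F) (s : Finset ι)
    (h : ι → MvPolynomial (Fin n) (RR F m)) :
    lam μ (∑ i ∈ s, h i) = ∑ i ∈ s, lam μ (h i) := by
  ext a; simp [coeff_lam, coeff_sum]

theorem lam_C_mul (μ : RR F m →ₗ[F] F) (r : RR F m) (h : MvPolynomial (Fin n) (RR F m)) :
    lam μ (C r * h) = lam (μ ∘ₗ LinearMap.mulLeft F r) h := by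
  ext a; simp [coeff_lam]

theorem lam_C_mul_map (μ : RR F m →ₗ[F] F) (r : RR F m) (p : MvPolynomial (Fin n) F) :
    lam μ (C r * map (algebraMap F (RR F m)) p) = μ r • p := by
  ext a
  rw [coeff_lam, coeff_C_mul, coeff_map, mul_comm, ← Algebra.smul_def, map_smul, coeff_smul,
    smul_eq_mul, smul_eq_mul, mul_comm]

/-- The substitution given by a matrix. -/
noncomputable def act (M : Matrix (Fin n) (Fin n) F) :
    MvPolynomial (Fin n) F →ₐ[F] MvPolynomial (Fin n) F :=
  aeval fun j => ∑ i, C (M i j) * X i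

/-- The substitution given by a matrix, with coefficients in `RR`. -/
noncomputable def actR (m : ℕ) (M : Matrix (Fin n) (Fin n) F) :
    MvPolynomial (Fin n) (RR F m) →ₐ[RR F m] MvPolynomial (Fin n) (RR F m) :=
  aeval fun j => map (algebraMap F (RR F m)) (∑ i, C (M i j) * X i)

theorem lam_actR (μ : RR F m →ₗ[F] F) (M : Matrix (Fin n) (Fin n) F)
    (h : MvPolynomial (Fin n) (RR F m)) : lam μ (actR m M h) = act M (lam μ h) := by
  induction h using MvPolynomial.induction_on' with
  | monomial u r =>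
    have h1 : (monomial u r : MvPolynomial (Fin n) (RR F m)) =
        C r * map (algebraMap F (RR F m)) (monomial u 1) := by
      rw [map_monomial, map_one, C_mul_monomial, mul_one]
    have h2 : actR m M (monomial u r) =
        C r * map (algebraMap F (RR F m)) (act M (monomial u 1)) := by
      unfold actR act
      rw [aeval_monomial, aeval_monomial, map_one, one_mul, algebraMap_eq]
      congr 1
      rw [Finsupp.prod, Finsupp.prod, map_prod]
      exact Finset.prod_congr rfl fun i _ => by rw [map_pow]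
    rw [h2, lam_C_mul_map, h1, lam_C_mul_map, map_smul]
  | add p q hp hq => rw [map_add, lam_add, hp, hq, lam_add, map_add]

/-- Right multiplication of a tuple of vectors by a matrix. -/
def rmul {V : Type} [AddCommGroup V] [Module F V] (x : Fin n → V) (M : Matrix (Fin n) (Fin n) F) :
    Fin n → V := fun j => ∑ i, M i j • x i

theorem rmul_rmul {V : Type} [AddCommGroup V] [Module F V] (x : Fin n → V)
    (M M' : Matrix (Fin n) (Fin n) F) : rmul (rmul x M) M' = rmul x (M * M') := by
  funext j
  simp only [rmul, Matrix.mul_apply, Finset.smul_sum, Finset.sum_smul, smul_smul]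
  rw [Finset.sum_comm]
  exact Finset.sum_congr rfl fun i _ => Finset.sum_congr rfl fun k _ => by rw [mul_comm]

theorem rmul_one {V : Type} [AddCommGroup V] [Module F V] (x : Fin n → V) :
    rmul x (1 : Matrix (Fin n) (Fin n) F) = x := by
  funext j
  simp [rmul, Matrix.one_apply]

theorem ev_actR (x : Fin n → WW F m) (M : Matrix (Fin n) (Fin n) F)
    (h : MvPolynomial (Fin n) (RR F m)) : ev x (actR m M h) = ev (rmul x M) h := by
  have : (ev x).comp (actR m M : MvPolynomial (Fin n) (RR F m) →+* _) = ev (rmul x M) := by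
    refine MvPolynomial.ringHom_ext (fun r => ?_) fun j => ?_
    · simp [ev, actR]
    · simp [ev, actR, rmul, smul_eq_C_mul]
  exact congrArg (fun f => f h) this

theorem aeval_X_sub_C {A : Type} [CommRing A] (i : Fin n) (a : A) :
    Polynomial.aeval (X i : MvPolynomial (Fin n) A) (Polynomial.X - Polynomial.C a) =
      X i - C a := by
  simp

theorem coeff_mem_dd_of_vanish {h : MvPolynomial (Fin n) (RR F m)} (hh : ∀ x, ev x h = 0)
    (a : Fin n →₀ ℕ) (ha : ∀ i, a i < Fintype.card F ^ m) : coeff a h ∈ dd F m := by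
  classical
  obtain ⟨g, -, hg⟩ := combinatorial_nullstellensatz_exists_linearCombination
    (fun _ : Fin n => (UU F m m).image (iota F m))
    (fun _ => ⟨_, Finset.mem_image_of_mem _ (zero_mem_UU m)⟩) h (fun x hx => by
      choose y _ hy using fun i => Finset.mem_image.1 (hx i)
      have h1 := hh y
      unfold ev at h1
      rwa [funext hy] at h1)
  have h1 : map (mk F m : RR F m →+* CC F m) h ∈ II (CC F m) n (Fintype.card F ^ m) := by
    rw [hg, Finsupp.linearCombination_apply, Finsupp.sum, map_sum]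
    refine Ideal.sum_mem _ fun i _ => ?_
    rw [smul_eq_mul, map_mul]
    refine Ideal.mul_mem_left _ _ (Ideal.subset_span ⟨i, ?_⟩)
    have h2 := congrArg (Polynomial.aeval (X i : MvPolynomial (Fin n) (CC F m)))
      (map_fZ_top (F := F) (m := m))
    simp only [map_pow, Polynomial.aeval_X] at h2
    simp only
    rw [← h2, Finset.prod_image fun _ _ _ _ h => iota_injective h, fZ, Polynomial.map_prod,
      map_prod, map_prod]
    refine Finset.prod_congr rfl fun v _ => ?_
    rw [Polynomial.map_sub, Polynomial.map_X, Polynomial.map_C]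
    refine (aeval_X_sub_C i _).trans ?_
    simp
  have h2 := mem_II.1 h1 a ha
  rw [coeff_map] at h2
  exact mk_eq_zero.1 h2

theorem lam_mem_II {μ : RR F m →ₗ[F] F} (hμ : ∀ r ∈ dd F m, μ r = 0)
    {h : MvPolynomial (Fin n) (RR F m)} (hh : ∀ x, ev x h = 0) :
    lam μ h ∈ II F n (Fintype.card F ^ m) :=
  mem_II.2 fun a ha => by rw [coeff_lam]; exact hμ _ (coeff_mem_dd_of_vanish hh a ha)

theorem act_mem_II (M : Matrix (Fin n) (Fin n) F) {h : MvPolynomial (Fin n) F}
    (hh : h ∈ II F n (Fintype.card F ^ m)) : act M h ∈ II F n (Fintype.card F ^ m) := by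
  have h1 : II F n (Fintype.card F ^ m) ≤
      (II F n (Fintype.card F ^ m)).comap (act M : MvPolynomial (Fin n) F →+* _) := by
    refine Ideal.span_le.2 ?_
    rintro _ ⟨j, rfl⟩
    obtain ⟨p, hp, k, hpp, hk⟩ := FiniteField.card' F
    have := Fact.mk hpp
    simp only [SetLike.mem_coe, Ideal.mem_comap, RingHom.coe_coe, map_pow, act, aeval_X]
    rw [hk, ← pow_mul, sum_pow_char_pow]
    refine Ideal.sum_mem _ fun i _ => ?_
    rw [mul_pow]
    exact Ideal.mul_mem_left _ _ (Ideal.subset_span ⟨i, rfl⟩)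
  exact h1 hh

theorem act_Gam {μ : RR F m →ₗ[F] F} (hμ : ∀ r ∈ dd F m, μ r = 0) (c : Fin n → ℕ)
    (M : Matrix (Fin n) (Fin n) F) (hM : IsUnit M.det) (hc : ∀ i j, M i j ≠ 0 → c i ≤ c j) :
    act M (lam μ (Gam F m c)) - lam μ (Gam F m c) ∈ II F n (Fintype.card F ^ m) := by
  classical
  rw [← lam_actR, ← lam_sub]
  refine lam_mem_II hμ fun x => ?_
  rw [map_sub, ev_actR, ev_Gam, ev_Gam, sub_eq_zero]
  have h1 : Function.Injective fun x : Fin n → WW F m => rmul x M := by
    intro x y hxy
    have h2 := congrArg (fun z => rmul z M⁻¹) hxy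
    simpa only [rmul_rmul, Matrix.mul_nonsing_inv M hM, rmul_one] using h2
  let Ω : Finset (Fin n → WW F m) := univ.filter fun x => ∀ i, x i ∈ UU F m (c i)
  have h2 : ∀ x ∈ Ω, rmul x M ∈ Ω := by
    intro x hx
    simp only [Ω, Finset.mem_filter, Finset.mem_univ, true_and] at hx ⊢
    intro j
    refine sum_mem_UU fun i _ => ?_
    by_cases h : M i j = 0
    · rw [h, zero_smul]; exact zero_mem_UU _
    · exact smul_mem_UU _ (UU_mono (hc i j h) (hx i))
  refine if_congr ⟨fun h => ?_, fun h => ?_⟩ rfl rfl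
  · obtain ⟨y, hy1, hy2⟩ := Finset.surjOn_of_injOn_of_card_le (s := Ω) (t := Ω)
      (fun x => rmul x M) h2 h1.injOn le_rfl (a := rmul x M) (by simpa [Ω] using h)
    rw [← h1 hy2]
    simpa [Ω] using hy1
  · simpa [Ω] using h2 x (by simpa [Ω] using h)

/-- The span of the elements attached to a family of level functions, modulo the ideal. -/
noncomputable def VV (F : Type) [Field F] [Fintype F] (m : ℕ) (𝒞 : Set (Fin n → ℕ)) :
    Submodule F (MvPolynomial (Fin n) F) :=
  Submodule.span F {h | ∃ c ∈ 𝒞, ∃ μ : RR F m →ₗ[F] F, (∀ r ∈ dd F m, μ r = 0) ∧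
    h = lam μ (Gam F m c)} ⊔ (II F n (Fintype.card F ^ m)).restrictScalars F

theorem VV_mono {𝒞 𝒟 : Set (Fin n → ℕ)} (h : 𝒞 ⊆ 𝒟) : VV F m 𝒞 ≤ VV F m 𝒟 :=
  sup_le_sup_right (Submodule.span_mono fun _ h' => by
    obtain ⟨c, hc, hh⟩ := h'; exact ⟨c, h hc, hh⟩) _

/-- Coset representatives for a minimal parabolic subgroup. -/
def Mt (i j : Fin n) (t : F) : Matrix (Fin n) (Fin n) F := fun a b =>
  if b = i then (if a = j then 1 else 0) + (if a = i then t else 0)
  else if b = j then (if a = i then 1 else 0) else if a = b then 1 else 0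

theorem rmul_Mt {V : Type} [AddCommGroup V] [Module F V] (x : Fin n → V) (i j : Fin n) (t : F)
    (b : Fin n) :
    rmul x (Mt i j t) b = if b = i then x j + t • x i else if b = j then x i else x b := by
  unfold rmul Mt
  split_ifs <;> simp [add_smul, Finset.sum_add_distrib, ite_smul]

theorem Mt_det {i j : Fin n} (hij : i ≠ j) (t : F) : IsUnit (Mt i j t).det := by
  rw [← Matrix.isUnit_iff_isUnit_det, ← Matrix.vecMul_injective_iff_isUnit]
  intro x y hxy
  have h1 : ∀ z : Fin n → F, ∀ b, Matrix.vecMul z (Mt i j t) b = rmul z (Mt i j t) b := by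
    intro z b
    simp [Matrix.vecMul, dotProduct, rmul, mul_comm]
  have h2 : ∀ b, rmul x (Mt i j t) b = rmul y (Mt i j t) b := fun b => by
    rw [← h1, ← h1]; exact congrFun hxy b
  have hi := h2 i
  have hj := h2 j
  simp only [rmul_Mt, if_true, if_neg hij.symm] at hi hj
  funext b
  by_cases hbi : b = i
  · rw [hbi, hj]
  · by_cases hbj : b = j
    · rw [hj] at hi
      rw [hbj]; exact add_right_cancel hi
    · have hb := h2 b
      simpa only [rmul_Mt, if_neg hbi, if_neg hbj] using hb

open Classical in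
theorem count_lines {k l : ℕ} (h1 : k ≤ l) (h2 : l ≤ k + 1) (u v : WW F m) (Λ : RR F m) :
    (∑ t : F, if v + t • u ∈ UU F m k ∧ u ∈ UU F m l then Λ else 0) +
      (if u ∈ UU F m k ∧ v ∈ UU F m l then Λ else 0) =
      if u ∈ UU F m l ∧ v ∈ UU F m l then Λ else 0 := by
  by_cases hu : u ∈ UU F m k
  · have hul := UU_mono h1 hu
    have h3 : ∀ t : F, v + t • u ∈ UU F m k ↔ v ∈ UU F m k := fun t =>
      ⟨fun h => by simpa using sub_mem_UU h (smul_mem_UU t hu),
        fun h => add_mem_UU h (smul_mem_UU t hu)⟩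
    simp only [h3, hu, hul, true_and, and_true, Finset.sum_const, Finset.card_univ, nsmul_eq_mul]
    rw [← map_natCast (algebraMap F (RR F m)), FiniteField.cast_card_eq_zero, map_zero, zero_mul,
      zero_add]
  · by_cases hul : u ∈ UU F m l
    · simp only [hu, hul, false_and, true_and, and_true, if_false, add_zero]
      by_cases hv : v ∈ UU F m l
      · rw [if_pos hv]
        have h3 := hu
        rw [mem_UU] at h3
        push Not at h3
        obtain ⟨r, hr1, hr2⟩ := h3
        have hr3 : r.val < l := by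
          by_contra h
          exact hr2 (mem_UU.1 hul r (not_lt.1 h))
        have h4 : ∀ t : F, v + t • u ∈ UU F m k ↔ t = - v r / u r := by
          intro t
          constructor
          · intro h
            have h5 := mem_UU.1 h r hr1
            simp only [Pi.add_apply, Pi.smul_apply, smul_eq_mul] at h5
            field_simp
            linear_combination h5
          · rintro rfl
            refine mem_UU.2 fun s hs => ?_
            by_cases hsr : s = r
            · subst hsr
              simp only [Pi.add_apply, Pi.smul_apply, smul_eq_mul]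
              field_simp
              ring
            · have : s.val ≠ r.val := fun h => hsr (Fin.ext h)
              simp [mem_UU.1 hv s (by omega), mem_UU.1 hul s (by omega)]
        simp only [h4, Finset.sum_ite_eq', Finset.mem_univ, if_true]
      · rw [if_neg hv]
        refine Finset.sum_eq_zero fun t _ => if_neg fun h => hv ?_
        simpa using sub_mem_UU (UU_mono h1 h) (smul_mem_UU t hul)
    · simp [hu, hul]

theorem transfer_Gam {i j : Fin n} (hij : i ≠ j) (c : Fin n → ℕ) (h1 : c i ≤ c j)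
    (h2 : c j ≤ c i + 1) : ∃ r : RR F m, ∀ x,
      ev x (∑ t : F, actR m (Mt i j t) (Gam F m c) + Gam F m c -
        C r * Gam F m (Function.update c i (c j))) = 0 := by
  classical
  obtain ⟨r, hr⟩ := exists_LL_mul (F := F) (m := m) h1
  refine ⟨r, fun x => ?_⟩
  have h3 : r * ∏ k, LL F m (Function.update c i (c j) k) = ∏ k, LL F m (c k) := by
    rw [← Finset.mul_prod_erase univ _ (Finset.mem_univ i),
      ← Finset.mul_prod_erase univ (fun k => LL F m (c k)) (Finset.mem_univ i), hr,
      Function.update_self, ← mul_assoc]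
    congr 1
    exact Finset.prod_congr rfl fun k hk => by
      rw [Function.update_of_ne (Finset.mem_erase.1 hk).1]
  have h4 : ev x (C r) = r := by simp [ev]
  rw [map_sub, map_add, map_sum, map_mul, h4, sub_eq_zero]
  simp only [ev_actR, ev_Gam]
  rw [mul_ite, mul_zero, h3]
  by_cases hP : ∀ k, k ≠ i → k ≠ j → x k ∈ UU F m (c k)
  · have key : ∀ (y : Fin n → WW F m) (c' : Fin n → ℕ),
        (∀ k, k ≠ i → k ≠ j → y k = x k ∧ c' k = c k) →
        ((∀ k, y k ∈ UU F m (c' k)) ↔ y i ∈ UU F m (c' i) ∧ y j ∈ UU F m (c' j)) := by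
      intro y c' hy
      refine ⟨fun h => ⟨h i, h j⟩, fun h k => ?_⟩
      by_cases hki : k = i
      · rw [hki]; exact h.1
      · by_cases hkj : k = j
        · rw [hkj]; exact h.2
        · rw [(hy k hki hkj).1, (hy k hki hkj).2]; exact hP k hki hkj
    have k1 : ∀ t : F, (∀ k, rmul x (Mt i j t) k ∈ UU F m (c k)) ↔
        x j + t • x i ∈ UU F m (c i) ∧ x i ∈ UU F m (c j) := by
      intro t
      rw [key _ c fun k hki hkj => ⟨by rw [rmul_Mt, if_neg hki, if_neg hkj], rfl⟩, rmul_Mt,
        rmul_Mt, if_pos rfl, if_neg hij.symm, if_pos rfl]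
    have k2 := key x c fun _ _ _ => ⟨rfl, rfl⟩
    have k3 := key x (Function.update c i (c j)) fun k hki _ =>
      ⟨rfl, Function.update_of_ne hki _ _⟩
    rw [Function.update_self, Function.update_of_ne hij.symm] at k3
    simp only [k1, k2, k3]
    exact count_lines h1 h2 (x i) (x j) _
  · push Not at hP
    obtain ⟨k, hki, hkj, hk⟩ := hP
    rw [if_neg fun h => hk (h k), if_neg fun h => hk (by
      simpa [Function.update_of_ne hki] using h k), add_zero]
    refine Finset.sum_eq_zero fun t _ => if_neg fun h => hk ?_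
    have := h k
    rwa [rmul_Mt, if_neg hki, if_neg hkj] at this

theorem transfer {i j : Fin n} (hij : i ≠ j) {𝒞 : Set (Fin n → ℕ)}
    (h𝒞 : ∀ c ∈ 𝒞, c i ≤ c j ∧ c j ≤ c i + 1) {h : MvPolynomial (Fin n) F} (hh : h ∈ VV F m 𝒞)
    (hinv : ∀ t : F, act (Mt i j t) h - h ∈ II F n (Fintype.card F ^ m)) :
    h ∈ VV F m ((fun c => Function.update c i (c j)) '' 𝒞) := by
  let E : MvPolynomial (Fin n) F →ₗ[F] MvPolynomial (Fin n) F :=
    ∑ t : F, (act (Mt i j t)).toLinearMap + LinearMap.id
  have hE : ∀ g, E g = ∑ t : F, act (Mt i j t) g + g := fun g => by simp [E]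
  have h1 : VV F m 𝒞 ≤ (VV F m ((fun c => Function.update c i (c j)) '' 𝒞)).comap E := by
    refine sup_le (Submodule.span_le.2 ?_) ?_
    · rintro _ ⟨c, hc, μ, hμ, rfl⟩
      obtain ⟨r, hr⟩ := transfer_Gam (F := F) (m := m) hij c (h𝒞 c hc).1 (h𝒞 c hc).2
      have h2 := lam_mem_II hμ hr
      rw [lam_sub, lam_add, lam_sum, lam_C_mul] at h2
      simp only [lam_actR] at h2
      rw [SetLike.mem_coe, Submodule.mem_comap, hE]
      rw [← sub_add_cancel (∑ t : F, act (Mt i j t) (lam μ (Gam F m c)) + lam μ (Gam F m c))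
        (lam (μ ∘ₗ LinearMap.mulLeft F r) (Gam F m (Function.update c i (c j))))]
      refine Submodule.add_mem _ (Submodule.mem_sup_right h2)
        (Submodule.mem_sup_left (Submodule.subset_span ⟨_, ⟨c, hc, rfl⟩, _, fun s hs => ?_, rfl⟩))
      exact hμ _ (Ideal.mul_mem_left _ _ hs)
    · intro g hg
      rw [Submodule.mem_comap, hE]
      exact Submodule.mem_sup_right
        (Ideal.add_mem _ (Ideal.sum_mem _ fun t _ => act_mem_II _ hg) hg)
  have h2 := h1 hh
  rw [Submodule.mem_comap, hE] at h2
  have h3 : ∑ t : F, act (Mt i j t) h ∈ II F n (Fintype.card F ^ m) := by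
    have h4 := Ideal.sum_mem _ fun t (_ : t ∈ univ) => hinv t
    rw [Finset.sum_sub_distrib, Finset.sum_const, Finset.card_univ, ← Nat.cast_smul_eq_nsmul F,
      FiniteField.cast_card_eq_zero, zero_smul, sub_zero] at h4
    exact h4
  have h4 := Submodule.sub_mem _ h2 (Submodule.mem_sup_right h3)
  rwa [add_sub_cancel_left] at h4

end Pool.Agent.H437Z.LRS
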