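import Pool.Agent.H437Z.LRS.Free

/-!
The coinvariant algebra and the Hilbert series of the images of the subalgebras `TT`.
-/

set_option autoImplicit false
set_option linter.unusedSectionVars false

namespace Pool.Agent.H437Z.LRS

open Polynomial Finset

variable {F : Type} [Field F] [Fintype F] {m : ℕ}

/-- The ideal generated by the non-leading coefficients of the product of all `X - v`. -/
noncomputable def dd (F : Type) [Field F] [Fintype F] (m : ℕ) : Ideal (RR F m) :=
  Ideal.span {r | ∃ j < Fintype.card F ^ m, r = (fZ (UU F m m)).coeff j}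

/-- The coinvariant algebra. -/
abbrev CC (F : Type) [Field F] [Fintype F] (m : ℕ) := RR F m ⧸ dd F m

/-- The quotient map. -/
noncomputable def mk (F : Type) [Field F] [Fintype F] (m : ℕ) : RR F m →ₐ[F] CC F m :=
  Ideal.Quotient.mkₐ F (dd F m)

theorem mk_eq_zero {r : RR F m} : mk F m r = 0 ↔ r ∈ dd F m := Ideal.Quotient.eq_zero_iff_mem

theorem mk_surjective : Function.Surjective (mk F m) := Ideal.Quotient.mkₐ_surjective F _

theorem coeff_mem_dd {j : ℕ} (hj : j < Fintype.card F ^ m) :
    (fZ (UU F m m)).coeff j ∈ dd F m := Ideal.subset_span ⟨j, hj, rfl⟩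

theorem map_fZ_top : (fZ (UU F m m)).map (mk F m : RR F m →+* CC F m) =
    X ^ (Fintype.card F ^ m) := by
  ext j
  rw [coeff_map, coeff_X_pow]
  have hd : (fZ (UU F m m)).natDegree = Fintype.card F ^ m := by
    rw [fZ_natDegree, card_UU le_rfl]
  split_ifs with h
  · rw [h, ← hd, (fZ_monic _).coeff_natDegree, map_one]
  · rcases lt_or_gt_of_ne h with h | h
    · exact mk_eq_zero.2 (coeff_mem_dd h)
    · rw [coeff_eq_zero_of_natDegree_lt (by omega), map_zero]

theorem comp_mem_of_span {N : Submodule F (RR F m)} {r : RR F m}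
    (hr : r ∈ Submodule.span F {s | s ∈ N ∧ ∃ j, s.IsHomogeneous j}) (d : ℕ) :
    MvPolynomial.homogeneousComponent d r ∈ N := by
  induction hr using Submodule.span_induction with
  | mem s hs =>
    obtain ⟨h1, j, h2⟩ := hs
    rw [MvPolynomial.homogeneousComponent_of_mem h2]
    split_ifs
    · exact h1
    · exact N.zero_mem
  | zero => rw [map_zero]; exact N.zero_mem
  | add x y _ _ hx hy => rw [map_add]; exact N.add_mem hx hy
  | smul c x _ hx => rw [map_smul]; exact N.smul_mem c hx

theorem comp_mem_TT {S : Set ℕ} {r : RR F m} (hr : r ∈ TT F m S) (d : ℕ) :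
    MvPolynomial.homogeneousComponent d r ∈ TT F m S := by
  refine comp_mem_of_span (N := Subalgebra.toSubmodule (TT F m S)) ?_ d
  induction hr using Algebra.adjoin_induction with
  | mem s hs =>
    obtain ⟨k, hk, j, rfl⟩ := hs
    exact Submodule.subset_span ⟨coeff_mem_TT hk j, _, fZ_coeff_homog' _ j⟩
  | algebraMap c =>
    exact Submodule.subset_span ⟨Subalgebra.algebraMap_mem _ c, 0, MvPolynomial.isHomogeneous_C _ c⟩
  | add x y _ _ hx hy => exact Submodule.add_mem _ hx hy
  | mul x y _ _ hx hy =>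
    have h1 := Submodule.mul_mem_mul hx hy
    rw [Submodule.span_mul_span] at h1
    refine Submodule.span_mono ?_ h1
    rintro _ ⟨a, ⟨ha, i, hi⟩, b, ⟨hb, j, hj⟩, rfl⟩
    exact ⟨Subalgebra.mul_mem _ ha hb, _, hi.mul hj⟩

theorem comp_mem_dd {r : RR F m} (hr : r ∈ dd F m) (d : ℕ) :
    MvPolynomial.homogeneousComponent d r ∈ dd F m := by
  refine comp_mem_of_span (N := (dd F m).restrictScalars F) ?_ d
  have key : ∀ s : RR F m, s * r ∈ Submodule.span F
      {s | s ∈ (dd F m).restrictScalars F ∧ ∃ j, s.IsHomogeneous j} := by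
    induction hr using Submodule.span_induction with
    | mem g hg =>
      obtain ⟨j, hj, rfl⟩ := hg
      intro s
      rw [← MvPolynomial.sum_homogeneousComponent s, Finset.sum_mul]
      refine Submodule.sum_mem _ fun i _ => Submodule.subset_span
        ⟨Ideal.mul_mem_left _ _ (coeff_mem_dd hj), _,
          (MvPolynomial.homogeneousComponent_isHomogeneous i s).mul (fZ_coeff_homog' _ j)⟩
    | zero => intro s; rw [mul_zero]; exact Submodule.zero_mem _
    | add x y _ _ hx hy => intro s; rw [mul_add]; exact Submodule.add_mem _ (hx s) (hy s)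
    | smul c x _ hx => intro s; rw [smul_eq_mul, ← mul_assoc]; exact hx _
  simpa using key 1

theorem comp_mul_homog (t : RR F m) {s : RR F m} {k : ℕ} (hs : s.IsHomogeneous k) (d : ℕ) :
    MvPolynomial.homogeneousComponent d (t * s) =
      if k ≤ d then MvPolynomial.homogeneousComponent (d - k) t * s else 0 := by
  classical
  induction t using MvPolynomial.induction_on' with
  | monomial u a =>
    have h1 := MvPolynomial.isHomogeneous_monomial (d := u) a rfl
    rw [MvPolynomial.homogeneousComponent_of_mem (h1.mul hs),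
      MvPolynomial.homogeneousComponent_of_mem h1]
    split_ifs with h2 h3 h4 h5 h6
    · rfl
    · omega
    · omega
    · omega
    · rw [zero_mul]
    · rfl
  | add p q hp hq =>
    rw [add_mul, map_add, hp, hq, map_add]
    split_ifs
    · rw [add_mul]
    · rw [add_zero]

theorem exists_rep_dd (L : Levels m) {r : RR F m} (hr : r ∈ dd F m) :
    ∃ t : (Fin m → ℕ) → RR F m, (∀ e, t e ∈ TT F m L.S ∧ t e ∈ dd F m) ∧
      r = ∑ e ∈ EE (nn F L) m, t e * mono F e := by
  have key : ∀ s : RR F m, ∃ t : (Fin m → ℕ) → RR F m,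
      (∀ e, t e ∈ TT F m L.S ∧ t e ∈ dd F m) ∧
      s * r = ∑ e ∈ EE (nn F L) m, t e * mono F e := by
    induction hr using Submodule.span_induction with
    | mem g hg =>
      obtain ⟨j, hj, rfl⟩ := hg
      intro s
      obtain ⟨t, ht1, ht2⟩ := exists_rep L s
      refine ⟨fun e => t e * (fZ (UU F m m)).coeff j, fun e =>
        ⟨Subalgebra.mul_mem _ (ht1 e) (coeff_mem_TT L.top j),
          Ideal.mul_mem_left _ _ (coeff_mem_dd hj)⟩, ?_⟩
      rw [ht2, Finset.sum_mul]
      exact Finset.sum_congr rfl fun e _ => by ring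
    | zero =>
      intro s
      exact ⟨fun _ => 0, fun _ => ⟨Subalgebra.zero_mem _, Ideal.zero_mem _⟩, by simp⟩
    | add x y _ _ hx hy =>
      intro s
      obtain ⟨t, ht1, ht2⟩ := hx s
      obtain ⟨t', ht1', ht2'⟩ := hy s
      refine ⟨fun e => t e + t' e, fun e => ⟨Subalgebra.add_mem _ (ht1 e).1 (ht1' e).1,
        Ideal.add_mem _ (ht1 e).2 (ht1' e).2⟩, ?_⟩
      rw [mul_add, ht2, ht2', ← Finset.sum_add_distrib]
      exact Finset.sum_congr rfl fun e _ => by ring
    | smul c x _ hx => intro s; rw [smul_eq_mul, ← mul_assoc]; exact hx _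
  simpa using key 1

theorem mem_dd_of_sum (L : Levels m) (t : (Fin m → ℕ) → RR F m) (ht : ∀ e, t e ∈ TT F m L.S)
    (h : ∑ e ∈ EE (nn F L) m, t e * mono F e ∈ dd F m) :
    ∀ e ∈ EE (nn F L) m, t e ∈ dd F m := by
  obtain ⟨t', h1, h2⟩ := exists_rep_dd L h
  intro e he
  have h3 := rep_unique L (fun e => t e - t' e) (fun e => Subalgebra.sub_mem _ (ht e) (h1 e).1)
    (by simp only [sub_mul, Finset.sum_sub_distrib]; rw [h2, sub_self]) e he
  rw [sub_eq_zero.1 h3]
  exact (h1 e).2

/-- The image of `TT` in the coinvariant algebra. -/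
noncomputable def MT (F : Type) [Field F] [Fintype F] (m : ℕ) (S : Set ℕ) : Submodule F (CC F m) :=
  (Subalgebra.toSubmodule (TT F m S)).map (mk F m).toLinearMap

/-- The homogeneous parts of the image of `TT` in the coinvariant algebra. -/
noncomputable def MM (F : Type) [Field F] [Fintype F] (m : ℕ) (S : Set ℕ) (j : ℕ) :
    Submodule F (CC F m) :=
  (Subalgebra.toSubmodule (TT F m S) ⊓ MvPolynomial.homogeneousSubmodule (Fin m) F j).map
    (mk F m).toLinearMap

theorem MM_le (S : Set ℕ) (j : ℕ) : MM F m S j ≤ MT F m S := Submodule.map_mono inf_le_left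

/-- The levels with `m` as only level. -/
def L0 (m : ℕ) : Levels m where
  S := {m}
  κ := fun _ => m
  top := rfl
  mem := fun _ => rfl
  lt := fun i => i.2
  le := fun _ => le_rfl
  min := fun _ _ hk _ => (Set.mem_singleton_iff.1 hk).ge

theorem exists_sub_mem_dd {S : Set ℕ} {t : RR F m} (ht : t ∈ TT F m (insert m S)) :
    ∃ t' ∈ TT F m S, t - t' ∈ dd F m := by
  induction ht using Algebra.adjoin_induction with
  | mem s hs =>
    obtain ⟨k, hk, j, rfl⟩ := hs
    rcases hk with rfl | hk
    · have h1 := congrArg (fun p => p.coeff j) (map_fZ_top (F := F) (m := k))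
      simp only [coeff_map, coeff_X_pow] at h1
      split_ifs at h1 with h2
      · refine ⟨1, Subalgebra.one_mem _, mk_eq_zero.1 ?_⟩
        rw [map_sub, map_one, sub_eq_zero]; exact h1
      · refine ⟨0, Subalgebra.zero_mem _, mk_eq_zero.1 ?_⟩
        rw [sub_zero]; exact h1
    · exact ⟨_, coeff_mem_TT hk j, by simp⟩
  | algebraMap c => exact ⟨_, Subalgebra.algebraMap_mem _ c, by simp⟩
  | add x y _ _ hx hy =>
    obtain ⟨x', h1, h2⟩ := hx
    obtain ⟨y', h3, h4⟩ := hy
    refine ⟨x' + y', Subalgebra.add_mem _ h1 h3, ?_⟩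
    have := Ideal.add_mem _ h2 h4
    convert this using 1; ring
  | mul x y _ _ hx hy =>
    obtain ⟨x', h1, h2⟩ := hx
    obtain ⟨y', h3, h4⟩ := hy
    refine ⟨x' * y', Subalgebra.mul_mem _ h1 h3, ?_⟩
    have := Ideal.add_mem _ (Ideal.mul_mem_right y _ h2) (Ideal.mul_mem_left _ x' h4)
    convert this using 1; ring

theorem exists_sub_C {t : RR F m} (ht : t ∈ TT F m {m}) :
    ∃ c : F, t - MvPolynomial.C c ∈ dd F m := by
  have h1 : t ∈ TT F m (insert m ∅) := by simpa using ht
  obtain ⟨t', h2, h3⟩ := exists_sub_mem_dd h1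
  have h4 : TT F m ∅ = ⊥ := by simp [TT]
  rw [h4, Algebra.mem_bot] at h2
  obtain ⟨c, rfl⟩ := h2
  exact ⟨c, h3⟩

theorem mk_one_ne_zero : mk F m 1 ≠ 0 := by
  rw [Ne, mk_eq_zero]
  intro h
  have h1 : dd F m ≤ RingHom.ker (MvPolynomial.constantCoeff) := by
    refine Ideal.span_le.2 ?_
    rintro _ ⟨j, hj, rfl⟩
    have h2 := fZ_coeff_homog' (UU F m m) j
    rw [card_UU le_rfl] at h2
    exact h2.coeff_eq_zero (d := 0) (by simp only [map_zero]; omega)
  simpa using h1 h

theorem MT_zero : MT F m {m} = Submodule.span F {mk F m 1} := by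
  apply le_antisymm
  · rintro _ ⟨t, ht, rfl⟩
    obtain ⟨c, hc⟩ := exists_sub_C ht
    rw [Submodule.mem_span_singleton]
    refine ⟨c, ?_⟩
    have h1 := mk_eq_zero.2 hc
    rw [map_sub, sub_eq_zero] at h1
    show _ = mk F m t
    rw [h1, ← map_smul, MvPolynomial.smul_eq_C_mul, mul_one]
  · rw [Submodule.span_le, Set.singleton_subset_iff]
    exact ⟨1, Subalgebra.one_mem _, rfl⟩

instance : Module.Finite F (CC F m) := by
  classical
  refine ⟨⟨(EE (nn F (L0 m)) m).image fun e => mk F m (mono F e), ?_⟩⟩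
  rw [eq_top_iff]
  intro x _
  obtain ⟨r, rfl⟩ := mk_surjective x
  obtain ⟨t, h1, rfl⟩ := exists_rep (L0 m) r
  rw [map_sum]
  refine Submodule.sum_mem _ fun e he => ?_
  obtain ⟨c, hc⟩ := exists_sub_C (h1 e)
  have h2 := mk_eq_zero.2 hc
  rw [map_sub, sub_eq_zero] at h2
  rw [map_mul, h2, ← map_mul, ← MvPolynomial.smul_eq_C_mul, map_smul]
  exact Submodule.smul_mem _ _ (Submodule.subset_span (by
    simp only [Finset.coe_image]; exact ⟨e, he, rfl⟩))

theorem finrank_MM_zero (j : ℕ) : Module.finrank F (MM F m {m} j) = if j = 0 then 1 else 0 := by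
  split_ifs with h
  · have h1 : MM F m {m} j = Submodule.span F {mk F m 1} := by
      apply le_antisymm ((MM_le _ _).trans MT_zero.le)
      rw [Submodule.span_le, Set.singleton_subset_iff]
      exact ⟨1, ⟨Subalgebra.one_mem _, by rw [h]; exact MvPolynomial.isHomogeneous_one _ _⟩, rfl⟩
    rw [h1, finrank_span_singleton mk_one_ne_zero]
  · rw [Submodule.finrank_eq_zero, eq_bot_iff]
    rintro _ ⟨t, ⟨ht1, ht2⟩, rfl⟩
    obtain ⟨c, hc⟩ := exists_sub_C ht1
    have h1 := comp_mem_dd hc j
    rw [map_sub, MvPolynomial.homogeneousComponent_eq_self ht2,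
      MvPolynomial.homogeneousComponent_of_mem (MvPolynomial.isHomogeneous_C _ c), if_neg h,
      sub_zero] at h1
    exact mk_eq_zero.2 h1

/-- The linear map given by the monomial basis. -/
noncomputable def Xi (L : Levels m) (N : (Fin m → ℕ) → Submodule F (CC F m)) :
    (∀ e : EE (nn F L) m, N e) →ₗ[F] CC F m :=
  ∑ e : EE (nn F L) m, (LinearMap.mulRight F (mk F m (mono F e.1))) ∘ₗ (N e).subtype ∘ₗ
    LinearMap.proj e

theorem Xi_apply (L : Levels m) (N : (Fin m → ℕ) → Submodule F (CC F m))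
    (x : ∀ e : EE (nn F L) m, N e) :
    Xi L N x = ∑ e : EE (nn F L) m, (x e : CC F m) * mk F m (mono F e.1) := by
  simp [Xi]

theorem finrank_range_Xi (L : Levels m) (N : (Fin m → ℕ) → Submodule F (CC F m))
    (hN : ∀ e, N e ≤ MT F m L.S) :
    Module.finrank F (LinearMap.range (Xi L N)) =
      ∑ e ∈ EE (nn F L) m, Module.finrank F (N e) := by
  classical
  have h1 : Function.Injective (Xi L N) := by
    rw [← LinearMap.ker_eq_bot, LinearMap.ker_eq_bot']
    intro x hx
    have h2 : ∀ e : Fin m → ℕ, ∃ t ∈ TT F m L.S,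
        ∀ he : e ∈ EE (nn F L) m, mk F m t = x ⟨e, he⟩ := by
      intro e
      by_cases he : e ∈ EE (nn F L) m
      · obtain ⟨t, ht1, ht2⟩ := hN e (x ⟨e, he⟩).2
        exact ⟨t, ht1, fun _ => ht2⟩
      · exact ⟨0, Subalgebra.zero_mem _, fun h => absurd h he⟩
    choose t ht1 ht2 using h2
    have h3 : ∑ e ∈ EE (nn F L) m, t e * mono F e ∈ dd F m := by
      rw [← mk_eq_zero, ← hx, Xi_apply, map_sum, ← Finset.sum_coe_sort]
      refine Finset.sum_congr rfl fun e _ => ?_
      rw [map_mul, ht2 e.1 e.2]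
    funext e
    have h4 := mk_eq_zero.2 (mem_dd_of_sum L t ht1 h3 e.1 e.2)
    rw [ht2 e.1 e.2] at h4
    exact Subtype.ext h4
  rw [LinearMap.finrank_range_of_inj h1, Module.finrank_pi_fintype]
  exact Finset.sum_coe_sort (EE (nn F L) m) fun e => Module.finrank F (N e)

theorem finrank_total (L : Levels m) :
    Module.finrank F (CC F m) = (∏ r, nn F L r) * Module.finrank F (MT F m L.S) := by
  have h1 := finrank_range_Xi L (fun _ => MT F m L.S) fun _ => le_rfl
  have h2 : LinearMap.range (Xi L fun _ => MT F m L.S) = ⊤ := by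
    rw [eq_top_iff]
    intro x _
    obtain ⟨r, rfl⟩ := mk_surjective x
    obtain ⟨t, ht, rfl⟩ := exists_rep L r
    refine ⟨fun e => ⟨mk F m (t e), t e, ht e, rfl⟩, ?_⟩
    rw [Xi_apply, map_sum, ← Finset.sum_coe_sort (EE (nn F L) m)]
    simp
  rw [h2, finrank_top, Finset.sum_const, EE_top, Fintype.card_piFinset] at h1
  simpa using h1

theorem finrank_MT_mul (L : Levels m) :
    (∏ r, nn F L r) * Module.finrank F (MT F m L.S) =
      ∏ r : Fin m, (Fintype.card F ^ m - Fintype.card F ^ r.val) := by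
  rw [← finrank_total L, finrank_total (L0 m)]
  have h1 : Module.finrank F (MT F m (L0 m).S) = 1 := by
    show Module.finrank F (MT F m {m}) = 1
    rw [MT_zero, finrank_span_singleton mk_one_ne_zero]
  rw [h1, mul_one]
  rfl

theorem finrank_graded (L : Levels m) (d : ℕ) :
    Module.finrank F ((MvPolynomial.homogeneousSubmodule (Fin m) F d).map (mk F m).toLinearMap) =
      ∑ e ∈ EE (nn F L) m,
        if ∑ r, e r ≤ d then Module.finrank F (MM F m L.S (d - ∑ r, e r)) else 0 := by
  let N : (Fin m → ℕ) → Submodule F (CC F m) := fun e =>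
    if ∑ r, e r ≤ d then MM F m L.S (d - ∑ r, e r) else ⊥
  have h1 := finrank_range_Xi L N fun e => by
    simp only [N]
    split_ifs
    · exact MM_le _ _
    · exact bot_le
  have h2 : LinearMap.range (Xi L N) =
      (MvPolynomial.homogeneousSubmodule (Fin m) F d).map (mk F m).toLinearMap := by
    apply le_antisymm
    · rintro _ ⟨x, rfl⟩
      rw [Xi_apply]
      refine Submodule.sum_mem _ fun e _ => ?_
      have h3 := (x e).2
      simp only [N] at h3
      split_ifs at h3 with h4
      · obtain ⟨t, ⟨-, ht2⟩, ht3⟩ := h3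
        refine ⟨t * mono F e.1, ?_, ?_⟩
        · have := MvPolynomial.IsHomogeneous.mul ht2 (mono_homog e.1)
          rwa [Nat.sub_add_cancel h4] at this
        · rw [← ht3]; exact map_mul (mk F m) _ _
      · rw [(Submodule.mem_bot F).1 h3, zero_mul]
        exact Submodule.zero_mem _
    · rintro _ ⟨r, hr, rfl⟩
      obtain ⟨t, ht, h3⟩ := exists_rep L r
      have h4 : ∀ e : Fin m → ℕ, (if ∑ r, e r ≤ d then
          mk F m (MvPolynomial.homogeneousComponent (d - ∑ r, e r) (t e)) else 0) ∈ N e := by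
        intro e
        simp only [N]
        split_ifs
        · exact ⟨_, ⟨comp_mem_TT (ht e) _, MvPolynomial.homogeneousComponent_mem _ _⟩, rfl⟩
        · exact Submodule.zero_mem _
      refine ⟨fun e => ⟨_, h4 e⟩, ?_⟩
      show _ = mk F m r
      rw [← MvPolynomial.homogeneousComponent_eq_self hr, h3, Xi_apply, map_sum, map_sum,
        ← Finset.sum_coe_sort (EE (nn F L) m)]
      refine Finset.sum_congr rfl fun e _ => ?_
      rw [comp_mul_homog _ (mono_homog e.1)]
      simp only
      split_ifs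
      · rw [map_mul]
      · rw [zero_mul, map_zero]
  rw [← h2, h1]
  refine Finset.sum_congr rfl fun e _ => ?_
  by_cases h : ∑ r, e r ≤ d
  · have h3 : N e = MM F m L.S (d - ∑ r, e r) := if_pos h
    rw [h3, if_pos h]
  · have h3 : N e = ⊥ := if_neg h
    rw [h3, if_neg h]
    exact finrank_bot F _

theorem sum_EE_pow (b : Fin m → ℕ) :
    (∑ e ∈ EE b m, (PowerSeries.X : PowerSeries ℚ) ^ (∑ r, e r)) * (1 - PowerSeries.X) ^ m =
      ∏ r, (1 - PowerSeries.X ^ b r) := by
  have h1 : ∑ e ∈ EE b m, (PowerSeries.X : PowerSeries ℚ) ^ (∑ r, e r) =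
      ∏ r, ∑ k ∈ range (b r), (PowerSeries.X : PowerSeries ℚ) ^ k := by
    rw [EE_top, Finset.prod_univ_sum]
    refine Finset.sum_congr rfl fun e _ => ?_
    rw [Finset.prod_pow_eq_pow_sum]
  have h2 : (1 - PowerSeries.X : PowerSeries ℚ) ^ m = ∏ _r : Fin m, (1 - PowerSeries.X) := by simp
  rw [h1, h2, ← Finset.prod_mul_distrib]
  exact Finset.prod_congr rfl fun r _ => geom_sum_mul_neg _ _

/-- The Hilbert series of the image of `TT`. -/
theorem hilbert_MM (L : Levels m) :
    (PowerSeries.mk fun j => (Module.finrank F (MM F m L.S j) : ℚ)) *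
      ∏ r, (1 - PowerSeries.X ^ nn F L r) =
      ∏ r : Fin m, (1 - PowerSeries.X ^ (Fintype.card F ^ m - Fintype.card F ^ r.val)) := by
  have key : ∀ L : Levels m, (PowerSeries.mk fun j => (Module.finrank F (MM F m L.S j) : ℚ)) *
      (∑ e ∈ EE (nn F L) m, (PowerSeries.X : PowerSeries ℚ) ^ (∑ r, e r)) =
      PowerSeries.mk fun d => (Module.finrank F
        ((MvPolynomial.homogeneousSubmodule (Fin m) F d).map (mk F m).toLinearMap) : ℚ) := by
    intro L
    ext d
    rw [PowerSeries.coeff_mk, finrank_graded L d, Finset.mul_sum, map_sum, Nat.cast_sum]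
    refine Finset.sum_congr rfl fun e _ => ?_
    rw [PowerSeries.coeff_mul_X_pow', PowerSeries.coeff_mk]
    split_ifs <;> simp
  have h1 : (PowerSeries.mk fun j => (Module.finrank F (MM F m (L0 m).S j) : ℚ)) = 1 := by
    ext j
    rw [PowerSeries.coeff_mk, PowerSeries.coeff_one]
    show (Module.finrank F (MM F m {m} j) : ℚ) = _
    rw [finrank_MM_zero]
    split_ifs <;> simp
  rw [← sum_EE_pow, ← mul_assoc, key L, ← key (L0 m), h1, one_mul, sum_EE_pow]
  rfl

end Pool.Agent.H437Z.LRS
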