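import Pool.Agent.H437Z.LRS.Test

/-!
The dimension of the span of the generating elements.
-/

set_option autoImplicit false
set_option linter.unusedSectionVars false

namespace Pool.Agent.H437Z.LRS

open Finset MvPolynomial

variable {F : Type} [Field F] [Fintype F] {m n : ℕ}

/-- The reduced exponent vectors. -/
noncomputable def box (n N : ℕ) : Finset (Fin n →₀ ℕ) := Finset.Iic (tp n N)

theorem mem_box {N : ℕ} (hN : 0 < N) {a : Fin n →₀ ℕ} : a ∈ box n N ↔ ∀ i, a i < N := by
  unfold box
  rw [Finset.mem_Iic, Finsupp.le_def]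
  refine forall_congr' fun i => ?_
  rw [tp_apply]
  omega

theorem card_pow_pos (F : Type) [Field F] [Fintype F] (m : ℕ) : 0 < Fintype.card F ^ m :=
  pow_pos Fintype.card_pos _

section Psi

variable {W : Type} [AddCommGroup W] [Module F W]

/-- The polynomial whose coefficients are the values of a functional on given vectors. -/
noncomputable def Psi (v : (Fin n →₀ ℕ) → W) (A : Finset (Fin n →₀ ℕ)) :
    Module.Dual F W →ₗ[F] MvPolynomial (Fin n) F :=
  ∑ a ∈ A, (monomial a) ∘ₗ (Module.Dual.eval F W (v a))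

open Classical in
theorem coeff_Psi (v : (Fin n →₀ ℕ) → W) (A : Finset (Fin n →₀ ℕ)) (μ : Module.Dual F W)
    (a : Fin n →₀ ℕ) : coeff a (Psi v A μ) = if a ∈ A then μ (v a) else 0 := by
  simp [Psi, coeff_sum, coeff_monomial]

theorem finrank_range_Psi [Module.Finite F W] {V : Type} [AddCommGroup V] [Module F V]
    (v : (Fin n →₀ ℕ) → W) (A : Finset (Fin n →₀ ℕ)) (g : MvPolynomial (Fin n) F →ₗ[F] V)
    (hg : ∀ μ : Module.Dual F W, g (Psi v A μ) = 0 → Psi v A μ = 0) :
    Module.finrank F (LinearMap.range (g ∘ₗ Psi v A)) =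
      Module.finrank F (Submodule.span F (v '' A)) := by
  have h1 : LinearMap.ker (g ∘ₗ Psi v A) = (Submodule.span F (v '' A)).dualAnnihilator := by
    ext μ
    rw [LinearMap.mem_ker, Submodule.mem_dualAnnihilator]
    constructor
    · intro h
      have h2 : Submodule.span F (v '' A) ≤ LinearMap.ker μ := by
        rw [Submodule.span_le]
        rintro _ ⟨a, ha, rfl⟩
        have h3 := coeff_Psi v A μ a
        rw [hg μ h, coeff_zero, if_pos (Finset.mem_coe.1 ha)] at h3
        exact h3.symm
      exact fun w hw => h2 hw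
    · intro h
      have h2 : Psi v A μ = 0 := by
        ext a
        rw [coeff_Psi, coeff_zero]
        split_ifs with ha
        · exact h _ (Submodule.subset_span ⟨a, ha, rfl⟩)
        · rfl
      rw [LinearMap.comp_apply, h2, map_zero]
  have h2 := LinearMap.finrank_range_add_finrank_ker (g ∘ₗ Psi v A)
  have h3 := Subspace.finrank_add_finrank_dualAnnihilator_eq (Submodule.span F (v '' A))
  rw [h1, Subspace.dual_finrank_eq] at h2
  omega

theorem finrank_pi_submodule [Module.Finite F W] {ι : Type} [Fintype ι] (N : ι → Submodule F W) :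
    Module.finrank F (Submodule.pi Set.univ N) = ∑ b, Module.finrank F (N b) := by
  let f : (∀ b, N b) →ₗ[F] (ι → W) := LinearMap.pi fun b => (N b).subtype ∘ₗ LinearMap.proj b
  have h1 : Function.Injective f := fun x y h => funext fun b => Subtype.ext (congrFun h b)
  have h2 : LinearMap.range f = Submodule.pi Set.univ N := by
    ext x
    rw [Submodule.mem_pi]
    constructor
    · rintro ⟨y, rfl⟩ b _
      exact (y b).2
    · intro h
      exact ⟨fun b => ⟨x b, h b trivial⟩, rfl⟩
  rw [← h2, LinearMap.finrank_range_of_inj h1, Module.finrank_pi_fintype]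

end Psi

theorem exists_proj : ∃ π : ℕ → CC F m →ₗ[F] CC F m,
    ∀ j r, π j (mk F m r) = mk F m (homogeneousComponent j r) := by
  obtain ⟨s, hs⟩ := (mk F m).toLinearMap.exists_rightInverse_of_surjective
    (LinearMap.range_eq_top.2 mk_surjective)
  refine ⟨fun j => (mk F m).toLinearMap ∘ₗ homogeneousComponent j ∘ₗ s, fun j r => ?_⟩
  have h1 : s (mk F m r) - r ∈ dd F m := by
    rw [← mk_eq_zero, map_sub, sub_eq_zero]
    exact congrArg (fun f => f (mk F m r)) hs
  have h2 := mk_eq_zero.2 (comp_mem_dd h1 j)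
  rw [map_sub, map_sub, sub_eq_zero] at h2
  exact h2

/-- The degree of `Gam c`. -/
def gam (F : Type) [Fintype F] (m : ℕ) (c : Fin n → ℕ) : ℕ :=
  ∑ i, (Fintype.card F ^ m - Fintype.card F ^ c i)

theorem comp_coeff_Gam {c : Fin n → ℕ} (hc : ∀ i, c i ≤ m) (a : Fin n →₀ ℕ) (j : ℕ) :
    homogeneousComponent j (coeff a (Gam F m c)) =
      if a.degree + j = gam F m c then coeff a (Gam F m c) else 0 := by
  by_cases h : ∀ i, a i ≤ Fintype.card F ^ m - Fintype.card F ^ c i
  · have h1 : (coeff a (Gam F m c)).IsHomogeneous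
        (∑ i, (Fintype.card F ^ m - Fintype.card F ^ c i - a i)) := by
      rw [coeff_Gam]
      refine IsHomogeneous.prod _ _ _ fun i _ => ?_
      have h2 := GG_natDegree (F := F) (hc i)
      unfold GG at h2 ⊢
      rw [fZ_natDegree] at h2
      rw [← h2]
      exact fZ_coeff_homog' _ _
    have h2 : a.degree + ∑ i, (Fintype.card F ^ m - Fintype.card F ^ c i - a i) = gam F m c := by
      rw [Finsupp.degree_eq_sum, ← Finset.sum_add_distrib]
      exact Finset.sum_congr rfl fun i _ => Nat.add_sub_cancel' (h i)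
    rw [homogeneousComponent_of_mem h1]
    exact if_congr (by omega) rfl rfl
  · have h1 : coeff a (Gam F m c) = 0 := by
      push Not at h
      obtain ⟨i, hi⟩ := h
      rw [coeff_Gam]
      exact Finset.prod_eq_zero (Finset.mem_univ i)
        (Polynomial.coeff_eq_zero_of_natDegree_lt (by rw [GG_natDegree (hc i)]; exact hi))
    rw [h1, map_zero, ite_self]

section Family

variable {ι : Type} [Fintype ι] [DecidableEq ι]

/-- The vectors of coefficients of the generating elements. -/
noncomputable def vv (F : Type) [Field F] [Fintype F] (D : ι → Datum m n) (a : Fin n →₀ ℕ) :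
    ι → CC F m := fun b => mk F m (coeff a (Gam F m (D b).c))

theorem vv_mem (D : ι → Datum m n) (a : Fin n →₀ ℕ) (b : ι) :
    vv F D a b ∈ MT F m (D b).L.S := by
  refine ⟨_, ?_, rfl⟩
  rw [coeff_Gam]
  exact Subalgebra.prod_mem _ fun i _ =>
    coeff_GG_mem (D b).L.top (Set.mem_insert_of_mem _ ⟨i, rfl⟩) _

theorem test_mem (D : ι → Datum m n) (w : MvPolynomial (Fin n) F) :
    (fun b => mk F m (coeff (tp n (Fintype.card F ^ m))
      (Gam F m (D b).c * map (algebraMap F (RR F m)) w))) ∈
      Submodule.span F (vv F D '' box n (Fintype.card F ^ m)) := by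
  have h1 : (fun b => mk F m (coeff (tp n (Fintype.card F ^ m))
      (Gam F m (D b).c * map (algebraMap F (RR F m)) w))) =
      ∑ p ∈ antidiagonal (tp n (Fintype.card F ^ m)), coeff p.2 w • vv F D p.1 := by
    funext b
    rw [coeff_mul, map_sum, Finset.sum_apply]
    refine Finset.sum_congr rfl fun p _ => ?_
    rw [coeff_map, mul_comm, ← Algebra.smul_def, map_smul]
    rfl
  rw [h1]
  refine Submodule.sum_mem _ fun p hp => Submodule.smul_mem _ _ (Submodule.subset_span ⟨_, ?_, rfl⟩)
  rw [Finset.mem_coe, box, Finset.mem_Iic, ← Finset.HasAntidiagonal.mem_antidiagonal.1 hp]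
  exact le_self_add

/-- A family of data which is compatible with the orderings. -/
structure Good (D : ι → Datum m n) : Prop where
  inj : ∀ b b', (D b).c = (D b').c → b = b'
  comp : ∀ b b' i (r : Fin (D b).k), r.val < (D b).c i → (D b').c ((D b).η r) ≤ (D b').c i

theorem span_vv {D : ι → Datum m n} (hD : Good D) :
    Submodule.span F (vv F D '' box n (Fintype.card F ^ m)) =
      Submodule.pi Set.univ fun b => MT F m (D b).L.S := by
  have hle : Submodule.span F (vv F D '' box n (Fintype.card F ^ m)) ≤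
      Submodule.pi Set.univ fun b => MT F m (D b).L.S := by
    rw [Submodule.span_le]
    rintro _ ⟨a, -, rfl⟩ b _
    exact vv_mem D a b
  refine le_antisymm hle ?_
  have key : ∀ (t : ℕ) (b : ι), ∑ i, (m - (D b).c i) = t → ∀ y ∈ MT F m (D b).L.S,
      Pi.single b y ∈ Submodule.span F (vv F D '' box n (Fintype.card F ^ m)) := by
    intro t
    induction t using Nat.strong_induction_on with
    | _ t ih =>
      rintro b hb _ ⟨s, hs, rfl⟩
      obtain ⟨s', hs1, hs2⟩ := exists_sub_mem_dd hs
      have h1 := test_mem D (sig (D b) s' * ∏ j, TP F (D b) j)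
      set z := fun b' => mk F m (coeff (tp n (Fintype.card F ^ m))
        (Gam F m (D b').c * map (algebraMap F (RR F m)) (sig (D b) s' * ∏ j, TP F (D b) j)))
        with hz
      have h2 : z b = (mk F m).toLinearMap s := by
        have h3 := mk_eq_zero.2 hs2
        rw [map_sub, sub_eq_zero] at h3
        exact (mk_coeff_tp (sum_test (D b) hs1)).trans h3.symm
      have h3 : (Pi.single b (z b) : ι → CC F m) =
          z - ∑ b' ∈ univ.erase b, Pi.single b' (z b') := by
        rw [eq_sub_iff_add_eq, Finset.add_sum_erase univ (fun b' => Pi.single b' (z b'))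
          (Finset.mem_univ b), Finset.univ_sum_single]
      rw [← h2, h3]
      refine Submodule.sub_mem _ h1 (Submodule.sum_mem _ fun b' hb' => ?_)
      by_cases h4 : (D b).c ≤ (D b').c
      · refine ih _ ?_ b' rfl _ (hle h1 b' trivial)
        rw [← hb]
        obtain ⟨i, hi⟩ : ∃ i, (D b).c i ≠ (D b').c i := by
          by_contra h5
          push Not at h5
          exact (Finset.mem_erase.1 hb').1 (hD.inj _ _ (funext h5)).symm
        refine Finset.sum_lt_sum (fun i _ => Nat.sub_le_sub_left (h4 i) _)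
          ⟨i, Finset.mem_univ _, ?_⟩
        have h5 : (D b).c i ≤ (D b').c i := h4 i
        have h6 := ((D b').hc i).trans (D b').hk
        omega
      · have h5 : z b' = 0 := (mk_coeff_tp (sum_test_ne (D b)
          (fun i => ((D b').hc i).trans (D b').hk) (hD.comp b b') h4 s')).trans (map_zero _)
        rw [h5, Pi.single_zero]
        exact Submodule.zero_mem _
  intro x hx
  rw [← Finset.univ_sum_single x]
  exact Submodule.sum_mem _ fun b _ => key _ b rfl _ (hx b trivial)

theorem MM_eq_bot {D : ι → Datum m n} (hD : Good D) (b : ι) {j : ℕ} (hj : gam F m (D b).c < j) :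
    MM F m (D b).L.S j = ⊥ := by
  obtain ⟨π, hπ⟩ := exists_proj (F := F) (m := m)
  have h1 : Submodule.span F (vv F D '' box n (Fintype.card F ^ m)) ≤
      LinearMap.ker (π j ∘ₗ LinearMap.proj b) := by
    rw [Submodule.span_le]
    rintro _ ⟨a, -, rfl⟩
    show π j (mk F m _) = 0
    rw [hπ, comp_coeff_Gam fun i => ((D b).hc i).trans (D b).hk, if_neg (by omega), map_zero]
  rw [span_vv hD] at h1
  rw [eq_bot_iff]
  rintro _ ⟨s, ⟨hs1, hs2⟩, rfl⟩
  have h2 := h1 (x := Pi.single b (mk F m s)) fun b' _ => by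
    by_cases h : b' = b
    · subst h
      rw [Pi.single_eq_same]
      exact ⟨s, hs1, rfl⟩
    · rw [Pi.single_eq_of_ne h]
      exact Submodule.zero_mem _
  rw [LinearMap.mem_ker, LinearMap.comp_apply, LinearMap.proj_apply, Pi.single_eq_same, hπ,
    homogeneousComponent_eq_self hs2] at h2
  exact h2

theorem exists_Proj (D : ι → Datum m n) (d : ℕ) : ∃ P : (ι → CC F m) →ₗ[F] (ι → CC F m),
    (∀ a : Fin n →₀ ℕ, P (vv F D a) = if a.degree = d then vv F D a else 0) ∧
    ∀ x ∈ Submodule.pi Set.univ fun b =>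
      if d ≤ gam F m (D b).c then MM F m (D b).L.S (gam F m (D b).c - d) else ⊥, P x = x := by
  obtain ⟨π, hπ⟩ := exists_proj (F := F) (m := m)
  refine ⟨LinearMap.pi fun b =>
    if d ≤ gam F m (D b).c then π (gam F m (D b).c - d) ∘ₗ LinearMap.proj b else 0, ?_, ?_⟩
  · intro a
    funext b
    have hc := fun i => ((D b).hc i).trans (D b).hk
    rw [LinearMap.pi_apply]
    by_cases h : d ≤ gam F m (D b).c
    · rw [if_pos h]
      show π _ (mk F m _) = _
      rw [hπ, comp_coeff_Gam hc]
      by_cases h1 : a.degree = d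
      · rw [if_pos h1, if_pos (by omega)]; rfl
      · rw [if_neg h1, if_neg (by omega), map_zero]; rfl
    · rw [if_neg h]
      by_cases h1 : a.degree = d
      · rw [if_pos h1]
        show 0 = mk F m _
        have h2 : coeff a (Gam F m (D b).c) = 0 := by
          rw [← sum_homogeneousComponent (coeff a (Gam F m (D b).c))]
          exact Finset.sum_eq_zero fun j _ => by rw [comp_coeff_Gam hc, if_neg (by omega)]
        rw [h2, map_zero]
      · rw [if_neg h1]; rfl
  · intro x hx
    funext b
    have h1 := Submodule.mem_pi.1 hx b trivial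
    rw [LinearMap.pi_apply]
    by_cases h : d ≤ gam F m (D b).c
    · rw [if_pos h] at h1 ⊢
      obtain ⟨s, ⟨-, hs2⟩, hs3⟩ := h1
      show π _ (x b) = _
      rw [← hs3]
      show π _ (mk F m s) = mk F m s
      rw [hπ, homogeneousComponent_eq_self hs2]
    · rw [if_neg h] at h1 ⊢
      exact ((Submodule.mem_bot F).1 h1).symm

theorem span_vv_graded {D : ι → Datum m n} (hD : Good D) (d : ℕ) :
    Submodule.span F (vv F D '' ((box n (Fintype.card F ^ m)).filter fun a => a.degree = d)) =
      Submodule.pi Set.univ fun b =>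
        if d ≤ gam F m (D b).c then MM F m (D b).L.S (gam F m (D b).c - d) else ⊥ := by
  apply le_antisymm
  · rw [Submodule.span_le]
    rintro _ ⟨a, ha, rfl⟩ b _
    have h1 : a.degree = d := (Finset.mem_filter.1 ha).2
    have hc := fun i => ((D b).hc i).trans (D b).hk
    by_cases h : d ≤ gam F m (D b).c
    · simp only [if_pos h]
      obtain ⟨s, hs1, hs2⟩ := vv_mem (F := F) D a b
      refine ⟨coeff a (Gam F m (D b).c), ⟨?_, ?_⟩, rfl⟩
      · rw [coeff_Gam]
        exact Subalgebra.prod_mem _ fun i _ =>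
          coeff_GG_mem (D b).L.top (Set.mem_insert_of_mem _ ⟨i, rfl⟩) _
      · have h2 := comp_coeff_Gam (F := F) hc a (gam F m (D b).c - d)
        rw [if_pos (by omega)] at h2
        rw [← h2]
        exact homogeneousComponent_mem _ _
    · simp only [if_neg h]
      have h2 : coeff a (Gam F m (D b).c) = 0 := by
        rw [← sum_homogeneousComponent (coeff a (Gam F m (D b).c))]
        exact Finset.sum_eq_zero fun j _ => by rw [comp_coeff_Gam hc, if_neg (by omega)]
      show mk F m _ ∈ _
      rw [h2, map_zero]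
      exact Submodule.zero_mem _
  · obtain ⟨P, hP1, hP2⟩ := exists_Proj (F := F) D d
    have h1 : Submodule.span F (vv F D '' box n (Fintype.card F ^ m)) ≤ (Submodule.span F
        (vv F D '' ((box n (Fintype.card F ^ m)).filter fun a => a.degree = d))).comap P := by
      rw [Submodule.span_le]
      rintro _ ⟨a, ha, rfl⟩
      rw [SetLike.mem_coe, Submodule.mem_comap, hP1]
      split_ifs with h
      · exact Submodule.subset_span ⟨a, Finset.mem_filter.2 ⟨ha, h⟩, rfl⟩
      · exact Submodule.zero_mem _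
    intro x hx
    rw [← hP2 x hx]
    refine h1 ?_
    rw [span_vv hD]
    intro b _
    have h2 := hx b trivial
    by_cases h : d ≤ gam F m (D b).c
    · simp only [if_pos h] at h2
      exact MM_le _ _ h2
    · simp only [if_neg h] at h2
      rw [(Submodule.mem_bot F).1 h2]
      exact Submodule.zero_mem _

theorem Psi_box_eq (D : ι → Datum m n) (μ : Module.Dual F (ι → CC F m)) :
    Psi (vv F D) (box n (Fintype.card F ^ m)) μ =
      ∑ b, lam (μ ∘ₗ LinearMap.single F (fun _ => CC F m) b ∘ₗ (mk F m).toLinearMap)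
        (Gam F m (D b).c) := by
  classical
  ext a
  rw [coeff_Psi, coeff_sum]
  simp only [coeff_lam]
  split_ifs with h
  · rw [← Finset.univ_sum_single (vv F D a), map_sum]
    rfl
  · rw [mem_box (card_pow_pos F m)] at h
    refine (Finset.sum_eq_zero fun b _ => ?_).symm
    rw [coeff_Gam, coeff_Gam_of_not _ _ h, map_zero]

theorem act_Psi_box (D : ι → Datum m n) (μ : Module.Dual F (ι → CC F m))
    (M : Matrix (Fin n) (Fin n) F) (hM : IsUnit M.det)
    (hc : ∀ b i j, M i j ≠ 0 → (D b).c i ≤ (D b).c j) :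
    act M (Psi (vv F D) (box n (Fintype.card F ^ m)) μ) -
      Psi (vv F D) (box n (Fintype.card F ^ m)) μ ∈ II F n (Fintype.card F ^ m) := by
  rw [Psi_box_eq, map_sum, ← Finset.sum_sub_distrib]
  refine Ideal.sum_mem _ fun b _ => act_Gam (fun r hr => ?_) _ M hM (hc b)
  show μ (Pi.single b (mk F m r)) = 0
  rw [mk_eq_zero.2 hr, Pi.single_zero, map_zero]

theorem VV_le (D : ι → Datum m n) : VV F m (Set.range fun b => (D b).c) ≤
    LinearMap.range (Psi (vv F D) (box n (Fintype.card F ^ m))) ⊔
      (II F n (Fintype.card F ^ m)).restrictScalars F := by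
  refine sup_le_sup_right (Submodule.span_le.2 ?_) _
  rintro _ ⟨_, ⟨b, rfl⟩, μ, hμ, rfl⟩
  obtain ⟨s, hs⟩ := (mk F m).toLinearMap.exists_rightInverse_of_surjective
    (LinearMap.range_eq_top.2 mk_surjective)
  refine ⟨μ ∘ₗ s ∘ₗ LinearMap.proj b, ?_⟩
  ext a
  rw [coeff_Psi, coeff_lam]
  split_ifs with h
  · show μ (s (mk F m _)) = _
    rw [← sub_eq_zero, ← map_sub]
    refine hμ _ ?_
    rw [← mk_eq_zero, map_sub, sub_eq_zero]
    exact LinearMap.congr_fun hs _
  · rw [mem_box (card_pow_pos F m)] at h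
    rw [coeff_Gam, coeff_Gam_of_not _ _ h, map_zero]

theorem comp_Psi_box (D : ι → Datum m n) (μ : Module.Dual F (ι → CC F m)) (d : ℕ) :
    homogeneousComponent d (Psi (vv F D) (box n (Fintype.card F ^ m)) μ) =
      Psi (vv F D) ((box n (Fintype.card F ^ m)).filter fun a => a.degree = d) μ := by
  ext a
  rw [coeff_homogeneousComponent, coeff_Psi, coeff_Psi]
  by_cases h1 : a.degree = d <;> by_cases h2 : a ∈ box n (Fintype.card F ^ m) <;> simp [h1, h2]

theorem exists_Psi_graded (D : ι → Datum m n) (μ : Module.Dual F (ι → CC F m)) (d : ℕ) :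
    ∃ μ', Psi (vv F D) ((box n (Fintype.card F ^ m)).filter fun a => a.degree = d) μ =
      Psi (vv F D) (box n (Fintype.card F ^ m)) μ' := by
  obtain ⟨P, hP1, -⟩ := exists_Proj (F := F) D d
  refine ⟨μ ∘ₗ P, ?_⟩
  ext a
  rw [coeff_Psi, coeff_Psi, LinearMap.comp_apply, hP1]
  by_cases h1 : a.degree = d <;> by_cases h2 : a ∈ box n (Fintype.card F ^ m) <;> simp [h1, h2]

theorem finrank_range_box {D : ι → Datum m n} (hD : Good D) :
    Module.finrank F (LinearMap.range (Psi (F := F) (vv F D) (box n (Fintype.card F ^ m)))) =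
      ∑ b, Module.finrank F (MT F m (D b).L.S) := by
  have h1 := finrank_range_Psi (F := F) (vv F D) (box n (Fintype.card F ^ m)) LinearMap.id
    fun _ h => h
  rw [LinearMap.id_comp, span_vv hD, finrank_pi_submodule] at h1
  exact h1

/-- The graded dimension of a space of invariants spanned by the generating elements. -/
theorem finrank_invariants {D : ι → Datum m n} (hD : Good D)
    (𝒢 : Set (Matrix (Fin n) (Fin n) F)) (h𝒢 : ∀ M ∈ 𝒢, IsUnit M.det)
    (hc : ∀ M ∈ 𝒢, ∀ b i j, M i j ≠ 0 → (D b).c i ≤ (D b).c j)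
    (hV : ∀ h : MvPolynomial (Fin n) F,
      (∀ M ∈ 𝒢, act M h - h ∈ II F n (Fintype.card F ^ m)) →
        h ∈ VV F m (Set.range fun b => (D b).c)) (d : ℕ) (N : Submodule F (MvPolynomial (Fin n) F))
    (hN : ∀ h, h ∈ N ↔ h.IsHomogeneous d ∧
      ∀ M ∈ 𝒢, act M h - h ∈ II F n (Fintype.card F ^ m)) :
    Module.finrank F (N.map (Ideal.Quotient.mkₐ F (II F n (Fintype.card F ^ m))).toLinearMap) =
      ∑ b, if d ≤ gam F m (D b).c then
        Module.finrank F (MM F m (D b).L.S (gam F m (D b).c - d)) else 0 := by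
  have h1 := finrank_range_Psi (F := F) (vv F D)
    ((box n (Fintype.card F ^ m)).filter fun a => a.degree = d)
    (Ideal.Quotient.mkₐ F (II F n (Fintype.card F ^ m))).toLinearMap fun μ h => by
      have h2 := mem_II.1 (Ideal.Quotient.eq_zero_iff_mem.1 h)
      ext a
      by_cases ha : ∀ i, a i < Fintype.card F ^ m
      · exact h2 a ha
      · rw [coeff_Psi, if_neg, coeff_zero]
        intro h3
        exact ha ((mem_box (card_pow_pos F m)).1 (Finset.mem_filter.1 h3).1)
  have h2 : N = LinearMap.range (Psi (F := F) (vv F D)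
      ((box n (Fintype.card F ^ m)).filter fun a => a.degree = d)) ⊔
        (N ⊓ (II F n (Fintype.card F ^ m)).restrictScalars F) := by
    have h3 : LinearMap.range (Psi (F := F) (vv F D)
        ((box n (Fintype.card F ^ m)).filter fun a => a.degree = d)) ≤ N := by
      rintro _ ⟨μ, rfl⟩
      refine (hN _).2 ⟨?_, fun M hM => ?_⟩
      · rw [← comp_Psi_box]
        exact homogeneousComponent_isHomogeneous _ _
      · obtain ⟨μ', hμ'⟩ := exists_Psi_graded D μ d
        rw [hμ']
        exact act_Psi_box D μ' M (h𝒢 M hM) (hc M hM)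
    refine le_antisymm (fun h hh => ?_) (sup_le h3 inf_le_left)
    obtain ⟨_, ⟨μ, rfl⟩, g, hg1, hg2⟩ := Submodule.mem_sup.1 (VV_le D (hV h ((hN h).1 hh).2))
    have h4 := congrArg (homogeneousComponent d) hg2
    rw [map_add, comp_Psi_box, homogeneousComponent_eq_self ((hN h).1 hh).1] at h4
    refine Submodule.mem_sup.2 ⟨_, ⟨μ, rfl⟩, _, ⟨?_, ?_⟩, h4⟩
    · rw [← eq_sub_iff_add_eq'] at h4
      rw [h4]
      exact N.sub_mem hh (h3 ⟨μ, rfl⟩)
    · refine mem_II.2 fun a ha => ?_
      rw [coeff_homogeneousComponent, mem_II.1 hg1 a ha, ite_self]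
  have h3 : (N ⊓ (II F n (Fintype.card F ^ m)).restrictScalars F).map
      (Ideal.Quotient.mkₐ F (II F n (Fintype.card F ^ m))).toLinearMap = ⊥ := by
    rw [eq_bot_iff]
    rintro _ ⟨g, ⟨-, hg⟩, rfl⟩
    exact Ideal.Quotient.eq_zero_iff_mem.2 hg
  rw [h2, Submodule.map_sup, h3, sup_bot_eq, ← LinearMap.range_comp, h1, span_vv_graded hD,
    finrank_pi_submodule]
  refine Finset.sum_congr rfl fun b _ => ?_
  by_cases h : d ≤ gam F m (D b).c
  · rw [if_pos h, if_pos h]
  · rw [if_neg h, if_neg h]
    exact finrank_bot F _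

end Family

end Pool.Agent.H437Z.LRS
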