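import Pool.Agent.H437Z.LRS.Blocks

/-!
The Hilbert series of the invariants of a parabolic subgroup, as a sum of polynomials.
-/

set_option autoImplicit false
set_option linter.unusedSectionVars false

namespace Pool.Agent.H437Z.LRS

open Finset Polynomial

variable {F : Type} [Field F] [Fintype F] {m n l : ℕ}

theorem natDegree_one_sub (b : ℕ) : (1 - X ^ b : ℚ[X]).natDegree ≤ b :=
  (natDegree_sub_le _ _).trans (by simp)

theorem natDegree_prod_one_sub {ι : Type} (s : Finset ι) (b : ι → ℕ) :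
    (∏ r ∈ s, (1 - X ^ b r : ℚ[X])).natDegree ≤ ∑ r ∈ s, b r :=
  (natDegree_prod_le _ _).trans (Finset.sum_le_sum fun _ _ => natDegree_one_sub _)

theorem reflect_prod {ι : Type} (s : Finset ι) (b : ι → ℕ) :
    reflect (∑ r ∈ s, b r) (∏ r ∈ s, (1 - X ^ b r : ℚ[X])) =
      (-1) ^ #s * ∏ r ∈ s, (1 - X ^ b r) := by
  classical
  induction s using Finset.induction_on with
  | empty => simp
  | insert r s hr ih =>
    rw [Finset.sum_insert hr, Finset.prod_insert hr, Finset.card_insert_of_notMem hr,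
      reflect_mul _ _ (natDegree_one_sub _) (natDegree_prod_one_sub _ _), ih, reflect_sub,
      reflect_one, reflect_monomial, revAt_le le_rfl, Nat.sub_self]
    ring

theorem exists_poly (L : Levels m) (γ e : ℕ) (hbot : ∀ j, γ < j → MM F m L.S j = ⊥)
    (he : γ + ∑ r, nn F L r = e + ∑ r : Fin m, (Fintype.card F ^ m - Fintype.card F ^ r.val)) :
    ∃ H : ℚ[X], (∀ d, H.coeff d = if d ≤ γ then (Module.finrank F (MM F m L.S (γ - d)) : ℚ) else 0) ∧
      H * ∏ r, (1 - X ^ nn F L r) =
        X ^ e * ∏ r : Fin m, (1 - X ^ (Fintype.card F ^ m - Fintype.card F ^ r.val)) := by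
  let h : ℚ[X] := ∑ j ∈ range (γ + 1), monomial j (Module.finrank F (MM F m L.S j) : ℚ)
  have h1 : ∀ j, h.coeff j = (Module.finrank F (MM F m L.S j) : ℚ) := by
    intro j
    simp only [h, finsetSum_coeff, coeff_monomial, Finset.sum_ite_eq', Finset.mem_range]
    split_ifs with hj
    · rfl
    · rw [hbot j (by omega), finrank_bot, Nat.cast_zero]
  have h2 : h.natDegree ≤ γ :=
    natDegree_sum_le_of_forall_le _ _ fun j hj => (natDegree_monomial_le _).trans
      (Nat.lt_succ_iff.1 (Finset.mem_range.1 hj))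
  have h3 : h * ∏ r, (1 - X ^ nn F L r) =
      ∏ r : Fin m, (1 - X ^ (Fintype.card F ^ m - Fintype.card F ^ r.val)) := by
    apply Polynomial.coe_injective ℚ
    have h4 : (h : PowerSeries ℚ) = PowerSeries.mk fun j => (Module.finrank F (MM F m L.S j) : ℚ) := by
      ext j
      rw [Polynomial.coeff_coe, h1, PowerSeries.coeff_mk]
    have h5 := hilbert_MM (F := F) L
    rw [← h4] at h5
    simp only [← Polynomial.coeToPowerSeries.ringHom_apply, map_mul, map_prod, map_sub, map_one,
      map_pow]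
    simp only [Polynomial.coeToPowerSeries.ringHom_apply, Polynomial.coe_X]
    exact h5
  refine ⟨reflect γ h, fun d => ?_, ?_⟩
  · rw [coeff_reflect]
    split_ifs with hd
    · rw [revAt_le hd, h1]
    · rw [revAt_eq_self_of_lt (not_le.1 hd)]
      exact coeff_eq_zero_of_natDegree_lt (by omega)
  · have h4 := congrArg (reflect (γ + ∑ r, nn F L r)) h3
    rw [reflect_mul _ _ h2 (natDegree_prod_one_sub _ _), reflect_prod, he,
      ← one_mul (∏ r : Fin m, (1 - X ^ (Fintype.card F ^ m - Fintype.card F ^ r.val) : ℚ[X])),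
      reflect_mul _ _ (by simp) (natDegree_prod_one_sub _ _), reflect_prod, reflect_one] at h4
    have h5 : ((-1) ^ #(univ : Finset (Fin m)) : ℚ[X]) ≠ 0 := pow_ne_zero _ (by simp)
    apply mul_left_cancel₀ h5
    linear_combination h4

theorem prod_range_ps {M : Type} [CommMonoid M] (β : Fin l → ℕ) (f : ℕ → M) :
    ∏ r ∈ range (∑ i, β i), f r = ∏ i : Fin l, ∏ j ∈ range (β i), f (ps β i.val + j) := by
  have key : ∀ s ≤ l, ∏ r ∈ range (ps β s), f r =
      ∏ i ∈ univ.filter (fun i : Fin l => i.val < s), ∏ j ∈ range (β i), f (ps β i.val + j) := by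
    intro s
    induction s with
    | zero => intro _; simp [ps_zero]
    | succ s ih =>
      intro hs
      rw [filter_lt_succ ⟨s, hs⟩, Finset.prod_insert (by simp), ps_succ β hs,
        Finset.prod_range_add, ih (by omega), mul_comm]
  have h1 := key l le_rfl
  rwa [ps_of_le β le_rfl, Finset.filter_true_of_mem fun r _ => r.2] at h1

theorem prod_range_blk {M : Type} [CommMonoid M] (β : Fin l → ℕ) (f : ℕ → ℕ → M) :
    ∏ r ∈ range (∑ i, β i), f (blk β r) r =
      ∏ i : Fin l, ∏ j ∈ range (β i), f i.val (ps β i.val + j) := by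
  rw [prod_range_ps β fun r => f (blk β r) r]
  refine Finset.prod_congr rfl fun i _ => Finset.prod_congr rfl fun j hj => ?_
  rw [blk_eq β i.2 (Nat.le_add_right _ _) (by
    rw [ps_succ β i.2]; exact Nat.add_lt_add_left (Finset.mem_range.1 hj) _)]

theorem prod_kappa {M : Type} [CommMonoid M] (α : Fin l → ℕ) (hα : ∑ i, α i = n) (β : Fam α m)
    (f : ℕ → ℕ → M) : ∏ r : Fin m, f ((dat α hα m β).L.κ r) r.val =
      (∏ i : Fin l, ∏ j ∈ range (β.1 i), f (ps β.1 (i.val + 1)) (ps β.1 i.val + j)) *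
        ∏ j ∈ range (m - ∑ i, β.1 i), f m (∑ i, β.1 i + j) := by
  simp only [dat_κ]
  rw [Fin.prod_univ_eq_prod_range
    (fun r => f (if r < ∑ i, β.1 i then ps β.1 (blk β.1 r + 1) else m) r) m]
  have h1 : range m = range (∑ i, β.1 i + (m - ∑ i, β.1 i)) := by
    rw [Nat.add_sub_cancel' (mem_Fam.1 β.2).2]
  rw [h1, Finset.prod_range_add, ← prod_range_blk β.1 fun s r => f (ps β.1 (s + 1)) r]
  congr 1
  · exact Finset.prod_congr rfl fun r hr => by rw [if_pos (Finset.mem_range.1 hr)]
  · exact Finset.prod_congr rfl fun r _ => by rw [if_neg (by omega)]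

theorem exponent_eq (α : Fin l → ℕ) (hα : ∑ i, α i = n) (β : Fam α m) :
    gam F m (dat α hα m β).c + ∑ r, nn F (dat α hα m β).L r =
      ∑ i : Fin l, (α i - β.1 i) * (Fintype.card F ^ m - Fintype.card F ^ ps β.1 (i.val + 1)) +
        ∑ r : Fin m, (Fintype.card F ^ m - Fintype.card F ^ r.val) := by
  have hq : 0 < Fintype.card F := Fintype.card_pos
  have h1 : gam F m (dat α hα m β).c =
      ∑ i : Fin l, α i * (Fintype.card F ^ m - Fintype.card F ^ ps β.1 (i.val + 1)) := by
    have h2 := prod_range_blk α fun s _ =>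
      Multiplicative.ofAdd (Fintype.card F ^ m - Fintype.card F ^ ps β.1 (s + 1))
    simp only [← ofAdd_sum, EmbeddingLike.apply_eq_iff_eq, Finset.sum_const, Finset.card_range,
      smul_eq_mul] at h2
    rw [← h2, hα, ← Fin.sum_univ_eq_sum_range
      (fun r => Fintype.card F ^ m - Fintype.card F ^ ps β.1 (blk α r + 1)) n]
    rfl
  have h2 : ∑ r : Fin m, (Fintype.card F ^ m - Fintype.card F ^ (dat α hα m β).L.κ r) =
      ∑ i : Fin l, β.1 i * (Fintype.card F ^ m - Fintype.card F ^ ps β.1 (i.val + 1)) := by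
    have h3 := prod_kappa α hα β fun s _ =>
      Multiplicative.ofAdd (Fintype.card F ^ m - Fintype.card F ^ s)
    simpa only [← ofAdd_sum, ← ofAdd_add, EmbeddingLike.apply_eq_iff_eq, Finset.sum_const,
      Finset.card_range, smul_eq_mul, Nat.sub_self, mul_zero, add_zero] using h3
  have h3 : ∑ r : Fin m, (Fintype.card F ^ m - Fintype.card F ^ r.val) =
      ∑ r : Fin m, (Fintype.card F ^ m - Fintype.card F ^ (dat α hα m β).L.κ r) +
        ∑ r, nn F (dat α hα m β).L r := by
    rw [← Finset.sum_add_distrib]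
    refine Finset.sum_congr rfl fun r _ => ?_
    have h4 := Nat.pow_le_pow_right hq ((dat α hα m β).L.le r)
    have h5 := Nat.pow_le_pow_right hq ((dat α hα m β).L.lt r).le
    unfold nn
    omega
  rw [h3, h2, h1, ← add_assoc, ← Finset.sum_add_distrib]
  congr 1
  refine Finset.sum_congr rfl fun i _ => ?_
  rw [← add_mul, Nat.sub_add_cancel ((mem_Fam.1 β.2).1 i)]

/-- The Hilbert series of the invariants of a parabolic subgroup. -/
theorem main_poly (F : Type) [Field F] [Fintype F] (m : ℕ) (α : Fin l → ℕ) (hα : ∑ i, α i = n) :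
    ∃ H : (Fin l → ℕ) → ℚ[X],
      (∀ (d : ℕ) (N : Submodule F (MvPolynomial (Fin n) F)),
        (∀ h, h ∈ N ↔ h.IsHomogeneous d ∧ ∀ M : Matrix (Fin n) (Fin n) F, IsUnit M.det →
          (∀ a b, M a b ≠ 0 → blk α a.val ≤ blk α b.val) →
          act M h - h ∈ II F n (Fintype.card F ^ m)) →
        (Module.finrank F
          (N.map (Ideal.Quotient.mkₐ F (II F n (Fintype.card F ^ m))).toLinearMap) : ℚ) =
          (∑ β ∈ Fam α m, H β).coeff d) ∧
      (∑ β ∈ Fam α m, H β).natDegree ≤ n * Fintype.card F ^ m ∧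
      ∀ β ∈ Fam α m,
        H β * ((∏ i : Fin l, ∏ j ∈ range (β i), (1 - X ^ (Fintype.card F ^ ps β (i.val + 1) -
            Fintype.card F ^ (ps β i.val + j)))) *
          ∏ j ∈ range (m - ∑ i, β i),
            (1 - X ^ (Fintype.card F ^ m - Fintype.card F ^ (∑ i, β i + j)))) =
        X ^ (∑ i : Fin l, (α i - β i) *
            (Fintype.card F ^ m - Fintype.card F ^ ps β (i.val + 1))) *
          ∏ j ∈ range m, (1 - X ^ (Fintype.card F ^ m - Fintype.card F ^ j)) := by
  classical
  choose H hH1 hH2 using fun β : Fam α m => exists_poly (F := F) (dat α hα m β).L _ _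
    (fun _ hj => MM_eq_bot (good_dat α hα m) β hj) (exponent_eq α hα β)
  have h0 : ∑ β ∈ Fam α m, (if h : β ∈ Fam α m then H ⟨β, h⟩ else 0) = ∑ β, H β := by
    rw [← Finset.sum_coe_sort]
    exact Finset.sum_congr rfl fun β _ => dif_pos β.2
  refine ⟨fun β => if h : β ∈ Fam α m then H ⟨β, h⟩ else 0, fun d N hN => ?_, ?_, fun β hβ => ?_⟩
  · rw [h0, finrank_parabolic α hα d N hN, finsetSum_coeff, Nat.cast_sum]
    refine Finset.sum_congr rfl fun β _ => ?_
    rw [hH1]
    split_ifs <;> simp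
  · rw [h0]
    refine natDegree_sum_le_of_forall_le _ _ fun β _ => ?_
    rw [natDegree_le_iff_coeff_eq_zero]
    intro d hd
    rw [hH1, if_neg]
    have h1 : gam F m (dat α hα m β).c ≤ ∑ _i : Fin n, Fintype.card F ^ m :=
      Finset.sum_le_sum fun i _ => Nat.sub_le _ _
    simp only [Finset.sum_const, Finset.card_univ, Fintype.card_fin, smul_eq_mul] at h1
    omega
  · simp only [dif_pos hβ]
    have h1 := hH2 ⟨β, hβ⟩
    have h2 := prod_kappa α hα ⟨β, hβ⟩ fun s r =>
      (1 - X ^ (Fintype.card F ^ s - Fintype.card F ^ r) : ℚ[X])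
    rw [← h2, ← Fin.prod_univ_eq_prod_range
      (fun j => (1 - X ^ (Fintype.card F ^ m - Fintype.card F ^ j) : ℚ[X])) m]
    exact h1

theorem blk_cond (α : Fin l → ℕ) (hα : ∑ i, α i = n) (M : Matrix (Fin n) (Fin n) F) :
    (∀ (i j : Fin n) (k : ℕ), j.val < ps α k → ps α k ≤ i.val → M i j = 0) ↔
      ∀ a b, M a b ≠ 0 → blk α a.val ≤ blk α b.val := by
  constructor
  · intro h a b hab
    by_contra h1
    refine hab (h a b (blk α a.val) ?_ (ps_blk_le _ _))
    by_contra h2
    exact h1 ((le_blk α (blk_le _ _)).2 (not_lt.1 h2))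
  · intro h i j k h1 h2
    by_contra h3
    have h4 := h i j h3
    have hk : k ≤ l := by
      by_contra h5
      rw [ps_of_le α (by omega), hα] at h2
      exact absurd i.2 (not_lt.2 h2)
    exact absurd ((le_blk α hk).1 (((le_blk α hk).2 h2).trans h4)) (not_le.2 h1)

theorem one_sub_ne_zero {a b : ℕ} (h : b < a) :
    (1 - X ^ (Fintype.card F ^ a - Fintype.card F ^ b) : ℚ[X]).coeff 0 = 1 := by
  have h1 := Nat.pow_lt_pow_right (Fintype.one_lt_card (α := F)) h
  rw [coeff_sub, coeff_one_zero, coeff_X_pow, if_neg (by omega), sub_zero]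

end Pool.Agent.H437Z.LRS
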