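import Pool.Agent.H437Z.LRS.Gamma

/-!
Test polynomials, and the values of the top coefficient functional on them.
-/

set_option autoImplicit false
set_option linter.unusedSectionVars false

namespace Pool.Agent.H437Z.LRS

open Finset MvPolynomial

variable {F : Type} [Field F] [Fintype F] {m n : ℕ}

theorem sum_prod_iter {W A : Type} [Fintype W] [Zero W] [CommRing A] (a : A) :
    ∀ (n : ℕ) (G : Fin n → (Fin n → W) → A),
      (∀ j x y, (∀ i ≤ j, x i = y i) → G j x = G j y) →
      (∀ j x, ∑ u, G j (Function.update x j u) = a) → ∑ x, ∏ j, G j x = a ^ n := by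
  intro n
  induction n with
  | zero => intro G _ _; simp
  | succ n ih =>
    intro G hdep hsum
    have h1 := ih (fun j y => G j.castSucc (Fin.snoc y 0)) (fun j x y h => hdep _ _ _ fun i hi => by
        obtain ⟨i', rfl⟩ := Fin.exists_castSucc_eq.2 (Fin.ne_last_of_lt
          (lt_of_le_of_lt hi (Fin.castSucc_lt_last j)))
        simp only [Fin.snoc_castSucc]
        exact h i' (Fin.castSucc_le_castSucc_iff.1 hi))
      (fun j x => by simp only [Fin.snoc_update]; exact hsum _ _)
    rw [← (Fin.snocEquiv fun _ => W).sum_comp, Fintype.sum_prod_type_right, pow_succ, ← h1,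
      Finset.sum_mul]
    refine Finset.sum_congr rfl fun y _ => ?_
    rw [← hsum (Fin.last n) (Fin.snoc y 0), Finset.mul_sum]
    refine Finset.sum_congr rfl fun u _ => ?_
    rw [Fin.prod_univ_castSucc, Fin.update_snoc_last]
    congr 1
    refine Finset.prod_congr rfl fun j _ => hdep _ _ _ fun i hi => ?_
    obtain ⟨i', rfl⟩ := Fin.exists_castSucc_eq.2 (Fin.ne_last_of_lt
      (lt_of_le_of_lt hi (Fin.castSucc_lt_last j)))
    simp [Fin.snocEquiv]

theorem exists_tk (k : ℕ) : ∃ t : RR F m, ∑ u : WW F m, iota F m u ^ k = aa F m * t ∧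
    mk F m t = if k = Fintype.card F ^ m - 1 then 1 else 0 := by
  classical
  have hN : 0 < Fintype.card F ^ m := pow_pos Fintype.card_pos _
  have hd : (fZ (UU F m m)).natDegree = Fintype.card F ^ m := by rw [fZ_natDegree, card_UU le_rfl]
  refine ⟨(Polynomial.X ^ k %ₘ fZ (UU F m m)).coeff (Fintype.card F ^ m - 1), ?_, ?_⟩
  · rw [← sum_eval]
    · refine Finset.sum_congr rfl fun u _ => ?_
      have h1 := congrArg (Polynomial.eval (iota F m u))
        (Polynomial.modByMonic_add_div (Polynomial.X ^ k) (fZ (UU F m m)))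
      rw [Polynomial.eval_add, Polynomial.eval_mul,
        eval_fZ_of_mem (by rw [UU_top le_rfl]; exact Finset.mem_univ _), zero_mul, add_zero,
        Polynomial.eval_pow, Polynomial.eval_X] at h1
      exact h1.symm
    · rw [← hd]
      refine Polynomial.natDegree_modByMonic_lt _ (fZ_monic _) fun h => ?_
      rw [h, Polynomial.natDegree_one] at hd
      omega
  · by_cases hk : k < Fintype.card F ^ m
    · rw [(Polynomial.modByMonic_eq_self_iff (fZ_monic _)).2 (Polynomial.degree_lt_degree (by
        rw [Polynomial.natDegree_X_pow, hd]; exact hk)), Polynomial.coeff_X_pow]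
      by_cases h : k = Fintype.card F ^ m - 1
      · rw [if_pos h, if_pos h.symm, map_one]
      · rw [if_neg h, if_neg (Ne.symm h), map_zero]
    · rw [if_neg (by omega)]
      have h1 := Polynomial.map_modByMonic (p := Polynomial.X ^ k)
        (mk F m : RR F m →+* CC F m) (fZ_monic (UU F m m))
      rw [map_fZ_top, Polynomial.map_pow, Polynomial.map_X,
        (Polynomial.modByMonic_eq_zero_iff_dvd (Polynomial.monic_X_pow _)).2
          (pow_dvd_pow _ (not_lt.1 hk))] at h1
      have h2 := congrArg (fun p => p.coeff (Fintype.card F ^ m - 1)) h1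
      simp only [Polynomial.coeff_map, Polynomial.coeff_zero] at h2
      exact h2

/-- The top exponent vector. -/
noncomputable def tp (n N : ℕ) : Fin n →₀ ℕ := Finsupp.equivFunOnFinite.symm fun _ => N - 1

theorem tp_apply (N : ℕ) (i : Fin n) : tp n N i = N - 1 := rfl

theorem exists_tau (h : MvPolynomial (Fin n) (RR F m)) :
    ∃ r : RR F m, ∑ x, ev x h = aa F m ^ n * r ∧
      mk F m r = mk F m (coeff (tp n (Fintype.card F ^ m)) h) := by
  classical
  induction h using MvPolynomial.induction_on' with
  | monomial a s =>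
    choose t ht1 ht2 using exists_tk (F := F) (m := m)
    refine ⟨s * ∏ i, t (a i), ?_, ?_⟩
    · have h1 : ∀ x : Fin n → WW F m, ev x (monomial a s) = s * ∏ i, iota F m (x i) ^ a i := by
        intro x
        unfold ev
        rw [eval_monomial, Finsupp.prod_fintype _ _ (by simp)]
      simp only [h1]
      rw [← Finset.mul_sum, ← Fintype.piFinset_univ,
        ← Finset.prod_univ_sum (fun _ => univ) fun i u => iota F m u ^ a i]
      simp only [ht1]
      rw [Finset.prod_mul_distrib, Finset.prod_const, Finset.card_univ, Fintype.card_fin]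
      ring
    · rw [map_mul, map_prod, coeff_monomial]
      simp only [ht2]
      split_ifs with h
      · rw [Finset.prod_eq_one fun i _ => if_pos (by rw [h]; rfl), mul_one]
      · obtain ⟨i, hi⟩ : ∃ i, a i ≠ Fintype.card F ^ m - 1 := by
          by_contra h'
          push Not at h'
          exact h (Finsupp.ext h')
        rw [Finset.prod_eq_zero (Finset.mem_univ i) (if_neg hi), mul_zero, map_zero]
  | add p q hp hq =>
    obtain ⟨r, h1, h2⟩ := hp
    obtain ⟨r', h3, h4⟩ := hq
    refine ⟨r + r', ?_, ?_⟩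
    · simp only [map_add, Finset.sum_add_distrib, h1, h3, mul_add]
    · rw [map_add, h2, h4, coeff_add, map_add]

theorem mk_coeff_tp {h : MvPolynomial (Fin n) (RR F m)} {b : RR F m}
    (hb : ∑ x, ev x h = aa F m ^ n * b) :
    mk F m (coeff (tp n (Fintype.card F ^ m)) h) = mk F m b := by
  obtain ⟨r, h1, h2⟩ := exists_tau h
  rw [← h2, mul_left_cancel₀ (pow_ne_zero n aa_ne_zero) (h1.symm.trans hb)]

/-- A level function together with a choice of marked variables. -/
structure Datum (m n : ℕ) where
  c : Fin n → ℕ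
  k : ℕ
  η : Fin k → Fin n
  hk : k ≤ m
  hc : ∀ i, c i ≤ k
  mono : StrictMono η
  lt : ∀ r : Fin k, r.val < c (η r)
  min : ∀ i (r : Fin k), r.val < c i → c (η r) ≤ c i

/-- The levels of a datum. -/
def Datum.L (D : Datum m n) : Levels m where
  S := insert m (Set.range D.c)
  κ := fun r => if h : r.val < D.k then D.c (D.η ⟨r.val, h⟩) else m
  top := Set.mem_insert _ _
  mem := fun r => by
    split_ifs
    · exact Set.mem_insert_of_mem _ ⟨_, rfl⟩
    · exact Set.mem_insert _ _
  lt := fun r => by
    split_ifs with h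
    · exact D.lt ⟨r.val, h⟩
    · exact r.2
  le := fun r => by
    split_ifs with h
    · exact (D.hc _).trans D.hk
    · exact le_rfl
  min := fun r k hk hr => by
    rcases hk with rfl | ⟨i, rfl⟩
    · split_ifs with h
      · exact (D.hc _).trans D.hk
      · exact le_rfl
    · rw [dif_pos (hr.trans_le (D.hc i))]
      exact D.min i _ hr

/-- The linear map attached to a tuple of vectors. -/
noncomputable def phi (D : Datum m n) (x : Fin n → WW F m) : WW F m →ₗ[F] WW F m :=
  Fintype.linearCombination F fun r : Fin m => if h : r.val < D.k then x (D.η ⟨r.val, h⟩) else 0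

theorem phi_apply (D : Datum m n) (x : Fin n → WW F m) (v : WW F m) :
    phi D x v = ∑ r : Fin m, v r • if h : r.val < D.k then x (D.η ⟨r.val, h⟩) else 0 :=
  Fintype.linearCombination_apply _ _ _

theorem phi_single (D : Datum m n) (x : Fin n → WW F m) (r : Fin m) :
    phi D x (Pi.single r 1) = if h : r.val < D.k then x (D.η ⟨r.val, h⟩) else 0 := by
  simp [phi, Fintype.linearCombination_apply_single]

theorem phi_mem (D : Datum m n) {x : Fin n → WW F m} {s s' : ℕ}
    (h : ∀ r : Fin D.k, r.val < s → x (D.η r) ∈ UU F m s') {v : WW F m} (hv : v ∈ UU F m s) :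
    phi D x v ∈ UU F m s' := by
  rw [phi_apply]
  refine sum_mem_UU fun r _ => ?_
  by_cases hr : r.val < s
  · split_ifs with h1
    · exact smul_mem_UU _ (h _ hr)
    · exact smul_mem_UU _ (zero_mem_UU _)
  · rw [mem_UU.1 hv r (not_lt.1 hr), zero_smul]
    exact zero_mem_UU _

theorem phi_congr (D : Datum m n) {x y : Fin n → WW F m} {s : ℕ}
    (h : ∀ r : Fin D.k, r.val < s → x (D.η r) = y (D.η r)) {v : WW F m} (hv : v ∈ UU F m s) :
    phi D x v = phi D y v := by
  rw [phi_apply, phi_apply]
  refine Finset.sum_congr rfl fun r _ => ?_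
  by_cases hr : r.val < s
  · split_ifs with h1
    · rw [h _ hr]
    · rfl
  · rw [mem_UU.1 hv r (not_lt.1 hr), zero_smul, zero_smul]

theorem injOn_of_ne (φ : WW F m →ₗ[F] WW F m) {k : ℕ}
    (h : ∀ r : Fin m, r.val < k → ∀ v ∈ UU F m r.val, φ v ≠ φ (Pi.single r 1)) :
    Set.InjOn φ (UU F m k) := by
  have key : ∀ s ≤ k, ∀ v ∈ UU F m s, φ v = 0 → v = 0 := by
    intro s
    induction s with
    | zero => intro _ v hv _; funext i; exact mem_UU.1 hv i (Nat.zero_le _)
    | succ s ih =>
      intro hs v hv h0
      by_cases h1 : v ∈ UU F m s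
      · exact ih (by omega) v h1 h0
      · exfalso
        rw [mem_UU] at h1
        push Not at h1
        obtain ⟨r, hr1, hr2⟩ := h1
        have hr3 : r.val = s := by
          by_contra h2
          exact hr2 (mem_UU.1 hv r (by omega))
        refine h r (by omega) (Pi.single r 1 - (v r)⁻¹ • v) (mem_UU.2 fun i hi => ?_) ?_
        · by_cases hir : i = r
          · subst hir
            simp [inv_mul_cancel₀ hr2]
          · have : i.val ≠ r.val := fun h => hir (Fin.ext h)
            simp [Pi.single_eq_of_ne hir, mem_UU.1 hv i (by omega)]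
        · rw [map_sub, map_smul, h0, smul_zero, sub_zero]
  intro v hv w hw hvw
  exact sub_eq_zero.1 (key k le_rfl _ (sub_mem_UU hv hw) (by rw [map_sub, hvw, sub_self]))

/-- The substitution of the marked variables. -/
noncomputable def sig (D : Datum m n) : RR F m →ₐ[F] MvPolynomial (Fin n) F :=
  aeval fun r : Fin m => if h : r.val < D.k then X (D.η ⟨r.val, h⟩) else 0

/-- Evaluation of a polynomial over the ground field at a tuple of linear forms. -/
noncomputable def ev0 (x : Fin n → WW F m) : MvPolynomial (Fin n) F →ₐ[F] RR F m :=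
  aeval fun i => iota F m (x i)

theorem ev_map (x : Fin n → WW F m) (w : MvPolynomial (Fin n) F) :
    ev x (map (algebraMap F (RR F m)) w) = ev0 x w := by
  unfold ev ev0
  rw [eval_map, aeval_def]

theorem ev0_X (x : Fin n → WW F m) (i : Fin n) : ev0 x (X i) = iota F m (x i) := aeval_X _ _

theorem ev0_sig (D : Datum m n) (x : Fin n → WW F m) (p : RR F m) :
    ev0 x (sig D p) = star (phi D x) p := by
  have : (ev0 x).comp (sig D) = star (phi D x) := by
    refine MvPolynomial.algHom_ext fun r => ?_
    rw [star_X, phi_single, AlgHom.comp_apply, sig, aeval_X]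
    split_ifs
    · exact ev0_X _ _
    · rw [map_zero, map_zero]
  exact congrArg (fun f => f p) this

/-- The factors of the test polynomial. -/
noncomputable def TP (F : Type) [Field F] [Fintype F] (D : Datum m n) (j : Fin n) :
    MvPolynomial (Fin n) F :=
  if h : ∃ r, D.η r = j then
    (∏ v ∈ UU F m h.choose.val, (X j - sig D (iota F m v))) *
      X j ^ (Fintype.card F ^ D.c j - Fintype.card F ^ h.choose.val - 1)
  else X j ^ (Fintype.card F ^ D.c j - 1)

/-- The factors of the test polynomial, as polynomials in one variable. -/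
noncomputable def QP (D : Datum m n) (x : Fin n → WW F m) (j : Fin n) : Polynomial (RR F m) :=
  if h : ∃ r, D.η r = j then
    (∏ v ∈ UU F m h.choose.val, (Polynomial.X - Polynomial.C (iota F m (phi D x v)))) *
      Polynomial.X ^ (Fintype.card F ^ D.c j - Fintype.card F ^ h.choose.val - 1)
  else Polynomial.X ^ (Fintype.card F ^ D.c j - 1)

theorem ev0_TP (D : Datum m n) (x : Fin n → WW F m) (j : Fin n) :
    ev0 x (TP F D j) = (QP D x j).eval (iota F m (x j)) := by
  unfold TP QP
  split_ifs with h
  · simp only [map_mul, map_prod, map_sub, map_pow, ev0_X, ev0_sig, star_iota,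
      Polynomial.eval_mul, Polynomial.eval_prod, Polynomial.eval_sub, Polynomial.eval_X,
      Polynomial.eval_C, Polynomial.eval_pow]
  · simp only [map_pow, ev0_X, Polynomial.eval_X, Polynomial.eval_pow]

theorem QP_monic (D : Datum m n) (x : Fin n → WW F m) (j : Fin n) : (QP D x j).Monic := by
  unfold QP
  split_ifs
  · exact (Polynomial.monic_prod_of_monic _ _ fun _ _ => Polynomial.monic_X_sub_C _).mul
      (Polynomial.monic_X_pow _)
  · exact Polynomial.monic_X_pow _

theorem QP_natDegree (D : Datum m n) (x : Fin n → WW F m) (j : Fin n) :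
    (QP D x j).natDegree = Fintype.card F ^ D.c j - 1 := by
  unfold QP
  split_ifs with h
  · rw [(Polynomial.monic_prod_of_monic _ _ fun _ _ => Polynomial.monic_X_sub_C _).natDegree_mul
      (Polynomial.monic_X_pow _), Polynomial.natDegree_X_pow,
      Polynomial.natDegree_prod_of_monic _ _ fun _ _ => Polynomial.monic_X_sub_C _]
    simp only [Polynomial.natDegree_X_sub_C, Finset.sum_const, smul_eq_mul, mul_one]
    rw [card_UU (h.choose.2.le.trans D.hk)]
    have h1 := D.lt h.choose
    rw [h.choose_spec] at h1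
    have h2 := Nat.pow_lt_pow_right (Fintype.one_lt_card (α := F)) h1
    omega
  · exact Polynomial.natDegree_X_pow _

theorem QP_congr (D : Datum m n) {x y : Fin n → WW F m} {j : Fin n} (h : ∀ i < j, x i = y i) :
    QP D x j = QP D y j := by
  unfold QP
  split_ifs with h1
  · congr 1
    refine Finset.prod_congr rfl fun v hv => ?_
    rw [phi_congr D (fun r hr => h _ ?_) hv]
    rw [← h1.choose_spec]
    exact D.mono hr
  · rfl

theorem injOn_phi (D : Datum m n) {x : Fin n → WW F m}
    (h : ∏ j, (QP D x j).eval (iota F m (x j)) ≠ 0) : Set.InjOn (phi D x) (UU F m D.k) := by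
  refine injOn_of_ne _ fun r hr v hv h1 => h ?_
  refine Finset.prod_eq_zero (Finset.mem_univ (D.η ⟨r.val, hr⟩)) ?_
  have h2 : ∃ r', D.η r' = D.η ⟨r.val, hr⟩ := ⟨_, rfl⟩
  have h3 : h2.choose = ⟨r.val, hr⟩ := D.mono.injective h2.choose_spec
  rw [phi_single, dif_pos hr] at h1
  unfold QP
  rw [dif_pos h2, h3, Polynomial.eval_mul, Polynomial.eval_prod, Finset.prod_eq_zero hv, zero_mul]
  simp [h1]

theorem mem_of_prod_GG {c : Fin n → ℕ} {x : Fin n → WW F m}
    (h : ∏ j, (GG F m (c j)).eval (iota F m (x j)) ≠ 0) (j : Fin n) : x j ∈ UU F m (c j) := by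
  by_contra h1
  exact h (Finset.prod_eq_zero (Finset.mem_univ j) (by rw [eval_GG, if_neg h1]))

theorem ev_test (D : Datum m n) (c : Fin n → ℕ) (b : RR F m) (x : Fin n → WW F m) :
    ev x (Gam F m c * map (algebraMap F (RR F m)) (sig D b * ∏ j, TP F D j)) =
      (∏ j, (GG F m (c j)).eval (iota F m (x j))) * (star (phi D x) b *
        ∏ j, (QP D x j).eval (iota F m (x j))) := by
  rw [map_mul, ev_Gam', ev_map, map_mul, ev0_sig, map_prod]
  simp only [ev0_TP]

theorem sum_test (D : Datum m n) {b : RR F m} (hb : b ∈ TT F m (Set.range D.c)) :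
    ∑ x, ev x (Gam F m D.c * map (algebraMap F (RR F m)) (sig D b * ∏ j, TP F D j)) =
      aa F m ^ n * b := by
  classical
  have h1 := sum_prod_iter (aa F m) n
    (fun j (x : Fin n → WW F m) => (GG F m (D.c j) * QP D x j).eval (iota F m (x j)))
    (fun j x y h => by rw [QP_congr D fun i hi => h i hi.le, h j le_rfl])
    (fun j x => by
      have h2 : ∀ u, QP D (Function.update x j u) j = QP D x j := fun u =>
        QP_congr D fun i hi => Function.update_of_ne hi.ne _ _
      simp only [h2, Function.update_self]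
      refine sum_eval_monic _ ((GG_monic _).mul (QP_monic D x j)) ?_
      rw [(GG_monic _).natDegree_mul (QP_monic D x j), GG_natDegree ((D.hc j).trans D.hk),
        QP_natDegree]
      have h3 := Nat.pow_le_pow_right (Fintype.card_pos (α := F)) ((D.hc j).trans D.hk)
      have h4 : 0 < Fintype.card F ^ D.c j := pow_pos Fintype.card_pos _
      omega)
  rw [← h1, Finset.sum_mul]
  refine Finset.sum_congr rfl fun x _ => ?_
  simp only [ev_test, Polynomial.eval_mul, Finset.prod_mul_distrib]
  by_cases h2 : ∏ j, (GG F m (D.c j)).eval (iota F m (x j)) = 0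
  · rw [h2]; ring
  by_cases h3 : ∏ j, (QP D x j).eval (iota F m (x j)) = 0
  · rw [h3]; ring
  rw [star_TT (phi D x) ?_ ?_ hb]
  · ring
  · rintro _ ⟨i, rfl⟩
    exact (injOn_phi D h3).mono (UU_mono (D.hc i))
  · rintro _ ⟨i, rfl⟩ v hv
    exact phi_mem D (fun r hr => UU_mono (D.min i r hr) (mem_of_prod_GG h2 _)) hv

theorem sum_test_ne (D : Datum m n) {c : Fin n → ℕ} (hc : ∀ i, c i ≤ m)
    (H : ∀ i (r : Fin D.k), r.val < D.c i → c (D.η r) ≤ c i) (hne : ¬ D.c ≤ c) (b : RR F m) :
    ∑ x, ev x (Gam F m c * map (algebraMap F (RR F m)) (sig D b * ∏ j, TP F D j)) =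
      aa F m ^ n * 0 := by
  rw [mul_zero]
  refine Finset.sum_eq_zero fun x _ => ?_
  rw [ev_test]
  by_cases h2 : ∏ j, (GG F m (c j)).eval (iota F m (x j)) = 0
  · rw [h2]; ring
  by_cases h3 : ∏ j, (QP D x j).eval (iota F m (x j)) = 0
  · rw [h3]; ring
  refine absurd (fun i => ?_) hne
  have h4 := Finset.card_le_card_of_injOn (s := UU F m (D.c i)) (t := UU F m (c i)) (phi D x)
    (fun v hv => phi_mem D (fun r hr => UU_mono (H i r hr) (mem_of_prod_GG h2 _)) hv)
    ((injOn_phi D h3).mono (UU_mono (D.hc i)))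
  rw [card_UU ((D.hc i).trans D.hk), card_UU (hc i)] at h4
  exact (Nat.pow_le_pow_iff_right Fintype.one_lt_card).1 h4

end Pool.Agent.H437Z.LRS
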